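import Pool.Agent.Y303.LV.Fin
import Pool.Agent.N983.NC.Defs

/-!
Systems of Navier-Stokes type with several components in a bounded domain: the symmetric product
and the algebra of the trilinear form.
-/

set_option autoImplicit false
set_option linter.unusedSectionVars false

open MeasureTheory Set Filter Topology
open scoped InnerProductSpace ENNReal ContDiff NNReal

namespace Pool.Agent.N327.MD

open H772R2.NS
open Pool.Agent.W52.TQ (tns norm_tns)
open Pool.Agent.N983.NC (Sym)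

variable {Ω : Set E3}

/-- the class of `(u ⊗ v + v ⊗ u) / 2` -/
noncomputable def sy (u v : L2V Ω) : L2M Ω := (1 / 2 : ℝ) • (tensL (u + v) - tensL u - tensL v)

theorem sy_comm (u v : L2V Ω) : sy u v = sy v u := by
  unfold sy
  rw [add_comm u v, sub_right_comm]

theorem sy_coe (hΩ : MeasurableSet Ω) {p q : L2V Ω × L2M Ω} (hp : p ∈ graphW Ω)
    (hq : q ∈ graphW Ω) : (sy p.1 q.1 : E3 → M3) =ᵐ[volume.restrict Ω]
      fun x => (1 / 2 : ℝ) • (tns (p.1 x) (q.1 x) + tns (q.1 x) (p.1 x)) := by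
  have h1 := tensL_coe hΩ ((graphW Ω).add_mem hp hq)
  have h3 := tensL_coe hΩ hp
  have h4 := tensL_coe hΩ hq
  have k1 := Lp.coeFn_smul (1 / 2 : ℝ) (tensL (p.1 + q.1) - tensL p.1 - tensL q.1)
  have k2 := Lp.coeFn_sub (tensL (p.1 + q.1) - tensL p.1) (tensL q.1)
  have k3 := Lp.coeFn_sub (tensL (p.1 + q.1)) (tensL p.1)
  have k5 := Lp.coeFn_add p.1 q.1
  unfold sy
  filter_upwards [h1, h3, h4, k1, k2, k3, k5] with x a1 a3 a4 b1 b2 b3 b5
  rw [b1, Pi.smul_apply, b2, Pi.sub_apply, b3, Pi.sub_apply]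
  have a1' : (tensL (p.1 + q.1)) x = tens ((p.1 + q.1) x) := a1
  rw [a1', a3, a4, b5]
  ext r
  simp only [PiLp.add_apply, PiLp.smul_apply, tens_apply, Pi.add_apply, PiLp.sub_apply, tns,
    smul_eq_mul]
  ring

theorem tensL_add (u v : L2V Ω) : tensL (u + v) = (2 : ℝ) • sy u v + tensL u + tensL v := by
  unfold sy
  rw [smul_smul]
  norm_num
  abel

theorem sy_add (hΩ : MeasurableSet Ω) {p q r : L2V Ω × L2M Ω} (hp : p ∈ graphW Ω)
    (hq : q ∈ graphW Ω) (hr : r ∈ graphW Ω) : sy (p.1 + q.1) r.1 = sy p.1 r.1 + sy q.1 r.1 := by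
  apply Lp.ext
  have h0 := sy_coe hΩ ((graphW Ω).add_mem hp hq) hr
  rw [Prod.fst_add] at h0
  filter_upwards [h0, sy_coe hΩ hp hr, sy_coe hΩ hq hr, Lp.coeFn_add (sy p.1 r.1) (sy q.1 r.1),
    Lp.coeFn_add p.1 q.1] with x a1 a2 a3 a4 a5
  rw [a1, a4, Pi.add_apply, a2, a3, a5]
  ext s
  simp only [PiLp.add_apply, PiLp.smul_apply, Pi.add_apply, tns, smul_eq_mul]
  ring

theorem sy_smul (hΩ : MeasurableSet Ω) {p r : L2V Ω × L2M Ω} (k : ℝ) (hp : p ∈ graphW Ω)
    (hr : r ∈ graphW Ω) : sy (k • p.1) r.1 = k • sy p.1 r.1 := by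
  apply Lp.ext
  have h0 := sy_coe hΩ ((graphW Ω).smul_mem k hp) hr
  rw [Prod.smul_fst] at h0
  filter_upwards [h0, sy_coe hΩ hp hr, Lp.coeFn_smul k (sy p.1 r.1),
    Lp.coeFn_smul k p.1] with x a1 a2 a4 a5
  rw [a1, a4, Pi.smul_apply, a2, a5]
  ext s
  simp only [PiLp.add_apply, PiLp.smul_apply, Pi.smul_apply, tns, smul_eq_mul]
  ring

theorem sy_self (hΩ : MeasurableSet Ω) {p : L2V Ω × L2M Ω} (hp : p ∈ graphW Ω) :
    sy p.1 p.1 = tensL p.1 := by
  apply Lp.ext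
  filter_upwards [sy_coe hΩ hp hp, tensL_coe hΩ hp] with x a1 a2
  rw [a1, a2]
  ext s
  simp only [PiLp.add_apply, PiLp.smul_apply, tens_apply, tns, smul_eq_mul]
  ring

/-- the trilinear form -/
noncomputable def tr (p q r : L2V Ω × L2M Ω) : ℝ := ⟪sy p.1 q.1, r.2⟫_ℝ

theorem tr_comm (p q r : L2V Ω × L2M Ω) : tr p q r = tr q p r := by
  unfold tr
  rw [sy_comm]

theorem tr_add1 (hΩ : MeasurableSet Ω) {p q r : L2V Ω × L2M Ω} (s : L2V Ω × L2M Ω)
    (hp : p ∈ graphW Ω) (hq : q ∈ graphW Ω) (hr : r ∈ graphW Ω) :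
    tr (p + q) r s = tr p r s + tr q r s := by
  unfold tr
  rw [Prod.fst_add, sy_add hΩ hp hq hr, inner_add_left]

theorem tr_add2 (hΩ : MeasurableSet Ω) {p q r : L2V Ω × L2M Ω} (s : L2V Ω × L2M Ω)
    (hp : p ∈ graphW Ω) (hq : q ∈ graphW Ω) (hr : r ∈ graphW Ω) :
    tr r (p + q) s = tr r p s + tr r q s := by
  rw [tr_comm, tr_add1 hΩ s hp hq hr, tr_comm p, tr_comm q]

theorem tr_add3 (p q r s : L2V Ω × L2M Ω) : tr p q (r + s) = tr p q r + tr p q s := by
  unfold tr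
  rw [Prod.snd_add, inner_add_right]

/-- the cyclic identity -/
theorem tr_cyc (hΩ : MeasurableSet Ω) {p q r : L2V Ω × L2M Ω}
    (hp : p ∈ graphW Ω) (hq : q ∈ graphW Ω) (hr : r ∈ graphW Ω) :
    tr p q r + tr q r p + tr r p q = 0 := by
  have o : ∀ s ∈ graphW Ω, tr s s s = 0 := by
    intro s hs
    unfold tr
    rw [sy_self hΩ hs]
    exact inner_tensL_zero hΩ hs
  have mpq := (graphW Ω).add_mem hp hq
  have mqr := (graphW Ω).add_mem hq hr
  have mpr := (graphW Ω).add_mem hp hr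
  have ho := o _ ((graphW Ω).add_mem mpq hr)
  have h1 := o _ mpq
  have h2 := o _ mqr
  have h3 := o _ mpr
  have h4 := o _ hp
  have h5 := o _ hq
  have h6 := o _ hr
  have m3 := (graphW Ω).add_mem mpq hr
  rw [tr_add1 hΩ _ mpq hr m3, tr_add1 hΩ _ hp hq m3, tr_add2 hΩ _ mpq hr hp,
    tr_add2 hΩ _ mpq hr hq, tr_add2 hΩ _ mpq hr hr, tr_add2 hΩ _ hp hq hp, tr_add2 hΩ _ hp hq hq,
    tr_add2 hΩ _ hp hq hr] at ho
  rw [tr_add1 hΩ _ hp hq mpq, tr_add2 hΩ _ hp hq hp, tr_add2 hΩ _ hp hq hq] at h1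
  rw [tr_add1 hΩ _ hq hr mqr, tr_add2 hΩ _ hq hr hq, tr_add2 hΩ _ hq hr hr] at h2
  rw [tr_add1 hΩ _ hp hr mpr, tr_add2 hΩ _ hp hr hp, tr_add2 hΩ _ hp hr hr] at h3
  simp only [tr_add3] at ho h1 h2 h3
  have c1 : ∀ s, tr q p s = tr p q s := fun s => tr_comm q p s
  have c2 : ∀ s, tr r q s = tr q r s := fun s => tr_comm r q s
  have c3 : ∀ s, tr r p s = tr p r s := fun s => tr_comm r p s
  simp only [c1, c2, c3] at ho h1 h2 h3 ⊢
  linarith

section multi

variable {K : Type} [Fintype K] {c : K → K → K → ℝ}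

theorem sum12 (hc : Sym c) (f : K → K → K → ℝ) :
    ∑ a, ∑ b, ∑ d, c a b d * f a b d = ∑ a, ∑ b, ∑ d, c a b d * f b a d := by
  rw [Finset.sum_comm]
  refine Finset.sum_congr rfl fun b _ => Finset.sum_congr rfl fun a _ =>
    Finset.sum_congr rfl fun d _ => ?_
  rw [(hc a b d).1]

theorem sum23 (hc : Sym c) (f : K → K → K → ℝ) :
    ∑ a, ∑ b, ∑ d, c a b d * f a b d = ∑ a, ∑ b, ∑ d, c a b d * f a d b := by
  refine Finset.sum_congr rfl fun a _ => ?_
  rw [Finset.sum_comm]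
  refine Finset.sum_congr rfl fun d _ => Finset.sum_congr rfl fun b _ => ?_
  rw [(hc a b d).2]

/-- the quadratic term of the system -/
noncomputable def mc (c : K → K → K → ℝ) (u : K → L2V Ω) (a : K) : L2M Ω :=
  ∑ b, ∑ d, c a b d • sy (u b) (u d)

theorem mc_inner (c : K → K → K → ℝ) (P : K → L2V Ω × L2M Ω) (a : K) (r : L2V Ω × L2M Ω) :
    ⟪mc c (fun b => (P b).1) a, r.2⟫_ℝ = ∑ b, ∑ d, c a b d * tr (P b) (P d) r := by
  unfold mc tr
  rw [sum_inner]
  refine Finset.sum_congr rfl fun b _ => ?_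
  rw [sum_inner]
  refine Finset.sum_congr rfl fun d _ => ?_
  rw [real_inner_smul_left]

theorem mc_zero (hΩ : MeasurableSet Ω) (hc : Sym c) {P : K → L2V Ω × L2M Ω}
    (hP : ∀ a, P a ∈ graphW Ω) : ∑ a, ⟪mc c (fun b => (P b).1) a, (P a).2⟫_ℝ = 0 := by
  simp only [mc_inner]
  set S := ∑ a, ∑ b, ∑ d, c a b d * tr (P b) (P d) (P a) with hS
  have e1 : S = ∑ a, ∑ b, ∑ d, c a b d * tr (P a) (P d) (P b) := sum12 hc _
  have e2 : S = ∑ a, ∑ b, ∑ d, c a b d * tr (P a) (P b) (P d) := by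
    rw [e1, sum23 hc (fun a b d => tr (P a) (P d) (P b))]
  have e3 : S + S + S = 0 := by
    calc S + S + S = S + (∑ a, ∑ b, ∑ d, c a b d * tr (P a) (P d) (P b))
          + ∑ a, ∑ b, ∑ d, c a b d * tr (P a) (P b) (P d) := by rw [← e1, ← e2]
      _ = ∑ a, ∑ b, ∑ d, c a b d * (tr (P b) (P d) (P a) + tr (P d) (P a) (P b)
          + tr (P a) (P b) (P d)) := by
          rw [hS, ← Finset.sum_add_distrib, ← Finset.sum_add_distrib]
          refine Finset.sum_congr rfl fun a _ => ?_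
          rw [← Finset.sum_add_distrib, ← Finset.sum_add_distrib]
          refine Finset.sum_congr rfl fun b _ => ?_
          rw [← Finset.sum_add_distrib, ← Finset.sum_add_distrib]
          refine Finset.sum_congr rfl fun d _ => ?_
          rw [tr_comm (P a) (P d)]
          ring
      _ = 0 := by
          refine Finset.sum_eq_zero fun a _ => Finset.sum_eq_zero fun b _ =>
            Finset.sum_eq_zero fun d _ => ?_
          rw [tr_cyc hΩ (hP b) (hP d) (hP a), mul_zero]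
  linarith

/-- the difference of the quadratic terms, tested with the difference -/
theorem mc_diff (hΩ : MeasurableSet Ω) (hc : Sym c) {W Z : K → L2V Ω × L2M Ω}
    (hW : ∀ a, W a ∈ graphW Ω) (hZ : ∀ a, Z a ∈ graphW Ω) :
    ∑ a, ⟪mc c (fun b => (W b + Z b).1) a - mc c (fun b => (Z b).1) a, (W a).2⟫_ℝ
      = -∑ a, ⟪mc c (fun b => (W b).1) a, (Z a).2⟫_ℝ := by
  have h0 := mc_zero hΩ hc hW
  simp only [inner_sub_left, mc_inner c (fun b => W b + Z b), mc_inner c W,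
    mc_inner c Z] at h0 ⊢
  have e1 : ∀ a b d, tr (W b + Z b) (W d + Z d) (W a) = tr (W b) (W d) (W a)
      + tr (W b) (Z d) (W a) + tr (Z b) (W d) (W a) + tr (Z b) (Z d) (W a) := by
    intro a b d
    rw [tr_add1 hΩ _ (hW b) (hZ b) ((graphW Ω).add_mem (hW d) (hZ d)),
      tr_add2 hΩ _ (hW d) (hZ d) (hW b), tr_add2 hΩ _ (hW d) (hZ d) (hZ b)]
    ring
  set X := ∑ a, ∑ b, ∑ d, c a b d * tr (Z b) (W d) (W a) with hX
  set Y := ∑ a, ∑ b, ∑ d, c a b d * tr (W b) (W d) (Z a) with hY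
  have x1 : ∑ a, ∑ b, ∑ d, c a b d * tr (W b) (Z d) (W a) = X := by
    rw [hX, sum23 hc (fun a b d => tr (W b) (Z d) (W a))]
    simp only [tr_comm (W _) (Z _)]
  have x2 : ∑ a, ∑ b, ∑ d, c a b d * tr (Z b) (W a) (W d) = X := by
    have h := sum12 hc (fun a b d => tr (Z b) (W d) (W a))
    have h2 := sum23 hc (fun a b d => tr (Z a) (W d) (W b))
    have h3 := sum12 hc (fun a b d => tr (Z a) (W b) (W d))
    rw [hX, h, h2, h3]
  have y1 : ∑ a, ∑ b, ∑ d, c a b d * tr (W d) (W a) (Z b) = Y := by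
    have h := sum12 hc (fun a b d => tr (W d) (W a) (Z b))
    rw [h, hY]
    refine Finset.sum_congr rfl fun a _ => Finset.sum_congr rfl fun b _ =>
      Finset.sum_congr rfl fun d _ => ?_
    rw [tr_comm (W d) (W b)]
  have key : X + Y + X = 0 := by
    calc X + Y + X = (∑ a, ∑ b, ∑ d, c a b d * tr (Z b) (W d) (W a))
          + (∑ a, ∑ b, ∑ d, c a b d * tr (W d) (W a) (Z b))
          + ∑ a, ∑ b, ∑ d, c a b d * tr (Z b) (W a) (W d) := by rw [y1, x2]
      _ = ∑ a, ∑ b, ∑ d, c a b d * (tr (Z b) (W d) (W a) + tr (W d) (W a) (Z b)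
          + tr (W a) (Z b) (W d)) := by
          rw [← Finset.sum_add_distrib, ← Finset.sum_add_distrib]
          refine Finset.sum_congr rfl fun a _ => ?_
          rw [← Finset.sum_add_distrib, ← Finset.sum_add_distrib]
          refine Finset.sum_congr rfl fun b _ => ?_
          rw [← Finset.sum_add_distrib, ← Finset.sum_add_distrib]
          refine Finset.sum_congr rfl fun d _ => ?_
          rw [tr_comm (W a) (Z b)]
          ring
      _ = 0 := by
          refine Finset.sum_eq_zero fun a _ => Finset.sum_eq_zero fun b _ =>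
            Finset.sum_eq_zero fun d _ => ?_
          rw [tr_cyc hΩ (hZ b) (hW d) (hW a), mul_zero]
  have tot : ∑ a, ((∑ b, ∑ d, c a b d * tr (W b + Z b) (W d + Z d) (W a))
      - ∑ b, ∑ d, c a b d * tr (Z b) (Z d) (W a))
      = (∑ a, ∑ b, ∑ d, c a b d * tr (W b) (W d) (W a))
        + (∑ a, ∑ b, ∑ d, c a b d * tr (W b) (Z d) (W a)) + X := by
    rw [hX, ← Finset.sum_add_distrib, ← Finset.sum_add_distrib]
    refine Finset.sum_congr rfl fun a _ => ?_
    rw [← Finset.sum_add_distrib, ← Finset.sum_add_distrib, ← Finset.sum_sub_distrib]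
    refine Finset.sum_congr rfl fun b _ => ?_
    rw [← Finset.sum_add_distrib, ← Finset.sum_add_distrib, ← Finset.sum_sub_distrib]
    refine Finset.sum_congr rfl fun d _ => ?_
    rw [e1]
    ring
  rw [tot, h0, x1]
  linarith

end multi

end Pool.Agent.N327.MD
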