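import Pool.Agent.N327.MD.ExW

/-!
The time derivative of the self-similar solution is not in `L^{4/3}` in time with values in `L²`.
-/

set_option autoImplicit false
set_option linter.unusedSectionVars false

open MeasureTheory Set Filter Topology
open scoped InnerProductSpace ENNReal ContDiff NNReal

namespace Pool.Agent.N327.MD

open H772R2.NS
open Pool.Agent.Y303.LV (Adm cl cl_coe cl_sub norm_cl_sq sq_integrable)
open Pool.Agent.N983.NC (PD PT Res Sym)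
open H772R2.NSG (ii_of_int)

/-- change of variables -/
theorem integral_sh (b : E3) (g : (Fin 3 → ℝ) → ℝ) :
    ∫ x : E3, g (sh b x) = ∫ y : Fin 3 → ℝ, g y := by
  have h1 : ∫ x : E3, g (sh b x) = ∫ x : E3, g (co x) := by
    have := integral_sub_right_eq_self (μ := (volume : Measure E3)) (fun x => g (co x)) b
    rw [← this]
    refine integral_congr_ae (Eventually.of_forall fun x => ?_)
    show g (sh b x) = g (co (x - b))
    rw [map_sub]
    rfl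
  rw [h1]
  have hmp := PiLp.volume_preserving_ofLp (Fin 3)
  exact hmp.integral_comp (MeasurableEquiv.toLp 2 (Fin 3 → ℝ)).symm.measurableEmbedding g

theorem scale_int {R ρ : ℝ} (hρ : 0 < ρ) (Q : (Fin 3 → ℝ) → ℝ) :
    ∫ y : Fin 3 → ℝ, (Metric.ball 0 (R * ρ)).indicator (fun y => ρ⁻¹ ^ 2 * Q (ρ⁻¹ • y)) y
      = ρ * ∫ y in Metric.ball (0 : Fin 3 → ℝ) R, Q y := by
  have e : (Metric.ball 0 (R * ρ)).indicator (fun y : Fin 3 → ℝ => ρ⁻¹ ^ 2 * Q (ρ⁻¹ • y))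
      = fun y => ρ⁻¹ ^ 2 * (Metric.ball 0 R).indicator Q (ρ⁻¹ • y) := by
    funext y
    by_cases hy : y ∈ Metric.ball (0 : Fin 3 → ℝ) (R * ρ)
    · have h2 : ρ⁻¹ • y ∈ Metric.ball (0 : Fin 3 → ℝ) R := by
        rw [mem_ball_zero_iff] at hy ⊢
        rw [norm_smul, norm_inv, Real.norm_of_nonneg hρ.le, inv_mul_lt_iff₀ hρ, mul_comm]
        exact hy
      rw [indicator_of_mem hy, indicator_of_mem h2]
    · have h2 : ρ⁻¹ • y ∉ Metric.ball (0 : Fin 3 → ℝ) R := by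
        rw [mem_ball_zero_iff] at hy ⊢
        rw [norm_smul, norm_inv, Real.norm_of_nonneg hρ.le, inv_mul_lt_iff₀ hρ, mul_comm]
        exact hy
      rw [indicator_of_notMem hy, indicator_of_notMem h2, mul_zero]
  rw [e, integral_const_mul, Measure.integral_comp_smul, integral_indicator measurableSet_ball]
  simp only [Module.finrank_fintype_fun_eq_card, Fintype.card_fin, smul_eq_mul]
  rw [abs_of_pos (by positivity)]
  field_simp

/-- Hölder's inequality in time -/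
theorem holder43 {Y : Type} [NormedAddCommGroup Y] {g : ℝ → Y} {s t : ℝ} (hst : s ≤ t)
    (hg : MemLp g (4 / 3) (volume.restrict (Ioc s t))) :
    (∫ x in Ioc s t, ‖g x‖) ^ 4 ≤ (t - s) * (∫ x in Ioc s t, ‖g x‖ ^ (4 / 3 : ℝ)) ^ 3 := by
  have hpq : Real.HolderConjugate (4 / 3) 4 := by
    rw [Real.holderConjugate_iff]
    norm_num
  have e43 : ENNReal.ofReal (4 / 3) = 4 / 3 := by
    rw [ENNReal.ofReal_div_of_pos (by norm_num)]
    norm_num
  have h1 := integral_mul_le_Lp_mul_Lq_of_nonneg (μ := volume.restrict (Ioc s t)) hpq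
    (f := fun x => ‖g x‖) (g := fun _ => (1 : ℝ)) (Eventually.of_forall fun x => norm_nonneg _)
    (Eventually.of_forall fun x => zero_le_one) (by rw [e43]; exact hg.norm)
    (memLp_const _)
  simp only [mul_one, Real.one_rpow] at h1
  have hv : ∫ _x in Ioc s t, (1 : ℝ) = t - s := by
    simp [hst]
  rw [hv] at h1
  have h0 : 0 ≤ ∫ x in Ioc s t, ‖g x‖ ^ (4 / 3 : ℝ) := integral_nonneg fun x => by positivity
  have h00 : 0 ≤ ∫ x in Ioc s t, ‖g x‖ := integral_nonneg fun x => norm_nonneg _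
  have h2 := pow_le_pow_left₀ h00 h1 4
  refine h2.trans (le_of_eq ?_)
  rw [mul_pow, ← Real.rpow_natCast, ← Real.rpow_natCast (((t - s) : ℝ) ^ (1 / 4 : ℝ)),
    ← Real.rpow_mul h0, ← Real.rpow_mul (by linarith), ← Real.rpow_natCast _ 3]
  norm_num
  rw [mul_comm]

theorem contra {r r' T : ℝ} {Ω : Set E3} {b : E3} {S : Set (Fin 3 → ℝ)} (G : Geo Ω b r' S)
    (hr0 : 0 < r) (hT : 0 < T) (hrS : ∀ y : Fin 3 → ℝ, ‖y‖ ≤ r → y ∈ S)
    {F : Fin 3 → ℝ × (Fin 3 → ℝ) → ℝ} (hF : ∀ i, Sm T (F i))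
    (h0 : ∀ i, ∀ s < T, ∀ y ∉ S, F i (s, y) = 0)
    {W : (Fin 3 → ℝ) → Fin 3 → ℝ} (hW : Continuous W) {C : ℝ} (hC : ∀ y, ‖W y‖ ≤ C)
    {y₀ : Fin 3 → ℝ} (hy₀ : W y₀ ≠ 0)
    (hs : ∀ t, 7 / 8 * T < t → t < T → ∀ y, ‖y‖ < r / 2 → ∀ i,
      F i (t, y) = (Real.sqrt (T - t))⁻¹ * W ((Real.sqrt (T - t))⁻¹ • y) i)
    {g : ℝ → L2V Ω} (hg : MemLp g (4 / 3) (volume.restrict (Ioc 0 T)))
    (hp : ∀ s t, 0 ≤ s → s ≤ t → t < T →
      cl Ω (Vf b F t) - cl Ω (Vf b F s) = ∫ x in s..t, g x) : False := by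
  -- the parameter
  have hn : 0 < ‖W y₀‖ := norm_pos_iff.2 hy₀
  have hC0 : 0 < C := hn.trans_le (hC y₀)
  obtain ⟨m, hm1, hm2⟩ : ∃ m : ℝ, 1 < m ∧ C < m * ‖W y₀‖ := by
    refine ⟨max 2 (2 * C / ‖W y₀‖), lt_of_lt_of_le one_lt_two (le_max_left _ _), ?_⟩
    have h1 : 2 * C / ‖W y₀‖ ≤ max 2 (2 * C / ‖W y₀‖) := le_max_right _ _
    rw [div_le_iff₀ hn] at h1
    linarith
  have hm0 : 0 < m := by linarith
  set D : (Fin 3 → ℝ) → Fin 3 → ℝ := fun y => W y - m⁻¹ • W (m⁻¹ • y) with hD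
  have hDc : Continuous D := by
    have h1 : Continuous fun y : Fin 3 → ℝ => W (m⁻¹ • y) := hW.comp (continuous_const_smul m⁻¹)
    exact hW.sub (h1.const_smul m⁻¹)
  have hDne : D y₀ ≠ 0 := by
    intro h
    have h1 : W y₀ = m⁻¹ • W (m⁻¹ • y₀) := sub_eq_zero.1 h
    have h2 : ‖W y₀‖ ≤ m⁻¹ * C := by
      rw [h1, norm_smul, norm_inv, Real.norm_of_nonneg hm0.le]
      exact mul_le_mul_of_nonneg_left (hC _) (inv_nonneg.2 hm0.le)
    rw [inv_mul_eq_div, le_div_iff₀ hm0] at h2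
    linarith
  set Q : (Fin 3 → ℝ) → ℝ := fun y => ∑ i, D y i ^ 2 with hQ
  have hQc : Continuous Q := continuous_finsetSum _ fun i _ => ((continuous_apply i).comp hDc).pow 2
  have hQ0 : ∀ y, 0 ≤ Q y := fun y => Finset.sum_nonneg fun i _ => sq_nonneg _
  have hQy : 0 < Q y₀ := by
    obtain ⟨i, hi⟩ := Function.ne_iff.1 hDne
    exact Finset.sum_pos' (fun _ _ => sq_nonneg _) ⟨i, Finset.mem_univ _, by
      have : D y₀ i ≠ 0 := hi
      positivity⟩
  set R : ℝ := ‖y₀‖ + 1 with hR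
  have hR0 : 0 < R := by positivity
  set J : ℝ := ∫ y in Metric.ball (0 : Fin 3 → ℝ) R, Q y with hJ
  have hJ0 : 0 < J := by
    rw [hJ, integral_pos_iff_support_of_nonneg (fun y => hQ0 y)
      ((hQc.locallyIntegrable.integrableOn_isCompact (isCompact_closedBall 0 R)).mono_set
        Metric.ball_subset_closedBall)]
    rw [Measure.restrict_apply' measurableSet_ball]
    have ho : IsOpen (Function.support Q ∩ Metric.ball 0 R) :=
      (hQc.isOpen_support).inter Metric.isOpen_ball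
    refine ho.measure_pos _ ⟨y₀, ?_, ?_⟩
    · exact hQy.ne'
    · rw [mem_ball_zero_iff]
      linarith
  -- the lower bound
  have low : ∀ ρ : ℝ, 0 < ρ → m ^ 2 * ρ ^ 2 < T / 8 → R * ρ < r / 2 →
      ρ * J ≤ ‖cl Ω (Vf b F (T - ρ ^ 2)) - cl Ω (Vf b F (T - m ^ 2 * ρ ^ 2))‖ ^ 2 := by
    intro ρ hρ0 hρ1 hρ2
    have hmρ : ρ ^ 2 ≤ m ^ 2 * ρ ^ 2 := by
      have : 1 ≤ m ^ 2 := one_le_pow₀ hm1.le
      nlinarith [sq_nonneg ρ]
    have hρp : 0 < ρ ^ 2 := by positivity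
    have t1 : 7 / 8 * T < T - ρ ^ 2 := by linarith
    have t1' : T - ρ ^ 2 < T := by linarith
    have t2 : 7 / 8 * T < T - m ^ 2 * ρ ^ 2 := by linarith
    have t2' : T - m ^ 2 * ρ ^ 2 < T := by linarith
    have q1 : Real.sqrt (T - (T - ρ ^ 2)) = ρ := by
      rw [sub_sub_cancel, Real.sqrt_sq hρ0.le]
    have q2 : Real.sqrt (T - (T - m ^ 2 * ρ ^ 2)) = m * ρ := by
      rw [sub_sub_cancel, ← mul_pow, Real.sqrt_sq (by positivity)]
    have a1 : Adm b (3 * r') (Vf b F (T - ρ ^ 2)) := Vf_adm G (slice_cont hF t1')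
      fun i y hy => h0 i _ t1' y hy
    have a2 : Adm b (3 * r') (Vf b F (T - m ^ 2 * ρ ^ 2)) := Vf_adm G (slice_cont hF t2')
      fun i y hy => h0 i _ t2' y hy
    rw [← cl_sub a1 a2 G.pos3, norm_cl_sq (a1.sub a2) G.pos3]
    have hset : IsOpen {x : E3 | ‖sh b x‖ < R * ρ} :=
      isOpen_lt (sh_contDiff b).continuous.norm continuous_const
    have hsub : {x : E3 | ‖sh b x‖ < R * ρ} ⊆ Ω := fun x hx =>
      G.sub x (hrS _ (by
        have : ‖sh b x‖ < R * ρ := hx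
        linarith))
    have e1 : ρ * J = ∫ x in {x : E3 | ‖sh b x‖ < R * ρ},
        ‖Vf b F (T - ρ ^ 2) x - Vf b F (T - m ^ 2 * ρ ^ 2) x‖ ^ 2 := by
      rw [← integral_indicator hset.measurableSet, hJ, ← scale_int hρ0 Q, ← integral_sh b]
      refine integral_congr_ae (Eventually.of_forall fun x => ?_)
      show (Metric.ball 0 (R * ρ)).indicator (fun y => ρ⁻¹ ^ 2 * Q (ρ⁻¹ • y)) (sh b x)
        = {x : E3 | ‖sh b x‖ < R * ρ}.indicator (fun x =>
          ‖Vf b F (T - ρ ^ 2) x - Vf b F (T - m ^ 2 * ρ ^ 2) x‖ ^ 2) x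
      by_cases hx : ‖sh b x‖ < R * ρ
      · rw [indicator_of_mem (show sh b x ∈ Metric.ball 0 (R * ρ) from by
          rw [mem_ball_zero_iff]; exact hx), indicator_of_mem (show x ∈ {x : E3 |
            ‖sh b x‖ < R * ρ} from hx), norm_sq_E3]
        simp only [hQ, Finset.mul_sum]
        refine Finset.sum_congr rfl fun i _ => ?_
        rw [PiLp.sub_apply, Vf_apply, Vf_apply, hs _ t1 t1' _ (hx.trans hρ2),
          hs _ t2 t2' _ (hx.trans hρ2), q1, q2, hD]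
        simp only [Pi.sub_apply, Pi.smul_apply, smul_eq_mul, smul_smul, mul_inv]
        ring
      · rw [indicator_of_notMem (show sh b x ∉ Metric.ball 0 (R * ρ) from by
          rw [mem_ball_zero_iff]; exact hx), indicator_of_notMem (show x ∉ {x : E3 |
            ‖sh b x‖ < R * ρ} from hx)]
    rw [e1]
    exact setIntegral_mono_set (sq_integrable (a1.sub a2) G.pos3)
      (Eventually.of_forall fun x => sq_nonneg _) (Eventually.of_forall hsub)
  -- the upper bound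
  have hfin : IsFiniteMeasure (volume.restrict (Ioc (0 : ℝ) T) : Measure ℝ) := by
    rw [isFiniteMeasure_restrict]; simp
  have h43 : (1 : ℝ≥0∞) ≤ 4 / 3 := by
    rw [ENNReal.le_div_iff_mul_le (by simp) (by simp)]
    norm_num
  have gi : Integrable g (volume.restrict (Ioc 0 T)) := hg.integrable h43
  have e43 : (4 / 3 : ℝ≥0∞).toReal = 4 / 3 := by
    rw [ENNReal.toReal_div]
    norm_num
  have hi : Integrable (fun x => ‖g x‖ ^ (4 / 3 : ℝ)) (volume.restrict (Ioc 0 T)) := by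
    have h := hg.integrable_norm_rpow (by simp) (by
      exact (ENNReal.div_lt_top (by simp) (by simp)).ne)
    rwa [e43] at h
  set P : ℝ → ℝ := fun t => ∫ s in (0 : ℝ)..t, ‖g s‖ ^ (4 / 3 : ℝ) with hP
  have Pc : ContinuousOn P (Icc 0 T) := prim_cont1 hi fun t _ => rfl
  have up : ∀ s t : ℝ, 0 ≤ s → s ≤ t → t < T →
      ‖cl Ω (Vf b F t) - cl Ω (Vf b F s)‖ ^ 4 ≤ (t - s) * (P t - P s) ^ 3 := by
    intro s t hs0 hst ht1
    have s3 : P t - P s = ∫ x in Ioc s t, ‖g x‖ ^ (4 / 3 : ℝ) := by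
      have j1 := ii_of_int hi le_rfl hs0 (hst.trans ht1.le)
      have j2 := ii_of_int hi hs0 hst ht1.le
      have s1 := intervalIntegral.integral_add_adjacent_intervals j1 j2
      rw [hP, ← intervalIntegral.integral_of_le hst]
      simp only
      rw [← s1]
      ring
    rw [hp s t hs0 hst ht1, s3, intervalIntegral.integral_of_le hst]
    refine le_trans (pow_le_pow_left₀ (norm_nonneg _) (norm_integral_le_integral_norm _) 4) ?_
    exact holder43 hst (hg.mono_measure (Measure.restrict_mono (Ioc_subset_Ioc hs0 ht1.le) le_rfl))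
  -- the conclusion
  have P1 : Tendsto (fun ρ : ℝ => m ^ 2 * (P (T - ρ ^ 2) - P (T - m ^ 2 * ρ ^ 2)) ^ 3)
      (𝓝[>] 0) (𝓝 0) := by
    have hev : ∀ᶠ ρ : ℝ in 𝓝[>] 0, m ^ 2 * ρ ^ 2 < T := by
      have c1 : ContinuousAt (fun ρ : ℝ => m ^ 2 * ρ ^ 2) 0 := by fun_prop
      have c2 : ∀ᶠ ρ : ℝ in 𝓝 0, m ^ 2 * ρ ^ 2 < T :=
        c1.eventually_lt continuousAt_const (by simpa using hT)
      exact nhdsWithin_le_nhds c2
    have tend : ∀ k : ℝ, 0 ≤ k → k ≤ m ^ 2 →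
        Tendsto (fun ρ : ℝ => P (T - k * ρ ^ 2)) (𝓝[>] 0) (𝓝 (P T)) := by
      intro k hk0 hk
      have h1 : Tendsto (fun ρ : ℝ => T - k * ρ ^ 2) (𝓝[>] 0) (𝓝[Icc 0 T] T) := by
        refine tendsto_nhdsWithin_iff.2 ⟨?_, ?_⟩
        · have c1 : Tendsto (fun ρ : ℝ => T - k * ρ ^ 2) (𝓝 0) (𝓝 (T - k * 0 ^ 2)) := by
            have : Continuous fun ρ : ℝ => T - k * ρ ^ 2 := by fun_prop
            exact this.tendsto 0
          have e : (T - k * 0 ^ 2 : ℝ) = T := by ring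
          rw [e] at c1
          exact c1.mono_left nhdsWithin_le_nhds
        · filter_upwards [hev] with ρ h2
          have h3 : k * ρ ^ 2 ≤ m ^ 2 * ρ ^ 2 := mul_le_mul_of_nonneg_right hk (sq_nonneg _)
          have h4 : 0 ≤ k * ρ ^ 2 := by positivity
          constructor <;> linarith
      exact (Pc T ⟨hT.le, le_rfl⟩).tendsto.comp h1
    have ta := tend 1 zero_le_one (one_le_pow₀ hm1.le)
    have tb := tend (m ^ 2) (sq_nonneg _) le_rfl
    have tc := ((ta.sub tb).pow 3).const_mul (m ^ 2)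
    simpa using tc
  have hJ2 : 0 < J ^ 2 := by positivity
  have ev1 := P1.eventually (gt_mem_nhds hJ2)
  have ev2 : ∀ᶠ ρ : ℝ in 𝓝[>] 0, m ^ 2 * ρ ^ 2 < T / 8 := by
    have c1 : ContinuousAt (fun ρ : ℝ => m ^ 2 * ρ ^ 2) 0 := by fun_prop
    have c2 : ∀ᶠ ρ : ℝ in 𝓝 0, m ^ 2 * ρ ^ 2 < T / 8 :=
      c1.eventually_lt continuousAt_const (by simpa using hT)
    exact nhdsWithin_le_nhds c2
  have ev3 : ∀ᶠ ρ : ℝ in 𝓝[>] 0, R * ρ < r / 2 := by
    have c1 : ContinuousAt (fun ρ : ℝ => R * ρ) 0 := by fun_prop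
    have c2 : ∀ᶠ ρ : ℝ in 𝓝 0, R * ρ < r / 2 :=
      c1.eventually_lt continuousAt_const (by simpa using hr0)
    exact nhdsWithin_le_nhds c2
  obtain ⟨ρ, h1, h2, h3, h4⟩ := (ev1.and (ev2.and (ev3.and self_mem_nhdsWithin))).exists
  have h4' : 0 < ρ := h4
  have hρp : 0 < ρ ^ 2 := by positivity
  have hmρ : ρ ^ 2 ≤ m ^ 2 * ρ ^ 2 := by
    have : 1 ≤ m ^ 2 := one_le_pow₀ hm1.le
    nlinarith [sq_nonneg ρ]
  have l1 := low ρ h4' h2 h3
  have u1 := up (T - m ^ 2 * ρ ^ 2) (T - ρ ^ 2) (by linarith) (by linarith) (by linarith)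
  have l2 : (ρ * J) ^ 2 ≤ ‖cl Ω (Vf b F (T - ρ ^ 2)) - cl Ω (Vf b F (T - m ^ 2 * ρ ^ 2))‖ ^ 4 := by
    calc (ρ * J) ^ 2 ≤ (‖cl Ω (Vf b F (T - ρ ^ 2))
          - cl Ω (Vf b F (T - m ^ 2 * ρ ^ 2))‖ ^ 2) ^ 2 :=
          pow_le_pow_left₀ (by positivity) l1 2
      _ = _ := by ring
  have l3 := l2.trans u1
  set X := (P (T - ρ ^ 2) - P (T - m ^ 2 * ρ ^ 2)) ^ 3 with hX
  have hX0 : 0 ≤ X := by
    by_contra hneg
    push Not at hneg
    have h5 : 0 ≤ T - ρ ^ 2 - (T - m ^ 2 * ρ ^ 2) := by linarith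
    have h6 : 0 < (ρ * J) ^ 2 := by positivity
    nlinarith
  have l4 : (ρ * J) ^ 2 ≤ m ^ 2 * ρ ^ 2 * X := by
    refine l3.trans (mul_le_mul_of_nonneg_right (by linarith) hX0)
  have l5 : ρ ^ 2 * J ^ 2 ≤ ρ ^ 2 * (m ^ 2 * X) := by nlinarith
  have l6 : J ^ 2 ≤ m ^ 2 * X := le_of_mul_le_mul_left l5 hρp
  linarith

end Pool.Agent.N327.MD
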