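import Pool.Agent.N983.NC.Final

/-!
The self-similar solution of the system with several components, cut off in a small cube: a smooth
solution with compact support, driven by a smooth force with compact support.
-/

set_option autoImplicit false

open MeasureTheory Set Filter Topology
open scoped ContDiff

namespace Pool.Agent.N327.MD

open H459R3.NS
open Pool.Agent.N983.NC

/-! ### Cut-off functions -/

section cut

variable {r : ℝ} (hr : 0 < r)

/-- Cut-off function for the solution. -/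
noncomputable def bu1 : ContDiffBump (0 : V) := ⟨r / 2, r, by positivity, by linarith⟩

/-- Cut-off function for the force. -/
noncomputable def bu2 : ContDiffBump (0 : V) := ⟨r / 8, r / 4, by positivity, by linarith⟩

/-- Cut-off function for the solution. -/
noncomputable def ze (τ : ℝ) (z : ℝ × V) : ℝ :=
  Real.smoothTransition ((z.1 - 1) / τ + 2) * bu1 hr z.2

/-- Cut-off function for the force. -/
noncomputable def ps (τ δ : ℝ) (z : ℝ × V) : ℝ :=
  (1 - Real.smoothTransition ((z.1 - 1) / δ)) *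
    (1 - Real.smoothTransition (4 * ((z.1 - 1) / τ) + 3) * bu2 hr z.2)

theorem ze_smooth (τ : ℝ) : ContDiff ℝ ∞ (ze hr τ) := by
  unfold ze
  refine ContDiff.mul ?_ ((bu1 hr).contDiff.comp contDiff_snd)
  exact Real.smoothTransition.contDiff.comp
    (((contDiff_fst.sub contDiff_const).div_const τ).add contDiff_const)

variable {τ : ℝ} (hτ : 0 < τ)

include hτ

theorem ze_one {z : ℝ × V} (h1 : 1 - τ ≤ z.1) (h2 : ‖z.2‖ ≤ r / 2) : ze hr τ z = 1 := by
  unfold ze
  have h3 : -1 ≤ (z.1 - 1) / τ := by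
    rw [le_div_iff₀ hτ]
    linarith
  rw [Real.smoothTransition.one_of_one_le (by linarith), one_mul]
  exact (bu1 hr).one_of_mem_closedBall (by simpa [bu1] using h2)

theorem ze_zero_left {z : ℝ × V} (h1 : z.1 ≤ 1 - 2 * τ) : ze hr τ z = 0 := by
  unfold ze
  have h3 : (z.1 - 1) / τ ≤ -2 := by
    rw [div_le_iff₀ hτ]
    linarith
  rw [Real.smoothTransition.zero_of_nonpos (by linarith), zero_mul]

omit hτ in
theorem ze_zero_right {z : ℝ × V} (h1 : r ≤ ‖z.2‖) : ze hr τ z = 0 := by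
  unfold ze
  rw [(bu1 hr).zero_of_le_dist (by simpa [bu1] using h1), mul_zero]

omit hτ in
theorem ps_smooth (τ δ : ℝ) : ContDiff ℝ ∞ (ps hr τ δ) := by
  unfold ps
  refine ContDiff.mul (contDiff_const.sub ?_) (contDiff_const.sub (ContDiff.mul ?_
    ((bu2 hr).contDiff.comp contDiff_snd)))
  · exact Real.smoothTransition.contDiff.comp ((contDiff_fst.sub contDiff_const).div_const δ)
  · exact Real.smoothTransition.contDiff.comp ((contDiff_const.mul
      ((contDiff_fst.sub contDiff_const).div_const τ)).add contDiff_const)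

theorem ps_one {δ : ℝ} (hδ : 0 < δ) {z : ℝ × V} (h1 : z.1 ≤ 1)
    (h2 : z.1 ≤ 1 - 3 / 4 * τ ∨ r / 4 ≤ ‖z.2‖) : ps hr τ δ z = 1 := by
  unfold ps
  rw [Real.smoothTransition.zero_of_nonpos (div_nonpos_of_nonpos_of_nonneg (by linarith) hδ.le)]
  rcases h2 with h | h
  · have h3 : (z.1 - 1) / τ ≤ -(3 / 4) := by
      rw [div_le_iff₀ hτ]
      linarith
    rw [Real.smoothTransition.zero_of_nonpos (x := 4 * ((z.1 - 1) / τ) + 3) (by linarith)]
    norm_num
  · rw [(bu2 hr).zero_of_le_dist (by simpa [bu2] using h)]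
    norm_num

/-- The support of the cut-off function for the force. -/
def Su (r τ δ : ℝ) : Set (ℝ × V) := {z | z.1 ≤ 1 + δ ∧ (z.1 ≤ 1 - τ / 2 ∨ r / 8 ≤ ‖z.2‖)}

theorem ps_zero {δ : ℝ} (hδ : 0 < δ) {z : ℝ × V} (h : z ∉ Su r τ δ) : ps hr τ δ z = 0 := by
  unfold ps
  by_cases h1 : z.1 ≤ 1 + δ
  · have h2 : ¬ (z.1 ≤ 1 - τ / 2 ∨ r / 8 ≤ ‖z.2‖) := fun h2 => h ⟨h1, h2⟩
    push Not at h2
    have h3 : -(1 / 2) ≤ (z.1 - 1) / τ := by
      rw [le_div_iff₀ hτ]
      linarith
    rw [Real.smoothTransition.one_of_one_le (x := 4 * ((z.1 - 1) / τ) + 3) (by linarith),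
      (bu2 hr).one_of_mem_closedBall (by simpa [bu2] using h2.2.le)]
    norm_num
  · have h3 : 1 ≤ (z.1 - 1) / δ := by
      rw [le_div_iff₀ hδ]
      linarith
    rw [Real.smoothTransition.one_of_one_le h3]
    norm_num

omit hτ in
theorem Su_closed (r τ δ : ℝ) : IsClosed (Su r τ δ) := by
  have h1 : IsClosed {z : ℝ × V | z.1 ≤ 1 + δ} := isClosed_le continuous_fst continuous_const
  have h2 : IsClosed {z : ℝ × V | z.1 ≤ 1 - τ / 2} := isClosed_le continuous_fst continuous_const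
  have h3 : IsClosed {z : ℝ × V | r / 8 ≤ ‖z.2‖} :=
    isClosed_le continuous_const continuous_snd.norm
  exact h1.inter (h2.union h3)

include hr in
theorem Su_sub {δ κ : ℝ} (hκ : 0 < κ) (hδ : δ < κ * (r / 8) ^ 2) : Su r τ δ ⊆ Om κ := by
  rintro z ⟨h1, h2⟩
  have h0 : 0 ≤ κ * ∑ i, z.2 i ^ 2 := mul_nonneg hκ.le (Finset.sum_nonneg fun i _ => sq_nonneg _)
  show 0 < 1 - z.1 + κ * ∑ i, z.2 i ^ 2
  rcases h2 with h | h
  · linarith
  · have h3 : (r / 8) ^ 2 ≤ ‖z.2‖ ^ 2 := pow_le_pow_left₀ (by positivity) h 2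
    have h4 : κ * (r / 8) ^ 2 ≤ κ * ∑ i, z.2 i ^ 2 :=
      mul_le_mul_of_nonneg_left (h3.trans (norm_sq_le _)) hκ.le
    linarith

/-- The product with the cut-off function is smooth everywhere. -/
theorem contDiff_ps_mul {δ κ : ℝ} (hκ : 0 < κ) (hδ : δ < κ * (r / 8) ^ 2)
    (hδ0 : 0 < δ) {R : ℝ × V → ℝ} (hR : ContDiffOn ℝ ∞ R (Om κ)) :
    ContDiff ℝ ∞ fun z => ps hr τ δ z * R z := by
  rw [contDiff_iff_contDiffAt]
  intro z
  by_cases h : z ∈ Om κ
  · exact (ps_smooth hr τ δ).contDiffAt.mul (hR.contDiffAt ((Om_open κ).mem_nhds h))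
  · have h1 : z ∈ (Su r τ δ)ᶜ := fun h2 => h (Su_sub hr hτ hκ hδ h2)
    have h2 : (fun z => ps hr τ δ z * R z) =ᶠ[𝓝 z] fun _ => 0 := by
      filter_upwards [(Su_closed r τ δ).isOpen_compl.mem_nhds h1] with y hy
      rw [ps_zero hr hτ hδ0 hy, zero_mul]
    exact contDiffAt_const.congr_of_eventuallyEq h2

end cut

/-- A smooth solution before the time `T`, with a smooth force, and with supports in `S`. -/
structure Ex {K : Type} [Fintype K] (c : K → K → K → ℝ) (ν T : ℝ) (S : Set V)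
    (v : K → Fin 3 → ℝ × V → ℝ) (q : K → ℝ × V → ℝ) (f : K → Fin 3 → ℝ × V → ℝ) : Prop where
  sv : ∀ a i, ContDiffOn ℝ ∞ (v a i) (Iio T ×ˢ univ)
  sq : ∀ a, ContDiffOn ℝ ∞ (q a) (Iio T ×ˢ univ)
  sf : ∀ a i, ContDiff ℝ ∞ (f a i)
  v0 : ∀ a i z, z.2 ∉ S → v a i z = 0
  q0 : ∀ a z, z.2 ∉ S → q a z = 0
  f0 : ∀ a i z, z.2 ∉ S → f a i z = 0
  dv : ∀ a z, z.1 < T → ∑ i, PD i (v a i) z = 0
  eq : ∀ a i z, z.1 < T → Res c ν v q a i z = f a i z

/-- The cut-off of the self-similar solution. -/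
theorem exists_ex1 {K : Type} [Fintype K] {c : K → K → K → ℝ} {ν κ : ℝ} (hκ : 0 < κ)
    {A : K → ℝ → V → V} {p : K → ℝ → V → ℝ} (h : Core c ν κ A p) {r τ : ℝ} (hr : 0 < r)
    (hτ : 0 < τ) :
    ∃ v q f, Ex c ν 1 (Metric.closedBall 0 r) v q f ∧
      (∀ a i z, z.1 < 1 - 2 * τ → v a i z = 0 ∧ q a z = 0) ∧
      (∀ a i z, (z.1 < 1 - 2 * τ ∨ 2 < z.1) → f a i z = 0) ∧
      ∀ a i z, 1 - τ < z.1 → z.1 < 1 → ‖z.2‖ < r / 2 → v a i z = curl (A a z.1) z.2 i := by
  have hO : IsOpen (Iio (1 : ℝ) ×ˢ (univ : Set V)) := isOpen_Iio.prod isOpen_univ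
  have hOm := Om_open κ
  have hsub : Iio (1 : ℝ) ×ˢ (univ : Set V) ⊆ Om κ := fun z hz => Om_of_lt hκ hz.1
  have hAc : ∀ a i, ContDiffOn ℝ ∞ (fun z : ℝ × V => A a z.1 z.2 i) (Om κ) :=
    fun a i => (contDiffOn_pi.1 (h.smooth_A a)) i
  have hp := h.smooth_p
  -- the cut-off solution
  set v : K → Fin 3 → ℝ × V → ℝ := fun a i => Curl (fun i z => ze hr τ z * A a z.1 z.2 i) i with hv
  set q : K → ℝ × V → ℝ := fun a z => ze hr τ z * p a z.1 z.2 with hq
  have vs : ∀ a i, ContDiffOn ℝ ∞ (v a i) (Om κ) := fun a i =>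
    contDiffOn_Curl hOm (fun i => (ze_smooth hr τ).contDiffOn.mul (hAc a i)) i
  have qs : ∀ a, ContDiffOn ℝ ∞ (q a) (Om κ) := fun a => (ze_smooth hr τ).contDiffOn.mul (hp a)
  -- vanishing
  have hz0 : ∀ z : ℝ × V, (z.1 < 1 - 2 * τ ∨ r < ‖z.2‖) → ze hr τ =ᶠ[𝓝 z] fun _ => 0 := by
    intro z hz
    rcases hz with h | h
    · have : {y : ℝ × V | y.1 < 1 - 2 * τ} ∈ 𝓝 z :=
        (isOpen_lt continuous_fst continuous_const).mem_nhds h
      filter_upwards [this] with y hy
      exact ze_zero_left hr hτ (le_of_lt hy)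
    · have : {y : ℝ × V | r < ‖y.2‖} ∈ 𝓝 z :=
        (isOpen_lt continuous_const continuous_snd.norm).mem_nhds h
      filter_upwards [this] with y hy
      exact ze_zero_right hr (le_of_lt hy)
  have v0 : ∀ z : ℝ × V, (z.1 < 1 - 2 * τ ∨ r < ‖z.2‖) → ∀ a i, v a i =ᶠ[𝓝 z] fun _ => 0 := by
    intro z hz a i
    have h1 : Curl (fun i z => ze hr τ z * A a z.1 z.2 i) i =ᶠ[𝓝 z] Curl (fun _ _ => 0) i := by
      refine Curl_congr (fun i => ?_) i
      filter_upwards [hz0 z hz] with y hy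
      rw [hy, zero_mul]
    rw [Curl_zero] at h1
    exact h1
  have q0 : ∀ z : ℝ × V, (z.1 < 1 - 2 * τ ∨ r < ‖z.2‖) → ∀ a, q a =ᶠ[𝓝 z] fun _ => 0 := by
    intro z hz a
    filter_upwards [hz0 z hz] with y hy
    show ze hr τ y * p a y.1 y.2 = 0
    rw [hy, zero_mul]
  have r0 : ∀ z : ℝ × V, (z.1 < 1 - 2 * τ ∨ r < ‖z.2‖) → ∀ a i, Res c ν v q a i z = 0 := by
    intro z hz a i
    rw [Res_congr (v0 z hz) (q0 z hz), Res_zero]
  -- the core
  have hz1 : ∀ z : ℝ × V, (1 - τ < z.1 ∧ ‖z.2‖ < r / 2) → ze hr τ =ᶠ[𝓝 z] fun _ => 1 := by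
    intro z hz
    have h1 : {y : ℝ × V | 1 - τ < y.1} ∈ 𝓝 z :=
      (isOpen_lt continuous_const continuous_fst).mem_nhds hz.1
    have h2 : {y : ℝ × V | ‖y.2‖ < r / 2} ∈ 𝓝 z :=
      (isOpen_lt continuous_snd.norm continuous_const).mem_nhds hz.2
    filter_upwards [h1, h2] with y hy1 hy2
    exact ze_one hr hτ (le_of_lt hy1) (le_of_lt hy2)
  have v1 : ∀ z : ℝ × V, (1 - τ < z.1 ∧ ‖z.2‖ < r / 2) → z.1 < 1 → ∀ a i,
      v a i =ᶠ[𝓝 z] fun y => curl (A a y.1) y.2 i := by
    intro z hz hz' a i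
    have h1 : Curl (fun i z => ze hr τ z * A a z.1 z.2 i) i
        =ᶠ[𝓝 z] Curl (fun i z => A a z.1 z.2 i) i := by
      refine Curl_congr (fun i => ?_) i
      filter_upwards [hz1 z hz] with y hy
      rw [hy, one_mul]
    refine h1.trans ?_
    filter_upwards [hO.mem_nhds (⟨hz', mem_univ _⟩ : z ∈ Iio (1 : ℝ) ×ˢ (univ : Set V))] with y hy
    exact (curl_slice (A := A a) (fun i => (hAc a i).mono hsub) hy.1 y.2 i).symm
  have q1 : ∀ z : ℝ × V, (1 - τ < z.1 ∧ ‖z.2‖ < r / 2) → ∀ a,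
      q a =ᶠ[𝓝 z] fun y => p a y.1 y.2 := by
    intro z hz a
    filter_upwards [hz1 z hz] with y hy
    show ze hr τ y * p a y.1 y.2 = p a y.1 y.2
    rw [hy, one_mul]
  have cs : ∀ a i, ContDiffOn ℝ ∞ (fun z : ℝ × V => curl (A a z.1) z.2 i) (Iio 1 ×ˢ univ) := by
    intro a i
    refine (contDiffOn_Curl hO (fun i => (hAc a i).mono hsub) i).congr fun z hz => ?_
    exact curl_slice (A := A a) (fun i => (hAc a i).mono hsub) hz.1 z.2 i
  have r1 : ∀ z : ℝ × V, (1 - τ < z.1 ∧ ‖z.2‖ < r / 2) → z.1 < 1 → ∀ a i,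
      Res c ν v q a i z = 0 := by
    intro z hz hz' a i
    rw [Res_congr (v1 z hz hz') (q1 z hz)]
    have := (Res_slice (c := c) (ν := ν) (u := fun a t => curl (A a t)) (q := p) cs
      (fun a => (hp a).mono hsub) hz' z.2 a i 0).1 (by rw [add_zero]; exact h.pde a z.1 hz' z.2 i)
    exact this
  -- the force
  obtain ⟨δ, hδ0, hδ1, hδ2⟩ : ∃ δ : ℝ, 0 < δ ∧ δ < κ * (r / 8) ^ 2 ∧ δ < 1 := by
    have hm : 0 < min (κ * (r / 8) ^ 2) 1 := lt_min (by positivity) (by norm_num)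
    exact ⟨min (κ * (r / 8) ^ 2) 1 / 2, half_pos hm,
      (half_lt_self hm).trans_le (min_le_left _ _), (half_lt_self hm).trans_le (min_le_right _ _)⟩
  set f0 : K → Fin 3 → ℝ × V → ℝ := fun a i z => ps hr τ δ z * Res c ν v q a i z with hf0
  have out : ∀ y : V, y ∉ Metric.closedBall (0 : V) r → r < ‖y‖ := by
    intro y hy
    rw [mem_closedBall_zero_iff, not_le] at hy
    exact hy
  refine ⟨v, q, f0, ⟨fun a i => (vs a i).mono hsub, fun a => (qs a).mono hsub, fun a i =>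
    contDiff_ps_mul hr hτ hκ hδ1 hδ0 (contDiffOn_Res hOm vs qs a i),
    fun a i z hz => (v0 z (Or.inr (out _ hz)) a i).eq_of_nhds,
    fun a z hz => (q0 z (Or.inr (out _ hz)) a).eq_of_nhds,
    fun a i z hz => ?_, fun a z hz => ?_, fun a i z hz => ?_⟩,
    fun a i z hz => ⟨(v0 z (Or.inl hz) a i).eq_of_nhds, (q0 z (Or.inl hz) a).eq_of_nhds⟩,
    fun a i z hz => ?_, fun a i z h1 h2 h3 => (v1 z ⟨h1, h3⟩ h2 a i).eq_of_nhds⟩
  · show ps hr τ δ z * Res c ν v q a i z = 0
    rw [r0 z (Or.inr (out _ hz)), mul_zero]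
  · exact div_Curl hOm (fun i => (ze_smooth hr τ).contDiffOn.mul (hAc a i)) (hsub ⟨hz, mem_univ _⟩)
  · show Res c ν v q a i z = ps hr τ δ z * Res c ν v q a i z
    by_cases h : z.1 ≤ 1 - 3 / 4 * τ ∨ r / 4 ≤ ‖z.2‖
    · rw [ps_one hr hτ hδ0 hz.le h, one_mul]
    · push Not at h
      rw [r1 z ⟨by linarith, by linarith⟩ hz, mul_zero]
  · show ps hr τ δ z * Res c ν v q a i z = 0
    rcases hz with hz | hz
    · rw [r0 z (Or.inl hz), mul_zero]
    · rw [ps_zero hr hτ hδ0, zero_mul]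
      rintro ⟨h1, -⟩
      linarith

/-- The cut-off function in time for the initial values. -/
noncomputable def th (T t : ℝ) : ℝ :=
  Real.smoothTransition (2 - 4 * t / T) * Real.smoothTransition (t + 1)

theorem th_smooth (T : ℝ) : ContDiff ℝ ∞ (th T) := by
  unfold th
  refine ContDiff.mul ?_ ?_
  · exact Real.smoothTransition.contDiff.comp
      (contDiff_const.sub ((contDiff_const.mul contDiff_id).div_const T))
  · exact Real.smoothTransition.contDiff.comp (contDiff_id.add contDiff_const)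

theorem th_zero (T : ℝ) : th T 0 = 1 := by
  unfold th
  rw [Real.smoothTransition.one_of_one_le (by norm_num),
    Real.smoothTransition.one_of_one_le (by norm_num), one_mul]

theorem th_late {T : ℝ} (hT : 0 < T) {t : ℝ} (ht : T / 2 ≤ t) : th T t = 0 := by
  unfold th
  have : 2 ≤ 4 * t / T := by
    rw [le_div_iff₀ hT]
    linarith
  rw [Real.smoothTransition.zero_of_nonpos (by linarith), zero_mul]

theorem th_early {T t : ℝ} (ht : t ≤ -1) : th T t = 0 := by
  unfold th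
  rw [Real.smoothTransition.zero_of_nonpos (x := t + 1) (by linarith), mul_zero]

/-- The solution with the initial values `U₀`, which becomes singular at the time `T`. -/
theorem exists_ex {K : Type} [Fintype K] {c : K → K → K → ℝ} {ν κ : ℝ} (hκ : 0 < κ)
    {A : K → ℝ → V → V} {p : K → ℝ → V → ℝ} (h : Core c ν κ A p) {r T : ℝ} (hr : 0 < r)
    (hT : 0 < T) {U : K → Fin 3 → V → ℝ} (hU : ∀ a i, ContDiff ℝ ∞ (U a i))
    (hd : ∀ a y, ∑ i, pd i (U a i) y = 0) {S : Set V} (hS : IsClosed S)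
    (hUS : ∀ a i y, y ∉ S → U a i y = 0) :
    ∃ v q f, Ex c ν T (Metric.closedBall 0 r ∪ S) v q f ∧ (∀ a i y, v a i (0, y) = U a i y) ∧
      (∀ a i z, (z.1 < -1 ∨ T + 1 < z.1) → f a i z = 0) ∧
      ((∀ a i y, U a i y = 0) → ∀ a i z, z.1 < 3 / 4 * T → f a i z = 0) ∧
      ∀ a i z, 7 / 8 * T < z.1 → z.1 < T → ‖z.2‖ < r / 2 →
        v a i z = curl (A a (z.1 - T + 1)) z.2 i := by
  obtain ⟨v, q, f, E, hv0, hf0, hcore⟩ := exists_ex1 hκ h (r := r) (τ := T / 8) hr (by positivity)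
  set w : ℝ × V := (1 - T, 0) with hw
  have w1 : ∀ z : ℝ × V, (z + w).1 = z.1 + (1 - T) := fun z => rfl
  have w2 : ∀ z : ℝ × V, (z + w).2 = z.2 := fun z => by simp [hw]
  set Uz : K → Fin 3 → ℝ × V → ℝ := fun a i z => th T z.1 * U a i z.2 with hUz
  have Us : ∀ a i, ContDiff ℝ ∞ (Uz a i) := fun a i =>
    ((th_smooth T).comp contDiff_fst).mul ((hU a i).comp contDiff_snd)
  set v' : K → Fin 3 → ℝ × V → ℝ := fun a i z => v a i (z + w) + Uz a i z with hv'
  set q' : K → ℝ × V → ℝ := fun a z => q a (z + w) with hq'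
  set f' : K → Fin 3 → ℝ × V → ℝ := fun a i z => f a i (z + w)
    + Res c ν Uz (fun _ _ => 0) a i z with hf'
  have hmap : MapsTo (fun z : ℝ × V => z + w) (Iio T ×ˢ univ) (Iio 1 ×ˢ univ) := by
    intro z hz
    refine ⟨?_, mem_univ _⟩
    have h1 : z.1 < T := hz.1
    show (z + w).1 < 1
    rw [w1]
    linarith
  have hshift : ContDiff ℝ ∞ (fun z : ℝ × V => z + w) := contDiff_id.add contDiff_const
  -- late times: the initial values do not matter
  have late : ∀ z : ℝ × V, T / 2 < z.1 → ∀ a i, Uz a i =ᶠ[𝓝 z] fun _ => 0 := by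
    intro z hz a i
    have : {y : ℝ × V | T / 2 < y.1} ∈ 𝓝 z :=
      (isOpen_lt continuous_const continuous_fst).mem_nhds hz
    filter_upwards [this] with y hy
    show th T y.1 * U a i y.2 = 0
    rw [th_late hT (le_of_lt hy), zero_mul]
  have outU : ∀ z : ℝ × V, z.2 ∉ S → ∀ a i, Uz a i =ᶠ[𝓝 z] fun _ => 0 := by
    intro z hz a i
    have : {y : ℝ × V | y.2 ∈ Sᶜ} ∈ 𝓝 z :=
      (hS.isOpen_compl.preimage continuous_snd).mem_nhds hz
    filter_upwards [this] with y hy
    show th T y.1 * U a i y.2 = 0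
    rw [hUS a i _ hy, mul_zero]
  have earlyU : ∀ z : ℝ × V, z.1 < -1 → ∀ a i, Uz a i =ᶠ[𝓝 z] fun _ => 0 := by
    intro z hz a i
    have : {y : ℝ × V | y.1 < -1} ∈ 𝓝 z :=
      (isOpen_lt continuous_fst continuous_const).mem_nhds hz
    filter_upwards [this] with y hy
    show th T y.1 * U a i y.2 = 0
    rw [th_early (le_of_lt hy), zero_mul]
  -- early times: the self-similar part vanishes
  have early : ∀ z : ℝ × V, z.1 < 3 / 4 * T → (∀ a i, v' a i =ᶠ[𝓝 z] Uz a i) ∧
      ∀ a, q' a =ᶠ[𝓝 z] fun _ => 0 := by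
    intro z hz
    have : {y : ℝ × V | y.1 < 3 / 4 * T} ∈ 𝓝 z :=
      (isOpen_lt continuous_fst continuous_const).mem_nhds hz
    constructor
    · intro a i
      filter_upwards [this] with y hy
      have hy' : y.1 < 3 / 4 * T := hy
      show v a i (y + w) + Uz a i y = Uz a i y
      rw [(hv0 a i (y + w) (by rw [w1]; linarith)).1, zero_add]
    · intro a
      filter_upwards [this] with y hy
      have hy' : y.1 < 3 / 4 * T := hy
      exact (hv0 a 0 (y + w) (by rw [w1]; linarith)).2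
  have resU0 : ∀ z : ℝ × V, (∀ a i, Uz a i =ᶠ[𝓝 z] fun _ => 0) → ∀ a i,
      Res c ν Uz (fun _ _ => 0) a i z = 0 := by
    intro z hz a i
    rw [Res_congr hz (fun a => EventuallyEq.rfl), Res_zero]
  refine ⟨v', q', f', ⟨fun a i => ?_, fun a => ?_, fun a i => ?_, fun a i z hz => ?_,
    fun a z hz => ?_, fun a i z hz => ?_, fun a z hz => ?_, fun a i z hz => ?_⟩,
    fun a i y => ?_, fun a i z hz => ?_, fun hU0 a i z hz => ?_, fun a i z h1 h2 h3 => ?_⟩
  · exact ((E.sv a i).comp hshift.contDiffOn hmap).add (Us a i).contDiffOn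
  · exact (E.sq a).comp hshift.contDiffOn hmap
  · refine ((E.sf a i).comp hshift).add ?_
    rw [← contDiffOn_univ]
    exact contDiffOn_Res isOpen_univ (fun a i => (Us a i).contDiffOn)
      (fun _ => contDiffOn_const) a i
  · rw [mem_union, not_or] at hz
    show v a i (z + w) + Uz a i z = 0
    rw [E.v0 a i (z + w) (by rw [w2]; exact hz.1), (outU z hz.2 a i).eq_of_nhds, add_zero]
  · rw [mem_union, not_or] at hz
    exact E.q0 a (z + w) (by rw [w2]; exact hz.1)
  · rw [mem_union, not_or] at hz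
    show f a i (z + w) + Res c ν Uz (fun _ _ => 0) a i z = 0
    rw [E.f0 a i (z + w) (by rw [w2]; exact hz.1), resU0 z (outU z hz.2), add_zero]
  · have hdU : ∑ i, PD i (Uz a i) z = 0 := by
      have e : ∀ i, PD i (Uz a i) z = th T z.1 * pd i (U a i) z.2 := by
        intro i
        have h1 : PD i (Uz a i) (z.1, z.2) = pd i (fun y => Uz a i (z.1, y)) z.2 :=
          (pd_slice' ((Us a i).differentiable (by simp) _) i).symm
        rw [show z = (z.1, z.2) from rfl, h1]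
        show fderiv ℝ (fun y => th T z.1 * U a i y) z.2 _ = _
        rw [fderiv_const_mul ((hU a i).differentiable (by simp) _)]
        rfl
      simp only [e]
      rw [← Finset.mul_sum, hd, mul_zero]
    have e : ∀ i, PD i (v' a i) z = PD i (v a i) (z + w) + PD i (Uz a i) z := by
      intro i
      have hzw : (z + w).1 < 1 := by rw [w1]; linarith
      have d1 : DifferentiableAt ℝ (fun z => v a i (z + w)) z := by
        have h1 : DifferentiableAt ℝ (v a i) (z + w) :=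
          diffAt (isOpen_Iio.prod isOpen_univ) (E.sv a i) ⟨hzw, mem_univ _⟩
        exact h1.comp z (differentiableAt_id.add_const w)
      have d2 : DifferentiableAt ℝ (Uz a i) z := (Us a i).differentiable (by simp) _
      have h3 : PD i (fun z => v a i (z + w)) z = PD i (v a i) (z + w) := by
        rw [PD_shift]
      rw [← h3]
      unfold PD
      rw [show v' a i = fun z => v a i (z + w) + Uz a i z from rfl, fderiv_fun_add d1 d2]
      rfl
    simp only [e]
    rw [Finset.sum_add_distrib, hdU, add_zero]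
    exact E.dv a (z + w) (by rw [w1]; linarith)
  · show Res c ν v' q' a i z = f a i (z + w) + Res c ν Uz (fun _ _ => 0) a i z
    by_cases hz2 : z.1 < 3 / 4 * T
    · have e1 := early z hz2
      rw [Res_congr e1.1 e1.2, hf0 a i (z + w) (Or.inl (by rw [w1]; linarith)), zero_add]
    · rw [not_lt] at hz2
      have h1 : T / 2 < z.1 := by linarith
      have e1 : ∀ a i, v' a i =ᶠ[𝓝 z] fun z => v a i (z + w) := by
        intro a i
        filter_upwards [late z h1 a i] with y hy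
        show v a i (y + w) + Uz a i y = v a i (y + w)
        rw [hy, add_zero]
      rw [Res_congr e1 (fun a => EventuallyEq.rfl), resU0 z (late z h1), add_zero]
      have e2 := Res_shift (c := c) (ν := ν) v q w z a i
      rw [show Res c ν (fun a i z => v a i (z + w)) q' a i z
        = Res c ν (fun a i z => v a i (z + w)) (fun a z => q a (z + w)) a i z from rfl, e2]
      exact E.eq a i (z + w) (by rw [w1]; linarith)
  · show v a i ((0, y) + w) + th T 0 * U a i y = U a i y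
    rw [th_zero, one_mul, (hv0 a i ((0, y) + w) (by rw [w1]; linarith)).1, zero_add]
  · show f a i (z + w) + Res c ν Uz (fun _ _ => 0) a i z = 0
    rcases hz with hz | hz
    · rw [hf0 a i (z + w) (Or.inl (by rw [w1]; linarith)), resU0 z (earlyU z hz), add_zero]
    · rw [hf0 a i (z + w) (Or.inr (by rw [w1]; linarith)), resU0 z (late z (by linarith)),
        add_zero]
  · show f a i (z + w) + Res c ν Uz (fun _ _ => 0) a i z = 0
    have e1 : ∀ a i, Uz a i =ᶠ[𝓝 z] fun _ => 0 := by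
      intro a i
      refine Eventually.of_forall fun y => ?_
      show th T y.1 * U a i y.2 = 0
      rw [hU0, mul_zero]
    rw [hf0 a i (z + w) (Or.inl (by rw [w1]; linarith)), resU0 z e1, add_zero]
  · show v a i (z + w) + Uz a i z = _
    rw [(late z (by linarith) a i).eq_of_nhds, add_zero,
      hcore a i (z + w) (by rw [w1]; linarith) (by rw [w1]; linarith) (by rw [w2]; exact h3),
      w1, w2, show z.1 + (1 - T) = z.1 - T + 1 by ring]

end Pool.Agent.N327.MD
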