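import Pool.Agent.N327.MD.Exi
import Pool.Agent.H772R2.NSR.Conc

/-!
Initial values, and the statement for general systems.
-/

set_option autoImplicit false
set_option linter.unusedSectionVars false
set_option linter.unusedVariables false

open MeasureTheory Set Filter Topology
open scoped InnerProductSpace ENNReal ContDiff NNReal

namespace Pool.Agent.N327.MD

open H772R2.NS
open H772R2.NSR (Frame exists_pair exists_frame)
open H772R2.NSG (mem_cont ii_of_int)
open Pool.Agent.Y303.LV (Adm cl clj cl_coe cl_sub clj_coe norm_cl_sq sq_integrable)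
open Pool.Agent.N983.NC (PD PT Res Sym diffAt contDiffOn_PD contDiffOn_PT Core curl decay
  curl_contDiffOn slice_contDiff)
open Pool.Agent.N327.LE (mv)
open H459R3.NS (pd)

/-- the point with the coordinates `y` relative to `b` -/
noncomputable def ex (b : E3) (y : Fin 3 → ℝ) : E3 := WithLp.toLp 2 y + b

theorem sh_ex (b : E3) (y : Fin 3 → ℝ) : sh b (ex b y) = y := by
  funext i
  show (WithLp.toLp 2 y + b : E3) i - b i = y i
  simp

theorem ex_sh (b x : E3) : ex b (sh b x) = x := by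
  ext i
  show (WithLp.toLp 2 (sh b x) + b : E3) i = x i
  simp [sh]

theorem ex_hasFDerivAt (b : E3) (y : Fin 3 → ℝ) : HasFDerivAt (ex b)
    ((EuclideanSpace.equiv (Fin 3) ℝ).symm : (Fin 3 → ℝ) →L[ℝ] E3) y := by
  have h : HasFDerivAt (fun y => ((EuclideanSpace.equiv (Fin 3) ℝ).symm : (Fin 3 → ℝ) →L[ℝ] E3) y
      + b) ((EuclideanSpace.equiv (Fin 3) ℝ).symm : (Fin 3 → ℝ) →L[ℝ] E3) y :=
    ((EuclideanSpace.equiv (Fin 3) ℝ).symm : (Fin 3 → ℝ) →L[ℝ] E3).hasFDerivAt.add_const b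
  exact h

theorem ex_contDiff (b : E3) : ContDiff ℝ ∞ (ex b) := by
  have h : ContDiff ℝ ∞ (fun y => ((EuclideanSpace.equiv (Fin 3) ℝ).symm :
      (Fin 3 → ℝ) →L[ℝ] E3) y + b) :=
    ((EuclideanSpace.equiv (Fin 3) ℝ).symm : (Fin 3 → ℝ) →L[ℝ] E3).contDiff.add contDiff_const
  exact h

theorem pd_ex {φ : E3 → E3} (hφ : ContDiff ℝ ∞ φ) (b : E3) (y : Fin 3 → ℝ) (i j : Fin 3) :
    pd j (fun y => φ (ex b y) i) y = jac φ (ex b y) (i, j) := by
  have h1 : HasFDerivAt (fun x => φ x i) (fderiv ℝ (fun x => φ x i) (ex b y)) (ex b y) :=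
    ((contDiff_coord hφ i).differentiable (by simp) _).hasFDerivAt
  have h2 := h1.comp y (ex_hasFDerivAt b y)
  have h3 : fderiv ℝ (fun y => φ (ex b y) i) y = (fderiv ℝ (fun x => φ x i) (ex b y)).comp
      ((EuclideanSpace.equiv (Fin 3) ℝ).symm : (Fin 3 → ℝ) →L[ℝ] E3) := h2.fderiv
  unfold pd
  rw [h3, jac_apply, ← fderiv_coord hφ]
  rfl

/-- The general statement. -/
theorem core_blow {K : Type} [Fintype K] {c : K → K → K → ℝ} (hc : Sym c) {ν κ : ℝ} (hν : 0 < ν)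
    (hκ : 0 < κ) {A : K → ℝ → (Fin 3 → ℝ) → Fin 3 → ℝ} {p : K → ℝ → (Fin 3 → ℝ) → ℝ}
    (h : Core c ν κ A p)
    (hsA : ∀ a, ∀ t < 1, ∀ x, curl (A a t) x
      = (Real.sqrt (1 - t))⁻¹ • curl (A a 0) ((Real.sqrt (1 - t))⁻¹ • x))
    {Ω : Set E3} (hΩ : IsOpen Ω) (hb : Bornology.IsBounded Ω) (hne : Ω.Nonempty) {T : ℝ}
    (hT : 0 < T) {w : K → E3 → E3} (hw : ∀ a, IsTest Ω (w a)) :
    ∃ f : K → ℝ → E3 → E3, (∀ a, ContDiff ℝ ∞ fun z : ℝ × E3 => f a z.1 z.2) ∧
      (∀ a, HasCompactSupport fun z : ℝ × E3 => f a z.1 z.2) ∧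
      (∀ a, tsupport (fun z : ℝ × E3 => f a z.1 z.2) ⊆ univ ×ˢ Ω) ∧
      ((∀ a, w a = 0) → ∀ a t, t < 3 / 4 * T → f a t = 0) ∧
      ∀ U0 : K → L2V Ω, (∀ a, U0 a =ᵐ[volume.restrict Ω] w a) →
      (∃ (u u' : K → ℝ → L2V Ω) (z z' : K → ℝ → L2M Ω), ∀ T1, 0 < T1 → T1 < T →
        (∀ a, ContinuousOn (u a) (Icc 0 T1)) ∧ (∀ a, ContinuousOn (u' a) (Icc 0 T1)) ∧
        (∀ a, ContinuousOn (z a) (Icc 0 T1)) ∧ (∀ a, ContinuousOn (z' a) (Icc 0 T1)) ∧
        (∀ a, ∀ t ∈ Icc 0 T1, (u a t, z a t) ∈ graphW Ω) ∧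
        (∀ a, ∀ t ∈ Icc 0 T1, (u' a t, z' a t) ∈ graphW Ω) ∧
        (∀ a, ∀ t ∈ Icc 0 T1, u a t = U0 a + ∫ s in (0 : ℝ)..t, u' a s) ∧
        ∀ a, ∀ φ : E3 → E3, IsTest Ω φ → ∀ θ : ℝ → ℝ, ContDiff ℝ ∞ θ → HasCompactSupport θ →
          tsupport θ ⊆ Ioo 0 T1 →
          ∫ t in Ioo 0 T1, (-(deriv θ t) * (∫ x in Ω, ⟪u a t x, φ x⟫_ℝ)
            + θ t * ((∑ d, ∑ e, c a d e * ∫ x in Ω, ⟪mv (z e t x) (u d t x), φ x⟫_ℝ)
              + ν * (∫ x in Ω, ⟪z a t x, jac φ x⟫_ℝ) - ∫ x in Ω, ⟪f a t x, φ x⟫_ℝ)) = 0) ∧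
      (∀ (u g : K → ℝ → L2V Ω) (z : K → ℝ → L2M Ω),
        (∀ a, MemLp (g a) (4 / 3) (volume.restrict (Ioc 0 T))) →
        (∀ a, ∀ᵐ t ∂(volume.restrict (Ioc 0 T)), u a t = U0 a + ∫ s in (0 : ℝ)..t, g a s) →
        (∀ a, ∀ᵐ t ∂(volume.restrict (Ioc 0 T)), (u a t, z a t) ∈ graphW Ω) →
        (∀ a, MemLp (z a) 2 (volume.restrict (Ioc 0 T))) →
        (∀ a, ∀ φ : E3 → E3, IsTest Ω φ → ∀ θ : ℝ → ℝ, ContDiff ℝ ∞ θ → HasCompactSupport θ →
          tsupport θ ⊆ Ioo 0 T →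
          ∫ t in Ioo 0 T, (-(deriv θ t) * (∫ x in Ω, ⟪u a t x, φ x⟫_ℝ)
            + θ t * ((∑ d, ∑ e, c a d e * ∫ x in Ω, ⟪mv (z e t x) (u d t x), φ x⟫_ℝ)
              + ν * (∫ x in Ω, ⟪z a t x, jac φ x⟫_ℝ) - ∫ x in Ω, ⟪f a t x, φ x⟫_ℝ)) = 0) →
        False) := by
  obtain ⟨C, Fr⟩ := exists_frame hΩ hb
  obtain ⟨b, hbΩ⟩ := hne
  obtain ⟨ρ, hρ, hB⟩ := Metric.isOpen_iff.1 hΩ b hbΩ
  obtain ⟨M, hM⟩ := hb.subset_closedBall b
  set r : ℝ := ρ / 4 with hr
  have hr0 : 0 < r := by positivity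
  -- the data
  set U : K → Fin 3 → (Fin 3 → ℝ) → ℝ := fun a i y => w a (ex b y) i with hU
  have Us : ∀ a i, ContDiff ℝ ∞ (U a i) := fun a i =>
    (contDiff_coord (hw a).smooth i).comp (ex_contDiff b)
  have Ud : ∀ a y, ∑ i, pd i (U a i) y = 0 := by
    intro a y
    rw [Finset.sum_congr rfl fun i _ => pd_ex (hw a).smooth b y i i]
    exact (hw a).divfree _
  set S0 : Set (Fin 3 → ℝ) := {y | ex b y ∈ ⋃ a, tsupport (w a)} with hS0
  have S0c : IsClosed S0 :=
    (isClosed_iUnion_of_finite fun a => isClosed_tsupport (w a)).preimage (ex_contDiff b).continuous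
  have S0off : ∀ a i y, y ∉ S0 → U a i y = 0 := by
    intro a i y hy
    have h1 : ex b y ∉ tsupport (w a) := fun h1 => hy (mem_iUnion.2 ⟨a, h1⟩)
    show w a (ex b y) i = 0
    rw [image_eq_zero_of_notMem_tsupport h1]
    rfl
  obtain ⟨v, q, f, E, hv0, hf1, hf2, hcore⟩ := exists_ex hκ h hr0 hT Us Ud S0c S0off
  set S : Set (Fin 3 → ℝ) := Metric.closedBall 0 r ∪ S0 with hS
  have G : Geo Ω b (max r M) S := by
    refine ⟨lt_max_of_lt_left hr0, ?_, Metric.isClosed_closedBall.union S0c, ?_,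
      hΩ.measurableSet⟩
    · rintro y (hy | hy)
      · rw [mem_closedBall_zero_iff] at hy
        exact hy.trans (le_max_left _ _)
      · obtain ⟨a, ha⟩ := mem_iUnion.1 (show ex b y ∈ ⋃ a, tsupport (w a) from hy)
        have h1 := hM ((hw a).supp ha)
        rw [Metric.mem_closedBall, dist_eq_norm] at h1
        have h2 := sh_norm_le b (ex b y)
        rw [sh_ex] at h2
        exact (h2.trans h1).trans (le_max_right _ _)
    · rintro x (hx | hx)
      · rw [mem_closedBall_zero_iff] at hx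
        refine hB ?_
        rw [Metric.mem_ball, dist_eq_norm]
        have h1 := norm_sub_le_sh b x
        have h2 : ‖sh b x‖ ^ 2 ≤ r ^ 2 := pow_le_pow_left₀ (norm_nonneg _) hx 2
        have h3 : ‖x - b‖ ^ 2 < ρ ^ 2 := by rw [hr] at h2; nlinarith [sq_pos_of_pos hρ]
        exact (pow_lt_pow_iff_left₀ (norm_nonneg _) hρ.le (by norm_num)).1 h3
      · obtain ⟨a, ha⟩ := mem_iUnion.1 (show ex b (sh b x) ∈ ⋃ a, tsupport (w a) from hx)
        rw [ex_sh] at ha
        exact (hw a).supp ha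
  have hfc : ∀ a t, Continuous fun x => Vf b (f a) t x := fun a t =>
    slice_cont (T := t + 1) (fun i => (E.sf a i).contDiffOn) (by linarith)
  have hfcl : ∀ a t, (cl Ω (Vf b (f a) t) : E3 → E3) =ᵐ[volume.restrict Ω] Vf b (f a) t :=
    fun a t => cl_coe (Vf_adm G (hfc a t) fun i y hy => E.f0 a i (t, y) hy) G.pos3
  have hfi : ∀ a t (φ : E3 → E3), ∫ x in Ω, ⟪Vf b (f a) t x, φ x⟫_ℝ
      = ∫ x in Ω, ⟪cl Ω (Vf b (f a) t) x, φ x⟫_ℝ := by
    intro a t φ
    refine integral_congr_ae ?_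
    filter_upwards [hfcl a t] with x hx
    rw [hx]
  have hsuppf : ∀ a (z : ℝ × E3), Vf b (f a) z.1 z.2 ≠ 0 →
      z.1 ∈ Icc (-1) (T + 1) ∧ sh b z.2 ∈ S := by
    intro a z hz
    by_contra hcon
    rw [not_and_or] at hcon
    refine hz ?_
    ext i
    rw [Vf_apply]
    rcases hcon with hcon | hcon
    · rw [mem_Icc, not_and_or, not_le, not_le] at hcon
      exact hf1 a i (z.1, sh b z.2) hcon
    · exact E.f0 a i (z.1, sh b z.2) hcon
  refine ⟨fun a t x => Vf b (f a) t x, fun a => ?_, fun a => ?_, fun a => ?_, ?_, ?_⟩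
  · refine toLp_contDiff (contDiff_pi.2 fun i => ?_)
    exact (E.sf a i).comp (contDiff_fst.prodMk ((sh_contDiff b).comp contDiff_snd))
  · refine HasCompactSupport.of_support_subset_isCompact
      ((isCompact_Icc (a := (-1 : ℝ)) (b := T + 1)).prod
        (isCompact_closedBall b (2 * max r M))) ?_
    intro z hz
    have h1 := hsuppf a z hz
    exact ⟨h1.1, G.near h1.2⟩
  · refine (closure_minimal (t := {z : ℝ × E3 | sh b z.2 ∈ S}) (fun z hz => (hsuppf a z hz).2)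
      (G.closed.preimage ((sh_contDiff b).continuous.comp continuous_snd))).trans ?_
    intro z hz
    exact ⟨mem_univ _, G.sub _ hz⟩
  · intro hw0 a t ht
    funext x
    ext i
    show Vf b (f a) t x i = 0
    rw [Vf_apply]
    refine hf2 (fun a i y => ?_) a i (t, sh b x) ht
    show w a (ex b y) i = 0
    rw [hw0 a]
    rfl
  intro U0 hU0
  have init : ∀ a, cl Ω (Vf b (v a) 0) = U0 a := by
    intro a
    have e : Vf b (v a) 0 = w a := by
      funext x
      ext i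
      rw [Vf_apply, hv0 a i (sh b x)]
      show w a (ex b (sh b x)) i = w a x i
      rw [ex_sh]
    apply Lp.ext
    filter_upwards [cl_coe (Ω := Ω) (E.adm G hT a) G.pos3, hU0 a] with x a1 a2
    rw [a1, a2, e]
  constructor
  · refine ⟨fun a t => cl Ω (Vf b (v a) t), fun a t => cl Ω (Vf b (fun i => PT (v a i)) t),
      fun a t => clj Ω (Vf b (v a) t), fun a t => clj Ω (Vf b (fun i => PT (v a i)) t),
      fun T1 hT1 hT1' => ⟨fun a => cl_contOn G (E.sv a) (E.off a) hT1',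
        fun a => cl_contOn G (fun i => Sm.PT (E.sv a i)) (PT_zero_off G.closed (E.off a)) hT1',
        fun a => clj_contOn G (E.sv a) (E.off a) (E.dv a) hT1',
        fun a => clj_contOn G (fun i => Sm.PT (E.sv a i)) (PT_zero_off G.closed (E.off a))
          (PT_div (E.sv a) (E.dv a)) hT1',
        fun a t ht => E.mem G (ht.2.trans_lt hT1') a,
        fun a t ht => E.mem1 G (ht.2.trans_lt hT1') a, fun a t ht => ?_, ?_⟩⟩
    · have := cl_prim G (E.sv a) (E.off a) hT1' t ht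
      rw [init a] at this
      exact this
    · intro a φ hφ θ h1 h2 h3
      have := E.dist Fr hc G hT1 hT1' a hφ h1 h3
      simp only [hfi]
      exact this
  · intro u g z hg hu hm hz hw
    have hfin : IsFiniteMeasure (volume.restrict (Ioc (0 : ℝ) T) : Measure ℝ) := by
      rw [isFiniteMeasure_restrict]; simp
    have h43 : (1 : ℝ≥0∞) ≤ 4 / 3 := by
      rw [ENNReal.le_div_iff_mul_le (by simp) (by simp)]
      norm_num
    have ig : ∀ a, Integrable (g a) (volume.restrict (Ioc 0 T)) := fun a => (hg a).integrable h43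
    set V : K → ℝ → L2V Ω := fun a t => U0 a + ∫ s in (0 : ℝ)..t, g a s with hV
    have hu' : ∀ᵐ t ∂(volume.restrict (Ioc 0 T)), ∀ a, u a t = V a t := by
      rw [ae_all_iff]
      exact hu
    have hm' : ∀ᵐ t ∂(volume.restrict (Ioc 0 T)), ∀ a, (V a t, z a t) ∈ graphW Ω := by
      have : ∀ᵐ t ∂(volume.restrict (Ioc 0 T)), ∀ a, (u a t, z a t) ∈ graphW Ω := by
        rw [ae_all_iff]
        exact hm
      filter_upwards [this, hu'] with t h1 h2 a
      rw [← h2 a]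
      exact h1 a
    have fi : ∀ a, Integrable (fun t => cl Ω (Vf b (f a) t)) (volume.restrict (Ioc 0 T)) := by
      intro a
      have h1 : ContinuousOn (fun t => cl Ω (Vf b (f a) t)) (Icc 0 T) :=
        cl_contOn (T := T + 1) G (fun i => (E.sf a i).contDiffOn)
          (fun i s _ y hy => E.f0 a i (s, y) hy) (by linarith)
      exact (mem_cont (p := 1) h1).integrable le_rfl
    have eV : Eqn c ν T V g (fun a t => cl Ω (Vf b (f a) t)) z := by
      refine weak_eqn Fr G.meas hc hT ig (fun a t _ => rfl) hm' hz fi ?_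
      intro a φ hφ θ h1 h2 h3
      refine Eq.trans ?_ (hw a φ hφ θ h1 h2 h3)
      refine integral_congr_ae ?_
      have hu'' : ∀ᵐ t ∂(volume.restrict (Ioo 0 T)), ∀ a, u a t = V a t := by
        rw [restr_eq]
        exact hu'
      filter_upwards [hu''] with t ht
      simp only [ht, hfi]
    have huniq : ∀ a t, 0 ≤ t → t < T → V a t = cl Ω (Vf b (v a) t) := by
      intro a t ht0 htT
      have hsub : (volume.restrict (Ioc 0 t) : Measure ℝ) ≤ volume.restrict (Ioc 0 T) :=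
        Measure.restrict_mono (Ioc_subset_Ioc_right htT.le) le_rfl
      refine E.unique Fr hc hν.le G htT (g := g) (z := z) (fun a => (ig a).mono_measure hsub)
        (fun a s _ => by rw [init a]) (ae_mono hsub hm') (ae_mono hsub eV) a t ⟨ht0, le_rfl⟩
    obtain ⟨a, t0, ht0, x0, -, i0, hi0⟩ := h.blow 0
    have hWne : curl (A a 0) ≠ 0 := by
      intro h0
      have e := hsA a t0 ht0.2 x0
      rw [h0] at e
      simp [e] at hi0
    obtain ⟨y0, hy0⟩ := Function.ne_iff.1 hWne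
    have hcurl := curl_contDiffOn (h.smooth_A a)
    have hWc : Continuous (curl (A a 0)) :=
      (slice_contDiff hκ (F := fun t => curl (A a t)) hcurl one_pos).continuous
    obtain ⟨CW, hCW⟩ := decay hκ (F := fun t => curl (A a t)) hcurl.continuousOn (hsA a)
    have hCWb : ∀ y, ‖curl (A a 0) y‖ ≤ |CW| := by
      intro y
      refine (hCW y).trans ?_
      refine (div_le_div_of_nonneg_right (le_abs_self CW) (by positivity)).trans ?_
      exact div_le_self (abs_nonneg _) (by linarith [norm_nonneg y])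
    refine contra G hr0 hT (fun y hy => Or.inl (mem_closedBall_zero_iff.2 hy)) (E.sv a) (E.off a)
      hWc hCWb hy0 (fun t h1 h2 y hy i => ?_) (hg a) (fun s t hs hst ht => ?_)
    · rw [hcore a i (t, y) h1 h2 hy]
      show curl (A a (t - T + 1)) y i = _
      rw [hsA a (t - T + 1) (by linarith) y, show 1 - (t - T + 1) = T - t by ring]
      rfl
    · rw [← huniq a t (hs.trans hst) ht, ← huniq a s hs (hst.trans_lt ht)]
      show U0 a + (∫ s in (0 : ℝ)..t, g a s) - (U0 a + ∫ x in (0 : ℝ)..s, g a x)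
        = ∫ x in s..t, g a x
      have s1 := intervalIntegral.integral_add_adjacent_intervals
        (ii_of_int (ig a) le_rfl hs (hst.trans ht.le)) (ii_of_int (ig a) hs hst ht.le)
      rw [← s1]
      abel

end Pool.Agent.N327.MD
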