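import Pool.Agent.N327.MD.Fin
import Pool.Agent.N983.NC.Ens2
import Pool.Agent.N983.NC.Moment

/-!
Ensembles: values in a space of random variables, and the weak form of the equations.
-/

set_option autoImplicit false
set_option linter.unusedSectionVars false

open MeasureTheory Set Filter Topology
open scoped InnerProductSpace ENNReal ContDiff NNReal

namespace Pool.Agent.N327.MD

open H772R2.NS
open Pool.Agent.N983.NC (repro repro_W mem_W sum_mem_W orth_W linind)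
open Pool.Agent.N327.LE (mv)

/-- The values of `g`, as a random element of `E`, are in `W ⊗ E`. -/
def InW {n : ℕ} (W : Submodule ℝ (Fin n → ℝ)) {E : Type} [AddCommGroup E] [Module ℝ E]
    (g : Fin n → E) : Prop :=
  ∀ l : Fin n → ℝ, (∀ h ∈ W, ∑ k, l k * h k = 0) → ∑ k, l k • g k = 0

section alg

variable {K : Type} [Fintype K] [DecidableEq K] {n : ℕ} {m : Fin n → ℝ} {φ : K → Fin n → ℝ}
  {E : Type} [AddCommGroup E] [Module ℝ E]

/-- the coefficients of a random element -/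
def cf (m : Fin n → ℝ) (φ : K → Fin n → ℝ) (g : Fin n → E) (a : K) : E :=
  ∑ l, (m l * φ a l) • g l

theorem InW.rep (hort : ∀ a b, ∑ k, m k * (φ a k * φ b k) = if a = b then 1 else 0)
    {g : Fin n → E} (hg : InW (Submodule.span ℝ (Set.range φ)) g) (k : Fin n) :
    g k = ∑ a, φ a k • cf m φ g a := by
  have h := hg (fun j => (if j = k then 1 else 0) - ∑ a, φ a k * (m j * φ a j)) (fun h hh => by
    have e := repro_W hort hh k
    simp only [sub_mul, Finset.sum_sub_distrib, ite_mul, one_mul, zero_mul, Finset.sum_ite_eq',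
      Finset.mem_univ, if_true]
    rw [sub_eq_zero]
    conv_lhs => rw [e]
    simp only [Finset.mul_sum, Finset.sum_mul]
    rw [Finset.sum_comm]
    refine Finset.sum_congr rfl fun j _ => Finset.sum_congr rfl fun a _ => ?_
    ring)
  simp only [sub_smul, Finset.sum_sub_distrib, ite_smul, one_smul, zero_smul, Finset.sum_ite_eq',
    Finset.mem_univ, if_true] at h
  rw [sub_eq_zero] at h
  rw [h]
  simp only [cf, Finset.smul_sum, Finset.sum_smul]
  rw [Finset.sum_comm]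
  refine Finset.sum_congr rfl fun a _ => Finset.sum_congr rfl fun j _ => ?_
  rw [smul_smul]

theorem InW_sum (v : K → E) : InW (Submodule.span ℝ (Set.range φ)) (fun k => ∑ a, φ a k • v a) := by
  intro l hl
  simp only [Finset.smul_sum, smul_smul]
  rw [Finset.sum_comm]
  refine Finset.sum_eq_zero fun a _ => ?_
  rw [← Finset.sum_smul, hl (φ a) (Submodule.subset_span ⟨a, rfl⟩), zero_smul]

end alg

section lin

variable {Ω : Set E3}

/-- the weak form of the Navier-Stokes equations -/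
noncomputable def nsI (ν : ℝ) (u : L2V Ω) (z : L2M Ω) (f : E3 → E3) (ψ : E3 → E3) (p q : ℝ) : ℝ :=
  -q * (∫ x in Ω, ⟪u x, ψ x⟫_ℝ)
    + p * ((∫ x in Ω, ⟪mv (z x) (u x), ψ x⟫_ℝ) + ν * (∫ x in Ω, ⟪z x, jac ψ x⟫_ℝ)
      - ∫ x in Ω, ⟪f x, ψ x⟫_ℝ)

theorem exists_lin1 {ψ : E3 → E3} (hψ : IsTest Ω ψ) :
    ∃ L : L2V Ω →L[ℝ] ℝ, ∀ u, L u = ∫ x in Ω, ⟪u x, ψ x⟫_ℝ := by
  refine ⟨(innerSL ℝ ((hψ.memLp 2).restrict Ω).toLp), fun u => ?_⟩
  rw [innerSL_apply_apply, real_inner_comm, L2.inner_def]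
  refine integral_congr_ae ?_
  filter_upwards [((hψ.memLp 2).restrict Ω).coeFn_toLp] with x hx
  rw [hx]

theorem exists_lin2 {ψ : E3 → E3} (hψ : IsTest Ω ψ) :
    ∃ L : L2M Ω →L[ℝ] ℝ, ∀ z, L z = ∫ x in Ω, ⟪z x, jac ψ x⟫_ℝ := by
  refine ⟨(innerSL ℝ ((hψ.jac_memLp 2).restrict Ω).toLp), fun u => ?_⟩
  rw [innerSL_apply_apply, real_inner_comm, L2.inner_def]
  refine integral_congr_ae ?_
  filter_upwards [((hψ.jac_memLp 2).restrict Ω).coeFn_toLp] with x hx
  rw [hx]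

theorem mv_norm (A : M3) (a : E3) : ‖mv A a‖ ≤ ‖A‖ * ‖a‖ := by
  have h : ‖mv A a‖ ^ 2 ≤ (‖A‖ * ‖a‖) ^ 2 := by
    rw [norm_sq_E3, mul_pow, norm_sq_M3, norm_sq_E3, Finset.sum_mul]
    refine Finset.sum_le_sum (fun i _ => ?_)
    show (∑ j, A (i, j) * a j) ^ 2 ≤ (∑ j, A (i, j) ^ 2) * ∑ j, a j ^ 2
    exact Finset.sum_mul_sq_le_sq_mul_sq _ _ _
  exact (pow_le_pow_iff_left₀ (norm_nonneg _) (by positivity) (by norm_num)).mp h

theorem exists_bil {ψ : E3 → E3} (hψ : IsTest Ω ψ) :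
    ∃ L : L2M Ω →L[ℝ] L2V Ω →L[ℝ] ℝ, ∀ z u, L z u = ∫ x in Ω, ⟪mv (z x) (u x), ψ x⟫_ℝ := by
  obtain ⟨B, hB⟩ := hψ.compact.exists_bound_of_continuous hψ.smooth.continuous
  have hB0 : 0 ≤ B := (norm_nonneg _).trans (hB 0)
  have hmvm : ∀ (z : L2M Ω) (v : L2V Ω), AEStronglyMeasurable (fun x => mv (z x) (v x))
      (volume.restrict Ω) := by
    intro z v
    unfold mv
    have c1 : Continuous (fun y : M3 × E3 => (WithLp.toLp 2 fun i => ∑ j, y.1 (i, j) * y.2 j : E3)) := by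
      refine (PiLp.continuous_toLp 2 _).comp (continuous_pi fun i => ?_)
      fun_prop
    exact c1.comp_aestronglyMeasurable ((Lp.aestronglyMeasurable z).prodMk
      (Lp.aestronglyMeasurable v))
  have hnn : ∀ (z : L2M Ω) (v : L2V Ω), Integrable (fun x => ‖z x‖ * ‖v x‖) (volume.restrict Ω) :=
    fun z v => (Lp.memLp z).norm.integrable_mul (Lp.memLp v).norm
  have hpt : ∀ (z : L2M Ω) (v : L2V Ω) (x : E3), ‖⟪mv (z x) (v x), ψ x⟫_ℝ‖ ≤ ‖z x‖ * ‖v x‖ * B := by
    intro z v x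
    refine (norm_inner_le_norm _ _).trans ?_
    have b1 := mv_norm (z x) (v x)
    have b2 := hB x
    gcongr
  have hint : ∀ (z : L2M Ω) (v : L2V Ω), Integrable (fun x => ⟪mv (z x) (v x), ψ x⟫_ℝ)
      (volume.restrict Ω) := fun z v =>
    ((hnn z v).mul_const B).mono' ((hmvm z v).inner hψ.smooth.continuous.aestronglyMeasurable)
      (Eventually.of_forall (hpt z v))
  refine ⟨LinearMap.mkContinuous₂ (LinearMap.mk₂ ℝ
    (fun (z : L2M Ω) (u : L2V Ω) => ∫ x in Ω, ⟪mv (z x) (u x), ψ x⟫_ℝ) ?_ ?_ ?_ ?_) B ?_,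
    fun z u => rfl⟩
  · intro z z' u
    rw [← integral_add (hint _ _) (hint _ _)]
    refine integral_congr_ae ?_
    filter_upwards [Lp.coeFn_add z z'] with x a1
    rw [a1, Pi.add_apply, inner_E3, inner_E3, inner_E3]
    simp only [Fin.sum_univ_three, mv, PiLp.add_apply]
    ring
  · intro r z u
    rw [smul_eq_mul, ← integral_const_mul]
    refine integral_congr_ae ?_
    filter_upwards [Lp.coeFn_smul r z] with x a1
    rw [a1, Pi.smul_apply, inner_E3, inner_E3]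
    simp only [Fin.sum_univ_three, mv, PiLp.smul_apply, smul_eq_mul]
    ring
  · intro z u u'
    rw [← integral_add (hint _ _) (hint _ _)]
    refine integral_congr_ae ?_
    filter_upwards [Lp.coeFn_add u u'] with x a1
    rw [a1, Pi.add_apply, inner_E3, inner_E3, inner_E3]
    simp only [Fin.sum_univ_three, mv, PiLp.add_apply]
    ring
  · intro r z u
    rw [smul_eq_mul, ← integral_const_mul]
    refine integral_congr_ae ?_
    filter_upwards [Lp.coeFn_smul r u] with x a1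
    rw [a1, Pi.smul_apply, inner_E3, inner_E3]
    simp only [Fin.sum_univ_three, mv, PiLp.smul_apply, smul_eq_mul]
    ring
  · intro z u
    show ‖∫ x in Ω, ⟪mv (z x) (u x), ψ x⟫_ℝ‖ ≤ B * ‖z‖ * ‖u‖
    have h1 : ‖∫ x in Ω, ⟪mv (z x) (u x), ψ x⟫_ℝ‖ ≤ ∫ x in Ω, ‖z x‖ * ‖u x‖ * B :=
      norm_integral_le_of_norm_le ((hnn z u).mul_const B) (Eventually.of_forall (hpt z u))
    rw [integral_mul_const] at h1
    -- the inequality of Cauchy and Schwarz
    have nz : ‖(Lp.memLp z).norm.toLp‖ = ‖z‖ := by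
      rw [Lp.norm_toLp, Lp.norm_def, eLpNorm_norm]
    have nu : ‖(Lp.memLp u).norm.toLp‖ = ‖u‖ := by
      rw [Lp.norm_toLp, Lp.norm_def, eLpNorm_norm]
    have h2 : ∫ x in Ω, ‖z x‖ * ‖u x‖ = ⟪(Lp.memLp u).norm.toLp, (Lp.memLp z).norm.toLp⟫_ℝ := by
      rw [L2.inner_def]
      refine integral_congr_ae ?_
      filter_upwards [(Lp.memLp u).norm.coeFn_toLp, (Lp.memLp z).norm.coeFn_toLp] with x a b
      rw [a, b]
      simp
    have h3 : ∫ x in Ω, ‖z x‖ * ‖u x‖ ≤ ‖u‖ * ‖z‖ := by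
      rw [h2, ← nz, ← nu]
      exact real_inner_le_norm _ _
    calc _ ≤ _ := h1
      _ ≤ (‖u‖ * ‖z‖) * B := by gcongr
      _ = _ := by ring

end lin

section conv

variable {Ω : Set E3} {K : Type} [Fintype K] [DecidableEq K] {n : ℕ} {m : Fin n → ℝ}
  {φ : K → Fin n → ℝ} {c : K → K → K → ℝ}

theorem nsI_proj (hort : ∀ a b, ∑ k, m k * (φ a k * φ b k) = if a = b then 1 else 0)
    (hc : ∀ a b d, ∑ k, m k * (φ a k * φ b k * φ d k) = c a b d) {ψ : E3 → E3}
    (hψ : IsTest Ω ψ) {U : Fin n → L2V Ω} {Z : Fin n → L2M Ω} {F : Fin n → E3 → E3}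
    {V : K → L2V Ω} {Y : K → L2M Ω} {G : K → E3 → E3} (hU : ∀ k, U k = ∑ a, φ a k • V a)
    (hZ : ∀ k, Z k = ∑ a, φ a k • Y a) (hF : ∀ k, F k = fun x => ∑ a, φ a k • G a x)
    (hG : ∀ a, Continuous (G a)) (ν p q : ℝ) (e : K) :
    ∑ k, m k * φ e k * nsI ν (U k) (Z k) (F k) ψ p q
      = -q * (∫ x in Ω, ⟪V e x, ψ x⟫_ℝ)
        + p * ((∑ b, ∑ d, c e b d * ∫ x in Ω, ⟪mv (Y d x) (V b x), ψ x⟫_ℝ)
          + ν * (∫ x in Ω, ⟪Y e x, jac ψ x⟫_ℝ) - ∫ x in Ω, ⟪G e x, ψ x⟫_ℝ) := by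
  obtain ⟨L1, h1⟩ := exists_lin1 hψ
  obtain ⟨L2, h2⟩ := exists_lin2 hψ
  obtain ⟨B, h3⟩ := exists_bil hψ
  have hGi : ∀ a, Integrable (fun x => ⟪G a x, ψ x⟫_ℝ) (volume.restrict Ω) := fun a =>
    (((hG a).inner hψ.smooth.continuous).integrable_of_hasCompactSupport
      (hψ.compact.mono fun x hx => by
        simp only [Function.mem_support] at hx ⊢
        intro h
        apply hx
        rw [h, inner_zero_right])).restrict
  have e1 : ∀ k, ∫ x in Ω, ⟪U k x, ψ x⟫_ℝ = ∑ a, φ a k * L1 (V a) := by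
    intro k
    rw [← h1, hU, map_sum]
    exact Finset.sum_congr rfl fun a _ => by rw [map_smul, smul_eq_mul]
  have e2 : ∀ k, ∫ x in Ω, ⟪Z k x, jac ψ x⟫_ℝ = ∑ a, φ a k * L2 (Y a) := by
    intro k
    rw [← h2, hZ, map_sum]
    exact Finset.sum_congr rfl fun a _ => by rw [map_smul, smul_eq_mul]
  have e3 : ∀ k, ∫ x in Ω, ⟪F k x, ψ x⟫_ℝ = ∑ a, φ a k * ∫ x in Ω, ⟪G a x, ψ x⟫_ℝ := by
    intro k
    rw [hF]
    simp only [sum_inner, real_inner_smul_left]
    rw [integral_finsetSum _ fun a _ => (hGi a).const_mul _]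
    exact Finset.sum_congr rfl fun a _ => by rw [integral_const_mul]
  have e4 : ∀ k, ∫ x in Ω, ⟪mv (Z k x) (U k x), ψ x⟫_ℝ
      = ∑ b, ∑ d, (φ b k * φ d k) * B (Y d) (V b) := by
    intro k
    rw [← h3, hZ, hU, map_sum]
    simp only [map_smul, map_sum, _root_.sum_apply, _root_.smul_apply,
      smul_eq_mul, Finset.mul_sum]
    refine Finset.sum_congr rfl fun b _ => Finset.sum_congr rfl fun d _ => ?_
    ring
  simp only [nsI, e1, e2, e3, e4]
  simp only [← h1, ← h2, ← h3]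
  have r1 := repro hort (fun a => L1 (V a)) e
  have r2 := repro hort (fun a => L2 (Y a)) e
  have r3 := repro hort (fun a => ∫ x in Ω, ⟪G a x, ψ x⟫_ℝ) e
  have r4 : ∑ k, m k * φ e k * (∑ b, ∑ d, (φ b k * φ d k) * B (Y d) (V b))
      = ∑ b, ∑ d, c e b d * B (Y d) (V b) := by
    simp only [Finset.mul_sum]
    rw [Finset.sum_comm]
    refine Finset.sum_congr rfl fun b _ => ?_
    rw [Finset.sum_comm]
    refine Finset.sum_congr rfl fun d _ => ?_
    rw [← hc, Finset.sum_mul]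
    exact Finset.sum_congr rfl fun k _ => by ring
  rw [← r1, ← r2, ← r3, ← r4]
  simp only [mul_add, mul_sub, Finset.sum_add_distrib, Finset.sum_sub_distrib]
  have s1 : ∑ k, m k * φ e k * (-q * ∑ a, φ a k * L1 (V a))
      = -q * ∑ k, m k * φ e k * ∑ a, φ a k * L1 (V a) := by
    rw [Finset.mul_sum]
    exact Finset.sum_congr rfl fun k _ => by ring
  have s2 : ∑ k, m k * φ e k * (p * (∑ b, ∑ d, (φ b k * φ d k) * B (Y d) (V b)))
      = p * ∑ k, m k * φ e k * (∑ b, ∑ d, (φ b k * φ d k) * B (Y d) (V b)) := by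
    rw [Finset.mul_sum]
    exact Finset.sum_congr rfl fun k _ => by ring
  have s3 : ∑ k, m k * φ e k * (p * (ν * ∑ a, φ a k * L2 (Y a)))
      = p * (ν * ∑ k, m k * φ e k * ∑ a, φ a k * L2 (Y a)) := by
    rw [Finset.mul_sum, Finset.mul_sum]
    exact Finset.sum_congr rfl fun k _ => by ring
  have s4 : ∑ k, m k * φ e k * (p * (∑ a, φ a k * ∫ x in Ω, ⟪G a x, ψ x⟫_ℝ))
      = p * ∑ k, m k * φ e k * ∑ a, φ a k * ∫ x in Ω, ⟪G a x, ψ x⟫_ℝ := by
    rw [Finset.mul_sum]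
    exact Finset.sum_congr rfl fun k _ => by ring
  rw [s1, s2, s3, s4]

/-- the weak form of the component system is continuous in time -/
theorem sys_cont {ψ : E3 → E3} (hψ : IsTest Ω ψ) {T1 : ℝ} {V : K → ℝ → L2V Ω}
    {Y : K → ℝ → L2M Ω} {G : K → ℝ → E3 → E3} (hV : ∀ a, ContinuousOn (V a) (Icc 0 T1))
    (hY : ∀ a, ContinuousOn (Y a) (Icc 0 T1)) (hG : ∀ a, Continuous fun z : ℝ × E3 => G a z.1 z.2)
    (hGc : ∀ a, HasCompactSupport fun z : ℝ × E3 => G a z.1 z.2) (ν : ℝ) {p q : ℝ → ℝ}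
    (hp : Continuous p) (hq : Continuous q) (e : K) :
    ContinuousOn (fun t => -(q t) * (∫ x in Ω, ⟪V e t x, ψ x⟫_ℝ)
        + p t * ((∑ b, ∑ d, c e b d * ∫ x in Ω, ⟪mv (Y d t x) (V b t x), ψ x⟫_ℝ)
          + ν * (∫ x in Ω, ⟪Y e t x, jac ψ x⟫_ℝ) - ∫ x in Ω, ⟪G e t x, ψ x⟫_ℝ)) (Icc 0 T1) := by
  obtain ⟨L1, h1⟩ := exists_lin1 hψ
  obtain ⟨L2, h2⟩ := exists_lin2 hψ
  obtain ⟨B, h3⟩ := exists_bil hψ
  simp only [← h1, ← h2, ← h3]
  have g1 : Continuous fun t => ∫ x in Ω, ⟪G e t x, ψ x⟫_ℝ := by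
    obtain ⟨M, hM⟩ := (hGc e).exists_bound_of_continuous (hG e)
    refine continuous_of_dominated (bound := fun x => M * ‖ψ x‖) ?_ ?_ ?_ ?_
    · intro t
      exact (((hG e).comp (by fun_prop : Continuous fun x : E3 => ((t, x) : ℝ × E3))).inner
        hψ.smooth.continuous).aestronglyMeasurable
    · intro t
      refine Eventually.of_forall fun x => (norm_inner_le_norm _ _).trans ?_
      exact mul_le_mul_of_nonneg_right (hM (t, x)) (norm_nonneg _)
    · exact ((hψ.smooth.continuous.norm.integrable_of_hasCompactSupport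
        hψ.compact.norm).const_mul M).restrict
    · refine Eventually.of_forall fun x => ?_
      exact ((hG e).comp (by fun_prop : Continuous fun t : ℝ => ((t, x) : ℝ × E3))).inner
        continuous_const
  refine (hq.continuousOn.neg.mul (L1.continuous.comp_continuousOn (hV e))).add
    (hp.continuousOn.mul (((continuousOn_finsetSum _ fun b _ => continuousOn_finsetSum _ fun d _ =>
      continuousOn_const.mul ((B.continuous.comp_continuousOn (hY d)).clm_apply (hV b))).add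
      (continuousOn_const.mul (L2.continuous.comp_continuousOn (hY e)))).sub g1.continuousOn))

end conv

end Pool.Agent.N327.MD
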