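import Pool.Agent.N327.MD.Ens1

/-!
The statement for the ensemble.
-/

set_option autoImplicit false
set_option linter.unusedSectionVars false

open MeasureTheory Set Filter Topology
open scoped InnerProductSpace ENNReal ContDiff NNReal

namespace Pool.Agent.N327.MD

open H772R2.NS
open Pool.Agent.N983.NC (repro repro_W mem_W sum_mem_W orth_W linind)
open Pool.Agent.N327.LE (mv)

theorem InW.grad {n : ℕ} {W : Submodule ℝ (Fin n → ℝ)} {Ω : Set E3} (hΩ : IsOpen Ω)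
    {u : Fin n → L2V Ω} {z : Fin n → L2M Ω} (hu : InW W u) (hg : ∀ k, (u k, z k) ∈ graphW Ω) :
    InW W z := by
  intro l hl
  refine graphW_uniq hΩ _ ?_
  rw [← hu l hl]
  have h := (graphW Ω).sum_mem (t := Finset.univ) (f := fun k => l k • (u k, z k))
    fun k _ => (graphW Ω).smul_mem (l k) (hg k)
  have e : ∑ k, l k • (u k, z k) = (∑ k, l k • u k, ∑ k, l k • z k) := by
    refine Prod.ext ?_ ?_
    · simp [Prod.fst_sum]
    · simp [Prod.snd_sum]
  rwa [e] at h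

section sums

variable {Ω : Set E3} {ι : Type} [Fintype ι]

theorem isTest_sum (r : ι → ℝ) {w : ι → E3 → E3} (hw : ∀ i, IsTest Ω (w i)) :
    IsTest Ω fun x => ∑ i, r i • w i x := by
  classical
  have h : ∀ s : Finset ι, IsTest Ω (∑ i ∈ s, r i • w i) := by
    intro s
    induction s using Finset.induction_on with
    | empty => simpa using IsTest.zero
    | insert i s hi ih =>
      rw [Finset.sum_insert hi]
      exact ((hw i).smul (r i)).add ih
  have e : (fun x => ∑ i, r i • w i x) = ∑ i, r i • w i := by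
    funext x
    simp [Finset.sum_apply]
  rw [e]
  exact h _

theorem class_sum {E : Type} [NormedAddCommGroup E] [NormedSpace ℝ E] (r : ι → ℝ)
    {U : ι → Lp E 2 ((volume : Measure E3).restrict Ω)} {w : ι → E3 → E}
    (hU : ∀ i, U i =ᵐ[volume.restrict Ω] w i) :
    (∑ i, r i • U i : Lp E 2 ((volume : Measure E3).restrict Ω))
      =ᵐ[volume.restrict Ω] fun x => ∑ i, r i • w i x := by
  classical
  have h : ∀ s : Finset ι, (∑ i ∈ s, r i • U i : Lp E 2 ((volume : Measure E3).restrict Ω))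
      =ᵐ[volume.restrict Ω] fun x => ∑ i ∈ s, r i • w i x := by
    intro s
    induction s using Finset.induction_on with
    | empty =>
      simp only [Finset.sum_empty]
      exact Lp.coeFn_zero _ _ _
    | insert i s hi ih =>
      rw [Finset.sum_insert hi]
      filter_upwards [Lp.coeFn_add (r i • U i) (∑ i ∈ s, r i • U i), Lp.coeFn_smul (r i) (U i),
        hU i, ih] with x a1 a2 a3 a4
      rw [a1, Pi.add_apply, a2, Pi.smul_apply, a3, a4, Finset.sum_insert hi]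
  exact h _

theorem graph_sum (r : ι → ℝ) {u : ι → L2V Ω} {z : ι → L2M Ω}
    (hg : ∀ i, (u i, z i) ∈ graphW Ω) : (∑ i, r i • u i, ∑ i, r i • z i) ∈ graphW Ω := by
  have h := (graphW Ω).sum_mem (t := Finset.univ) (f := fun k => r k • (u k, z k))
    fun k _ => (graphW Ω).smul_mem (r k) (hg k)
  have e : ∑ k, r k • (u k, z k) = (∑ k, r k • u k, ∑ k, r k • z k) := by
    refine Prod.ext ?_ ?_
    · simp [Prod.fst_sum]
    · simp [Prod.snd_sum]
  rwa [e] at h

end sums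

section conv2

variable {Ω : Set E3} {n : ℕ} {m : Fin n → ℝ} {φ : Fin 33 → Fin n → ℝ}
  {c : Fin 33 → Fin 33 → Fin 33 → ℝ}

theorem cf_expand (hort : ∀ a b, ∑ k, m k * (φ a k * φ b k) = if a = b then 1 else 0)
    {E : Type} [AddCommGroup E] [Module ℝ E] (v : Fin 33 → E) (a : Fin 33) :
    cf m φ (fun k => ∑ b, φ b k • v b) a = v a := by
  unfold cf
  simp only [Finset.smul_sum, smul_smul]
  rw [Finset.sum_comm]
  have : ∀ b, ∑ k, (m k * φ a k * φ b k) • v b = (if a = b then (1 : ℝ) else 0) • v b := by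
    intro b
    rw [← Finset.sum_smul, ← hort a b]
    congr 1
    exact Finset.sum_congr rfl fun k _ => by ring
  simp_rw [this]
  simp

/-- the nonexistence part -/
theorem ens_no {Ω : Set E3} (hΩ : IsOpen Ω) {ν T : ℝ}
    (hort : ∀ a b, ∑ k, m k * (φ a k * φ b k) = if a = b then 1 else 0)
    (hc : ∀ a b d, ∑ k, m k * (φ a k * φ b k * φ d k) = c a b d)
    {f : Fin 33 → ℝ → E3 → E3} (hfc : ∀ a t, Continuous (f a t)) {F : Fin n → ℝ → E3 → E3}
    (hF : ∀ k t, F k t = fun x => ∑ a, φ a k • f a t x) {U0 : Fin n → L2V Ω}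
    (K2 : ∀ (u g : Fin 33 → ℝ → L2V Ω) (z : Fin 33 → ℝ → L2M Ω),
        (∀ a, MemLp (g a) (4 / 3) (volume.restrict (Ioc 0 T))) →
        (∀ a, ∀ᵐ t ∂(volume.restrict (Ioc 0 T)), u a t = cf m φ U0 a
          + ∫ s in (0 : ℝ)..t, g a s) →
        (∀ a, ∀ᵐ t ∂(volume.restrict (Ioc 0 T)), (u a t, z a t) ∈ graphW Ω) →
        (∀ a, MemLp (z a) 2 (volume.restrict (Ioc 0 T))) →
        (∀ a, ∀ φ : E3 → E3, IsTest Ω φ → ∀ θ : ℝ → ℝ, ContDiff ℝ ∞ θ → HasCompactSupport θ →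
          tsupport θ ⊆ Ioo 0 T →
          ∫ t in Ioo 0 T, (-(deriv θ t) * (∫ x in Ω, ⟪u a t x, φ x⟫_ℝ)
            + θ t * ((∑ d, ∑ e, c a d e * ∫ x in Ω, ⟪mv (z e t x) (u d t x), φ x⟫_ℝ)
              + ν * (∫ x in Ω, ⟪z a t x, jac φ x⟫_ℝ) - ∫ x in Ω, ⟪f a t x, φ x⟫_ℝ)) = 0) →
        False)
    {u g : Fin n → ℝ → L2V Ω} {z : Fin n → ℝ → L2M Ω}
    (hg : ∀ k, MemLp (g k) (4 / 3) (volume.restrict (Ioc 0 T)))
    (hpu : ∀ k, ∀ᵐ t ∂(volume.restrict (Ioc 0 T)), u k t = U0 k + ∫ s in (0 : ℝ)..t, g k s)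
    (hmu : ∀ k, ∀ᵐ t ∂(volume.restrict (Ioc 0 T)), (u k t, z k t) ∈ graphW Ω)
    (hz : ∀ k, MemLp (z k) 2 (volume.restrict (Ioc 0 T)))
    (huW : ∀ᵐ t ∂(volume.restrict (Ioc 0 T)),
      InW (Submodule.span ℝ (Set.range φ)) fun k => u k t)
    (he : ∀ h ∈ Submodule.span ℝ (Set.range φ), ∀ ψ : E3 → E3, IsTest Ω ψ → ∀ θ : ℝ → ℝ,
      ContDiff ℝ ∞ θ → HasCompactSupport θ → tsupport θ ⊆ Ioo 0 T →
      ∫ t in Ioo 0 T, ∑ k, m k * h k
        * nsI ν (u k t) (z k t) (F k t) ψ (θ t) (deriv θ t) = 0) : False := by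
  refine K2 (fun a t => cf m φ (fun k => u k t) a) (fun a t => cf m φ (fun k => g k t) a)
    (fun a t => cf m φ (fun k => z k t) a) ?_ ?_ ?_ ?_ ?_
  · intro a
    refine memLp_finsetSum _ fun k _ => ?_
    exact (hg k).const_smul (m k * φ a k)
  · intro a
    have hgi : ∀ k, Integrable (g k) (volume.restrict (Ioc 0 T)) := fun k => by
      have : IsFiniteMeasure ((volume : Measure ℝ).restrict (Ioc 0 T)) := by
        rw [isFiniteMeasure_restrict]; simp
      exact (hg k).integrable (by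
        rw [ENNReal.le_div_iff_mul_le (by simp) (by simp)]
        norm_num)
    filter_upwards [ae_all_iff.2 hpu, ae_restrict_mem measurableSet_Ioc] with t ht htm
    have hint : ∀ k, IntervalIntegrable (g k) volume 0 t := fun k => by
      rw [intervalIntegrable_iff_integrableOn_Ioc_of_le htm.1.le]
      exact IntegrableOn.mono_set (hgi k) (Ioc_subset_Ioc_right htm.2)
    have e1 : ∫ s in (0 : ℝ)..t, cf m φ (fun k => g k s) a
        = ∑ k, (m k * φ a k) • ∫ s in (0 : ℝ)..t, g k s := by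
      unfold cf
      rw [intervalIntegral.integral_finsetSum (f := fun k s => (m k * φ a k) • g k s)
        fun k _ => (hint k).smul (m k * φ a k)]
      exact Finset.sum_congr rfl fun k _ => intervalIntegral.integral_smul _ _
    rw [e1]
    unfold cf
    rw [← Finset.sum_add_distrib]
    refine Finset.sum_congr rfl fun k _ => ?_
    rw [← smul_add, ← ht k]
  · intro a
    filter_upwards [ae_all_iff.2 hmu] with t ht
    exact graph_sum (fun k => m k * φ a k) ht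
  · intro a
    refine memLp_finsetSum _ fun k _ => ?_
    exact (hz k).const_smul (m k * φ a k)
  · intro e ψ hψ θ h1 h2 h3
    refine Eq.trans ?_ (he (φ e) (Submodule.subset_span ⟨e, rfl⟩) ψ hψ θ h1 h2 h3)
    rw [restr_eq]
    refine integral_congr_ae ?_
    filter_upwards [huW, ae_all_iff.2 hmu] with t ht1 ht2
    have ht3 : InW (Submodule.span ℝ (Set.range φ)) fun k => z k t := ht1.grad hΩ ht2
    exact (nsI_proj (φ := φ) (c := c) hort hc hψ (U := fun k => u k t) (Z := fun k => z k t)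
      (F := fun k => F k t) (V := cf m φ fun k => u k t)
      (Y := cf m φ fun k => z k t) (G := fun a x => f a t x)
      (fun k => ht1.rep hort k) (fun k => ht3.rep hort k) (fun k => hF k t)
      (fun a => hfc a t) ν (θ t) (deriv θ t) e).symm

/-- the equations of the solution -/
theorem ens_eq {Ω : Set E3} {ν T1 : ℝ}
    (hort : ∀ a b, ∑ k, m k * (φ a k * φ b k) = if a = b then 1 else 0)
    (hc : ∀ a b d, ∑ k, m k * (φ a k * φ b k * φ d k) = c a b d)
    {f : Fin 33 → ℝ → E3 → E3} (f1 : ∀ a, Continuous fun z : ℝ × E3 => f a z.1 z.2)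
    (f2 : ∀ a, HasCompactSupport fun z : ℝ × E3 => f a z.1 z.2) {F : Fin n → ℝ → E3 → E3}
    (hF : ∀ k t, F k t = fun x => ∑ a, φ a k • f a t x)
    {u : Fin 33 → ℝ → L2V Ω} {z : Fin 33 → ℝ → L2M Ω}
    (cu : ∀ a, ContinuousOn (u a) (Icc 0 T1)) (cz : ∀ a, ContinuousOn (z a) (Icc 0 T1))
    (he : ∀ a, ∀ φ : E3 → E3, IsTest Ω φ → ∀ θ : ℝ → ℝ, ContDiff ℝ ∞ θ → HasCompactSupport θ →
          tsupport θ ⊆ Ioo 0 T1 →
          ∫ t in Ioo 0 T1, (-(deriv θ t) * (∫ x in Ω, ⟪u a t x, φ x⟫_ℝ)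
            + θ t * ((∑ d, ∑ e, c a d e * ∫ x in Ω, ⟪mv (z e t x) (u d t x), φ x⟫_ℝ)
              + ν * (∫ x in Ω, ⟪z a t x, jac φ x⟫_ℝ) - ∫ x in Ω, ⟪f a t x, φ x⟫_ℝ)) = 0)
    {h : Fin n → ℝ} (hh : h ∈ Submodule.span ℝ (Set.range φ)) {ψ : E3 → E3} (hψ : IsTest Ω ψ)
    {θ : ℝ → ℝ} (h1 : ContDiff ℝ ∞ θ) (h2 : HasCompactSupport θ) (h3 : tsupport θ ⊆ Ioo 0 T1) :
    ∫ t in Ioo 0 T1, ∑ k, m k * h k
      * nsI ν (∑ a, φ a k • u a t) (∑ a, φ a k • z a t) (F k t) ψ (θ t) (deriv θ t) = 0 := by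
  obtain ⟨η, hη⟩ := mem_W hh
  have hfc : ∀ a t, Continuous (f a t) := fun a t =>
    (f1 a).comp (by fun_prop : Continuous fun x : E3 => ((t, x) : ℝ × E3))
  have e1 : ∀ t, ∑ k, m k * h k * nsI ν (∑ a, φ a k • u a t) (∑ a, φ a k • z a t)
      (F k t) ψ (θ t) (deriv θ t)
      = ∑ e, η e * (-(deriv θ t) * (∫ x in Ω, ⟪u e t x, ψ x⟫_ℝ)
        + θ t * ((∑ b, ∑ d, c e b d * ∫ x in Ω, ⟪mv (z d t x) (u b t x), ψ x⟫_ℝ)
          + ν * (∫ x in Ω, ⟪z e t x, jac ψ x⟫_ℝ) - ∫ x in Ω, ⟪f e t x, ψ x⟫_ℝ)) := by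
    intro t
    have e2 : ∀ e, ∑ k, m k * φ e k * nsI ν (∑ a, φ a k • u a t) (∑ a, φ a k • z a t)
        (F k t) ψ (θ t) (deriv θ t) = _ := fun e =>
      nsI_proj (φ := φ) (c := c) hort hc hψ (U := fun k => ∑ a, φ a k • u a t)
        (Z := fun k => ∑ a, φ a k • z a t) (F := fun k => F k t)
        (fun k => rfl) (fun k => rfl) (fun k => hF k t)
        (fun a => hfc a t) ν (θ t) (deriv θ t) e
    simp_rw [← e2]
    simp_rw [hη, Finset.mul_sum, Finset.sum_mul]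
    rw [Finset.sum_comm]
    refine Finset.sum_congr rfl fun e _ => Finset.sum_congr rfl fun k _ => ?_
    ring
  simp_rw [e1]
  rw [integral_finsetSum]
  · refine Finset.sum_eq_zero fun e _ => ?_
    rw [integral_const_mul, he e ψ hψ θ h1 h2 h3, mul_zero]
  · intro e _
    refine Integrable.const_mul ?_ _
    exact ((sys_cont hψ cu cz f1 f2 ν h1.continuous
      (h1.continuous_deriv (by norm_cast)) e).integrableOn_Icc).mono_set Ioo_subset_Icc_self

theorem ens_conv {Ω : Set E3} (hΩ : IsOpen Ω) {ν T : ℝ}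
    (hort : ∀ a b, ∑ k, m k * (φ a k * φ b k) = if a = b then 1 else 0)
    (hc : ∀ a b d, ∑ k, m k * (φ a k * φ b k * φ d k) = c a b d)
    (H : ∀ w : Fin 33 → E3 → E3, (∀ a, IsTest Ω (w a)) →
      ∃ f : Fin 33 → ℝ → E3 → E3, (∀ a, ContDiff ℝ ∞ fun z : ℝ × E3 => f a z.1 z.2) ∧
      (∀ a, HasCompactSupport fun z : ℝ × E3 => f a z.1 z.2) ∧
      (∀ a, tsupport (fun z : ℝ × E3 => f a z.1 z.2) ⊆ univ ×ˢ Ω) ∧
      ((∀ a, w a = 0) → ∀ a t, t < 3 / 4 * T → f a t = 0) ∧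
      ∀ U0 : Fin 33 → L2V Ω, (∀ a, U0 a =ᵐ[volume.restrict Ω] w a) →
      (∃ (u u' : Fin 33 → ℝ → L2V Ω) (z z' : Fin 33 → ℝ → L2M Ω), ∀ T1, 0 < T1 → T1 < T →
        (∀ a, ContinuousOn (u a) (Icc 0 T1)) ∧ (∀ a, ContinuousOn (u' a) (Icc 0 T1)) ∧
        (∀ a, ContinuousOn (z a) (Icc 0 T1)) ∧ (∀ a, ContinuousOn (z' a) (Icc 0 T1)) ∧
        (∀ a, ∀ t ∈ Icc 0 T1, (u a t, z a t) ∈ graphW Ω) ∧
        (∀ a, ∀ t ∈ Icc 0 T1, (u' a t, z' a t) ∈ graphW Ω) ∧
        (∀ a, ∀ t ∈ Icc 0 T1, u a t = U0 a + ∫ s in (0 : ℝ)..t, u' a s) ∧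
        ∀ a, ∀ φ : E3 → E3, IsTest Ω φ → ∀ θ : ℝ → ℝ, ContDiff ℝ ∞ θ → HasCompactSupport θ →
          tsupport θ ⊆ Ioo 0 T1 →
          ∫ t in Ioo 0 T1, (-(deriv θ t) * (∫ x in Ω, ⟪u a t x, φ x⟫_ℝ)
            + θ t * ((∑ d, ∑ e, c a d e * ∫ x in Ω, ⟪mv (z e t x) (u d t x), φ x⟫_ℝ)
              + ν * (∫ x in Ω, ⟪z a t x, jac φ x⟫_ℝ) - ∫ x in Ω, ⟪f a t x, φ x⟫_ℝ)) = 0) ∧
      (∀ (u g : Fin 33 → ℝ → L2V Ω) (z : Fin 33 → ℝ → L2M Ω),
        (∀ a, MemLp (g a) (4 / 3) (volume.restrict (Ioc 0 T))) →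
        (∀ a, ∀ᵐ t ∂(volume.restrict (Ioc 0 T)), u a t = U0 a + ∫ s in (0 : ℝ)..t, g a s) →
        (∀ a, ∀ᵐ t ∂(volume.restrict (Ioc 0 T)), (u a t, z a t) ∈ graphW Ω) →
        (∀ a, MemLp (z a) 2 (volume.restrict (Ioc 0 T))) →
        (∀ a, ∀ φ : E3 → E3, IsTest Ω φ → ∀ θ : ℝ → ℝ, ContDiff ℝ ∞ θ → HasCompactSupport θ →
          tsupport θ ⊆ Ioo 0 T →
          ∫ t in Ioo 0 T, (-(deriv θ t) * (∫ x in Ω, ⟪u a t x, φ x⟫_ℝ)
            + θ t * ((∑ d, ∑ e, c a d e * ∫ x in Ω, ⟪mv (z e t x) (u d t x), φ x⟫_ℝ)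
              + ν * (∫ x in Ω, ⟪z a t x, jac φ x⟫_ℝ) - ∫ x in Ω, ⟪f a t x, φ x⟫_ℝ)) = 0) →
        False))
    (w : Fin n → E3 → E3) (hw : ∀ k, IsTest Ω (w k))
    (hwW : ∀ x, InW (Submodule.span ℝ (Set.range φ)) fun k => w k x) :
    ∃ f : Fin n → ℝ → E3 → E3, (∀ k, ContDiff ℝ ∞ fun z : ℝ × E3 => f k z.1 z.2) ∧
      (∀ k, HasCompactSupport fun z : ℝ × E3 => f k z.1 z.2) ∧
      (∀ k, tsupport (fun z : ℝ × E3 => f k z.1 z.2) ⊆ univ ×ˢ Ω) ∧
      (∀ t x, InW (Submodule.span ℝ (Set.range φ)) fun k => f k t x) ∧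
      ((∀ k, w k = 0) → ∀ k t, t < 3 / 4 * T → f k t = 0) ∧
      ∀ U0 : Fin n → L2V Ω, (∀ k, U0 k =ᵐ[volume.restrict Ω] w k) →
      (∃ (u u' : Fin n → ℝ → L2V Ω) (z z' : Fin n → ℝ → L2M Ω), ∀ T1, 0 < T1 → T1 < T →
        (∀ k, ContinuousOn (u k) (Icc 0 T1)) ∧ (∀ k, ContinuousOn (u' k) (Icc 0 T1)) ∧
        (∀ k, ContinuousOn (z k) (Icc 0 T1)) ∧ (∀ k, ContinuousOn (z' k) (Icc 0 T1)) ∧
        (∀ k, ∀ t ∈ Icc 0 T1, (u k t, z k t) ∈ graphW Ω) ∧
        (∀ k, ∀ t ∈ Icc 0 T1, (u' k t, z' k t) ∈ graphW Ω) ∧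
        (∀ k, ∀ t ∈ Icc 0 T1, u k t = U0 k + ∫ s in (0 : ℝ)..t, u' k s) ∧
        (∀ t, InW (Submodule.span ℝ (Set.range φ)) fun k => u k t) ∧
        ∀ h ∈ Submodule.span ℝ (Set.range φ), ∀ ψ : E3 → E3, IsTest Ω ψ → ∀ θ : ℝ → ℝ,
          ContDiff ℝ ∞ θ → HasCompactSupport θ → tsupport θ ⊆ Ioo 0 T1 →
          ∫ t in Ioo 0 T1, ∑ k, m k * h k
            * nsI ν (u k t) (z k t) (f k t) ψ (θ t) (deriv θ t) = 0) ∧
      (∀ (u g : Fin n → ℝ → L2V Ω) (z : Fin n → ℝ → L2M Ω),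
        (∀ k, MemLp (g k) (4 / 3) (volume.restrict (Ioc 0 T))) →
        (∀ k, ∀ᵐ t ∂(volume.restrict (Ioc 0 T)), u k t = U0 k + ∫ s in (0 : ℝ)..t, g k s) →
        (∀ k, ∀ᵐ t ∂(volume.restrict (Ioc 0 T)), (u k t, z k t) ∈ graphW Ω) →
        (∀ k, MemLp (z k) 2 (volume.restrict (Ioc 0 T))) →
        (∀ᵐ t ∂(volume.restrict (Ioc 0 T)),
          InW (Submodule.span ℝ (Set.range φ)) fun k => u k t) →
        (∀ h ∈ Submodule.span ℝ (Set.range φ), ∀ ψ : E3 → E3, IsTest Ω ψ → ∀ θ : ℝ → ℝ,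
          ContDiff ℝ ∞ θ → HasCompactSupport θ → tsupport θ ⊆ Ioo 0 T →
          ∫ t in Ioo 0 T, ∑ k, m k * h k
            * nsI ν (u k t) (z k t) (f k t) ψ (θ t) (deriv θ t) = 0) →
        False) := by
  obtain ⟨f, f1, f2, f3, f4, H2⟩ := H (fun a x => ∑ k, (m k * φ a k) • w k x) fun a =>
    isTest_sum (fun k => m k * φ a k) hw
  refine ⟨fun k t x => ∑ a, φ a k • f a t x, ?_, ?_, ?_, ?_, ?_, ?_⟩
  · intro k
    exact ContDiff.sum fun a _ => (f1 a).const_smul _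
  · intro k
    have h : ∀ s : Finset (Fin 33), HasCompactSupport
        fun z : ℝ × E3 => ∑ a ∈ s, φ a k • f a z.1 z.2 := by
      intro s
      induction s using Finset.induction_on with
      | empty =>
        simp only [Finset.sum_empty]
        exact HasCompactSupport.zero
      | insert a s ha ih =>
        have e : (fun z : ℝ × E3 => ∑ a ∈ insert a s, φ a k • f a z.1 z.2)
            = (fun z : ℝ × E3 => φ a k • f a z.1 z.2)
              + fun z : ℝ × E3 => ∑ a ∈ s, φ a k • f a z.1 z.2 := by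
          funext z
          rw [Finset.sum_insert ha]
          rfl
        rw [e]
        refine HasCompactSupport.add ?_ ih
        exact (f2 a).comp_left (g := fun y => φ a k • y) (smul_zero _)
    exact h _
  · intro k
    have h : ∀ s : Finset (Fin 33), tsupport
        (fun z : ℝ × E3 => ∑ a ∈ s, φ a k • f a z.1 z.2) ⊆ univ ×ˢ Ω := by
      intro s
      induction s using Finset.induction_on with
      | empty => simp [tsupport]
      | insert a s ha ih =>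
        have e : (fun z : ℝ × E3 => ∑ a ∈ insert a s, φ a k • f a z.1 z.2)
            = (fun z : ℝ × E3 => φ a k • f a z.1 z.2)
              + fun z : ℝ × E3 => ∑ a ∈ s, φ a k • f a z.1 z.2 := by
          funext z
          rw [Finset.sum_insert ha]
          rfl
        rw [e]
        refine (tsupport_add _ _).trans (union_subset ?_ ih)
        refine (closure_mono ?_).trans (f3 a)
        intro z hz
        simp only [Function.mem_support] at hz ⊢
        intro h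
        exact hz (by rw [h, smul_zero])
    exact h _
  · intro t x
    exact InW_sum _
  · intro hw0 k t ht
    funext x
    have := f4 (fun a => by
      funext x
      simp [hw0]) 
    simp [this _ t ht]
  · intro U0 hU0
    obtain ⟨K1, K2⟩ := H2 (fun a => ∑ k, (m k * φ a k) • U0 k) fun a =>
      class_sum (fun k => m k * φ a k) hU0
    have hU0W : InW (Submodule.span ℝ (Set.range φ)) U0 := by
      intro l hl
      refine Lp.ext ?_
      filter_upwards [class_sum l hU0, Lp.coeFn_zero E3 2 ((volume : Measure E3).restrict Ω)]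
        with x a b
      rw [a, b]
      exact hwW x l hl
    constructor
    · obtain ⟨u, u', z, z', hT1⟩ := K1
      refine ⟨fun k t => ∑ a, φ a k • u a t, fun k t => ∑ a, φ a k • u' a t,
        fun k t => ∑ a, φ a k • z a t, fun k t => ∑ a, φ a k • z' a t, fun T1 hT0 hTT => ?_⟩
      obtain ⟨cu, cu', cz, cz', mu, mu', pu, he⟩ := hT1 T1 hT0 hTT
      refine ⟨fun k => ?_, fun k => ?_, fun k => ?_, fun k => ?_, fun k t ht => ?_,
        fun k t ht => ?_, fun k t ht => ?_, fun t => InW_sum _, ?_⟩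
      · exact continuousOn_finsetSum _ fun a _ => ContinuousOn.const_smul (cu a) (φ a k)
      · exact continuousOn_finsetSum _ fun a _ => ContinuousOn.const_smul (cu' a) (φ a k)
      · exact continuousOn_finsetSum _ fun a _ => ContinuousOn.const_smul (cz a) (φ a k)
      · exact continuousOn_finsetSum _ fun a _ => ContinuousOn.const_smul (cz' a) (φ a k)
      · exact graph_sum (fun a => φ a k) fun a => mu a t ht
      · exact graph_sum (fun a => φ a k) fun a => mu' a t ht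
      · have hint : ∀ a, IntervalIntegrable (u' a) volume 0 t := fun a =>
          ((cu' a).mono (by rw [uIcc_of_le ht.1]; exact Icc_subset_Icc_right ht.2)).intervalIntegrable
        have e1 : ∫ s in (0 : ℝ)..t, ∑ a, φ a k • u' a s = ∑ a, φ a k • ∫ s in (0 : ℝ)..t, u' a s := by
          rw [intervalIntegral.integral_finsetSum (f := fun a s => φ a k • u' a s)
            fun a _ => (hint a).smul (φ a k)]
          exact Finset.sum_congr rfl fun a _ => intervalIntegral.integral_smul _ _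
        rw [e1, hU0W.rep hort k, ← Finset.sum_add_distrib]
        refine Finset.sum_congr rfl fun a _ => ?_
        rw [pu a t ht, smul_add]
        rfl
      · intro h hh ψ hψ θ h1 h2 h3
        exact ens_eq hort hc (fun a => (f1 a).continuous) f2 (fun k t => rfl) cu cz he hh hψ h1
          h2 h3
    · intro u g z hg hpu hmu hz huW he
      exact ens_no hΩ hort hc (f := f) (fun a t => (f1 a).continuous.comp
        (by fun_prop : Continuous fun x : E3 => ((t, x) : ℝ × E3))) (fun k t => rfl) K2 hg hpu hmu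
        hz huW he

end conv2

end Pool.Agent.N327.MD
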