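import Pool.Agent.N327.MD.Tra

/-!
The explicit solution satisfies the weak form of the system.
-/

set_option autoImplicit false
set_option linter.unusedSectionVars false

open MeasureTheory Set Filter Topology
open scoped InnerProductSpace ENNReal ContDiff NNReal

namespace Pool.Agent.N327.MD

open H772R2.NS
open H772R2.NSR (Frame)
open Pool.Agent.Y303.LV (Adm cl clj cl_coe cl_sub clj_coe hasDerivAt_cl continuousAt_cl
  ibp_grad ibp_lap lap R2 R2_eq integral_restrict_of_off test_off jac_off)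
open Pool.Agent.N983.NC (PD PT Res Sym diffAt contDiffOn_PD contDiffOn_PT)
open Pool.Agent.N327.LE (mv)
open Pool.Agent.W52.TQ (tns norm_tns)

/-- integrability of pairings with a test field -/
theorem pair_int {Ω : Set E3} {g ψ : E3 → E3} (hg : Continuous g) (hψ : IsTest Ω ψ) :
    Integrable (fun x => ∑ i, g x i * ψ x i) (volume : Measure E3) := by
  refine integrable_finsetSum _ fun i _ => ?_
  have h1 : Continuous fun x => g x i :=
    (EuclideanSpace.proj (𝕜 := ℝ) i : E3 →L[ℝ] ℝ).continuous.comp hg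
  exact (h1.mul (contDiff_coord hψ.smooth i).continuous).integrable_of_hasCompactSupport
    ((hasCompactSupport_coord hψ.compact i).mul_left)

variable {K : Type} [Fintype K] {c : K → K → K → ℝ} {ν r T : ℝ} {Ω : Set E3} {b : E3}
  {S : Set (Fin 3 → ℝ)}
  {v : K → Fin 3 → ℝ × (Fin 3 → ℝ) → ℝ} {q : K → ℝ × (Fin 3 → ℝ) → ℝ}
  {f : K → Fin 3 → ℝ × (Fin 3 → ℝ) → ℝ}

theorem Ex.test (E : Ex c ν T S v q f) (G : Geo Ω b r S) {t : ℝ} (ht : t < T) (a : K) :
    IsTest Ω (Vf b (v a) t) :=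
  Vf_test G (E.sv a) ht (fun i y hy => E.v0 a i (t, y) hy) (fun y => E.dv a (t, y) ht)

theorem Ex.adm (E : Ex c ν T S v q f) (G : Geo Ω b r S) {t : ℝ} (ht : t < T) (a : K) :
    Adm b (3 * r) (Vf b (v a) t) :=
  Vf_adm G (slice_cont (E.sv a) ht) fun i y hy => E.v0 a i (t, y) hy

theorem Ex.mem (E : Ex c ν T S v q f) (G : Geo Ω b r S) {t : ℝ} (ht : t < T) (a : K) :
    (cl Ω (Vf b (v a) t), clj Ω (Vf b (v a) t)) ∈ graphW Ω :=
  Submodule.le_topologicalClosure _ ⟨Vf b (v a) t, E.test G ht a,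
    cl_coe (E.adm G ht a) G.pos3, clj_coe (E.test G ht a)⟩

/-- the weak form, for one test field -/
theorem Ex.weak (E : Ex c ν T S v q f) {C : ℝ} (Fr : Frame (graphW Ω) (tensL (Ω := Ω)) C)
    (hc : Sym c) (G : Geo Ω b r S) {t : ℝ} (ht : t < T) (a : K) {p : L2V Ω × L2M Ω}
    (hp : p ∈ graphW Ω) :
    ⟪cl Ω (Vf b (fun i => PT (v a i)) t), p.1⟫_ℝ + ν * ⟪clj Ω (Vf b (v a) t), p.2⟫_ℝ
      - ⟪mc c (fun d => cl Ω (Vf b (v d) t)) a, p.2⟫_ℝ = ⟪cl Ω (Vf b (f a) t), p.1⟫_ℝ := by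
  have hfs : ∀ i, Sm T (f a i) := fun i => (E.sf a i).contDiffOn
  have off1 : ∀ a i, ∀ s < T, ∀ y ∉ S, v a i (s, y) = 0 := fun a i s _ y hy =>
    E.v0 a i (s, y) hy
  have off2 := PT_zero_off G.closed (off1 a)
  have off3 : ∀ i, ∀ s < T, ∀ y ∉ S, f a i (s, y) = 0 := fun i s _ y hy =>
    E.f0 a i (s, y) hy
  have hcl := graphW_induction (fun p : L2V Ω × L2M Ω =>
    ⟪cl Ω (Vf b (fun i => PT (v a i)) t), p.1⟫_ℝ + ν * ⟪clj Ω (Vf b (v a) t), p.2⟫_ℝ
      - ⟪mc c (fun d => cl Ω (Vf b (v d) t)) a, p.2⟫_ℝ - ⟪cl Ω (Vf b (f a) t), p.1⟫_ℝ)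
    (by fun_prop) (by
    rintro p ⟨ψ, k1, k2, k3⟩
    have hT : ∀ d, IsTest Ω (Vf b (v d) t) := fun d => E.test G ht d
    have hP := fun d => E.mem G ht d
    have e3 := nonlin_eq Fr G.meas hc (P := fun d => (cl Ω (Vf b (v d) t), clj Ω (Vf b (v d) t))) hP a
      k1 k2 k3
    simp only at e3
    -- the convective terms
    have e4 : ∀ d e, ∫ x in Ω, ⟪mv ((clj Ω (Vf b (v e) t) : L2M Ω) x)
        ((cl Ω (Vf b (v d) t) : L2V Ω) x), ψ x⟫_ℝ
        = ∫ x, ∑ i, (∑ j, v d j (t, sh b x) * PD j (v e i) (t, sh b x)) * ψ x i := by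
      intro d e
      rw [← integral_restrict_of_off G.meas (fun x hx => by
        rw [test_off k1 hx]; simp)]
      refine integral_congr_ae ?_
      filter_upwards [cl_coe (Ω := Ω) (E.adm G ht d) G.pos3, clj_coe (hT e)] with x h1 h2
      rw [h1, h2, inner_E3]
      refine Finset.sum_congr rfl fun i _ => ?_
      congr 1
      show ∑ j, jac (Vf b (v e) t) x (i, j) * Vf b (v d) t x j = _
      refine Finset.sum_congr rfl fun j _ => ?_
      rw [jac_Vf (E.sv e) ht, Vf_apply, mul_comm]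
    have e5 : ⟪clj Ω (Vf b (v a) t), p.2⟫_ℝ
        = - ∫ x, ∑ i, (∑ j, PD j (PD j (v a i)) (t, sh b x)) * ψ x i := by
      have h1 : ⟪clj Ω (Vf b (v a) t), p.2⟫_ℝ = ∫ x, ⟪jac (Vf b (v a) t) x, jac ψ x⟫_ℝ := by
        rw [L2.inner_def, ← integral_restrict_of_off G.meas (fun x hx => by
          rw [jac_off k1 hx, inner_zero_right])]
        refine integral_congr_ae ?_
        filter_upwards [clj_coe (hT a), k3] with x c1 c2
        rw [c1, c2]
      rw [h1, ibp_lap (hT a) k1]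
      simp only [lap_Vf (E.sv a) ht]
    have e6 : ∫ x, ∑ i, PD i (q a) (t, sh b x) * ψ x i = 0 := by
      have h0 : ContDiff ℝ ∞ (fun x : E3 => q a (t, sh b x)) := Sm.slice (E.sq a) b ht
      have h1 := ibp_grad h0 (comp_supp G fun x hx => E.q0 a (t, sh b x) hx) k1
      rw [← h1]
      refine integral_congr_ae (Eventually.of_forall fun x => ?_)
      refine Finset.sum_congr rfl fun i _ => ?_
      rw [fderiv_sh b x (Sm.at (E.sq a) ht _)]
    have e7 := cl_inner G (slice_cont (fun i => Sm.PT (E.sv a i)) ht)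
      (fun i y hy => off2 i t ht y hy) k2
    have e8 := cl_inner G (slice_cont hfs ht) (fun i y hy => off3 i t ht y hy) k2
    simp only [e4] at e3
    -- integrability
    have cont : ∀ {g : ℝ × (Fin 3 → ℝ) → ℝ}, Sm T g → Continuous fun x : E3 => g (t, sh b x) :=
      fun hg => (Sm.slice hg b ht).continuous
    have ψc : ∀ i, Continuous fun x => ψ x i := fun i => (contDiff_coord k1.smooth i).continuous
    have ig : ∀ {g : Fin 3 → E3 → ℝ}, (∀ i, Continuous (g i)) →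
        Integrable (fun x => ∑ i, g i x * ψ x i) (volume : Measure E3) := fun hg =>
      integrable_finsetSum _ fun i _ => ((hg i).mul (ψc i)).integrable_of_hasCompactSupport
        ((hasCompactSupport_coord k1.compact i).mul_left)
    have i1 : Integrable (fun x => ∑ i, (PT (v a i) (t, sh b x)) * ψ x i) (volume : Measure E3) :=
      ig fun i => cont (Sm.PT (E.sv a i))
    have i2 : ∀ d e, Integrable (fun x => ∑ i, (∑ j, v d j (t, sh b x) * PD j (v e i) (t, sh b x))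
        * ψ x i) (volume : Measure E3) := fun d e =>
      ig fun i => continuous_finsetSum _ fun j _ => (cont (E.sv d j)).mul (cont (Sm.PD (E.sv e i) j))
    have i3 : Integrable (fun x => ∑ i, (∑ j, PD j (PD j (v a i)) (t, sh b x)) * ψ x i)
        (volume : Measure E3) :=
      ig fun i => continuous_finsetSum _ fun j _ => cont (Sm.PD (Sm.PD (E.sv a i) j) j)
    have i4 : Integrable (fun x => ∑ i, PD i (q a) (t, sh b x) * ψ x i) (volume : Measure E3) :=
      ig fun i => cont (Sm.PD (E.sq a) i)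
    have key : ∫ x, ∑ i, f a i (t, sh b x) * ψ x i
        = (∫ x, ∑ i, (PT (v a i) (t, sh b x)) * ψ x i)
          + (∑ d, ∑ e, c a d e * ∫ x, ∑ i, (∑ j, v d j (t, sh b x) * PD j (v e i) (t, sh b x))
            * ψ x i)
          - ν * (∫ x, ∑ i, (∑ j, PD j (PD j (v a i)) (t, sh b x)) * ψ x i)
          + ∫ x, ∑ i, PD i (q a) (t, sh b x) * ψ x i := by
      have s1 : ∑ d, ∑ e, c a d e * ∫ x, ∑ i, (∑ j, v d j (t, sh b x)
          * PD j (v e i) (t, sh b x)) * ψ x i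
          = ∫ x, ∑ d, ∑ e, c a d e * ∑ i, (∑ j, v d j (t, sh b x)
            * PD j (v e i) (t, sh b x)) * ψ x i := by
        rw [integral_finsetSum _ fun d _ => integrable_finsetSum _ fun e _ =>
          (i2 d e).const_mul _]
        refine Finset.sum_congr rfl fun d _ => ?_
        rw [integral_finsetSum _ fun e _ => (i2 d e).const_mul _]
        refine Finset.sum_congr rfl fun e _ => ?_
        rw [integral_const_mul]
      have i5 : Integrable (fun x => ∑ d, ∑ e, c a d e * ∑ i, (∑ j, v d j (t, sh b x)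
            * PD j (v e i) (t, sh b x)) * ψ x i) (volume : Measure E3) :=
        integrable_finsetSum _ fun d _ => integrable_finsetSum _ fun e _ => (i2 d e).const_mul _
      rw [s1, ← integral_const_mul]
      have j1 := integral_add i1 i5
      have j2 := integral_sub (i1.add i5) (i3.const_mul ν)
      have j3 := integral_add ((i1.add i5).sub (i3.const_mul ν)) i4
      simp only [Pi.add_apply, Pi.sub_apply] at j1 j2 j3
      rw [← j1, ← j2, ← j3]
      refine integral_congr_ae (Eventually.of_forall fun x => ?_)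
      show ∑ i, f a i (t, sh b x) * ψ x i = _
      have hx : ∀ i, f a i (t, sh b x) = Res c ν v q a i (t, sh b x) := fun i =>
        (E.eq a i (t, sh b x) ht).symm
      simp only [hx, Res, add_mul, sub_mul, Finset.sum_add_distrib, Finset.sum_sub_distrib]
      congr 2
      · congr 1
        simp only [Finset.sum_mul, Finset.mul_sum]
        rw [Finset.sum_comm]
        refine Finset.sum_congr rfl fun d _ => ?_
        rw [Finset.sum_comm]
        refine Finset.sum_congr rfl fun e _ => Finset.sum_congr rfl fun i _ =>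
          Finset.sum_congr rfl fun j _ => ?_
        ring
      · simp only [Finset.sum_mul, Finset.mul_sum]
        refine Finset.sum_congr rfl fun i _ => Finset.sum_congr rfl fun j _ => ?_
        ring
    show ⟪cl Ω (Vf b (fun i => PT (v a i)) t), p.1⟫_ℝ + ν * ⟪clj Ω (Vf b (v a) t), p.2⟫_ℝ
      - ⟪mc c (fun d => cl Ω (Vf b (v d) t)) a, p.2⟫_ℝ - ⟪cl Ω (Vf b (f a) t), p.1⟫_ℝ = 0
    rw [e7, e8, e5, key, e6]
    linarith) hp
  linarith

/-- a bound of the trilinear form -/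
theorem sy_bound (hm : MeasurableSet Ω) {p q : L2V Ω × L2M Ω} (hp : p ∈ graphW Ω)
    (hq : q ∈ graphW Ω) {z : L2M Ω} {N : ℝ} (hN : 0 ≤ N)
    (hz : ∀ᵐ x ∂(volume.restrict Ω), ‖z x‖ ≤ N) :
    |⟪sy p.1 q.1, z⟫_ℝ| ≤ N * (‖p.1‖ * ‖q.1‖) := by
  have mp : MemLp (fun x => ‖p.1 x‖) 2 (volume.restrict Ω) := (Lp.memLp p.1).norm
  have mq : MemLp (fun x => ‖q.1 x‖) 2 (volume.restrict Ω) := (Lp.memLp q.1).norm
  have n1 : ‖mp.toLp _‖ = ‖p.1‖ := by
    rw [Lp.norm_toLp, eLpNorm_norm, Lp.norm_def]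
  have n2 : ‖mq.toLp _‖ = ‖q.1‖ := by
    rw [Lp.norm_toLp, eLpNorm_norm, Lp.norm_def]
  have h1 : ⟪mp.toLp _, mq.toLp _⟫_ℝ = ∫ x in Ω, ‖p.1 x‖ * ‖q.1 x‖ := by
    rw [L2.inner_def]
    refine integral_congr_ae ?_
    filter_upwards [mp.coeFn_toLp, mq.coeFn_toLp] with x a1 a2
    rw [a1, a2]
    simp [mul_comm]
  have h2 : ∫ x in Ω, ‖p.1 x‖ * ‖q.1 x‖ ≤ ‖p.1‖ * ‖q.1‖ := by
    rw [← h1, ← n1, ← n2]
    exact (le_abs_self _).trans (abs_real_inner_le_norm _ _)
  have hi : Integrable (fun x => N * (‖p.1 x‖ * ‖q.1 x‖)) (volume.restrict Ω) :=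
    (mp.integrable_mul mq).const_mul N
  rw [L2.inner_def]
  calc |∫ x in Ω, ⟪(sy p.1 q.1 : L2M Ω) x, z x⟫_ℝ|
      ≤ ∫ x in Ω, N * (‖p.1 x‖ * ‖q.1 x‖) := by
        rw [← Real.norm_eq_abs]
        refine norm_integral_le_of_norm_le hi ?_
        filter_upwards [sy_coe hm hp hq, hz] with x a1 a2
        rw [a1]
        refine (norm_inner_le_norm _ _).trans ?_
        have b1 : ‖(1 / 2 : ℝ) • (tns (p.1 x) (q.1 x) + tns (q.1 x) (p.1 x))‖
            ≤ ‖p.1 x‖ * ‖q.1 x‖ := by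
          rw [norm_smul]
          have b2 := norm_add_le (tns (p.1 x) (q.1 x)) (tns (q.1 x) (p.1 x))
          rw [norm_tns, norm_tns] at b2
          have b3 : ‖(1 / 2 : ℝ)‖ = 1 / 2 := by norm_num
          rw [b3]
          linarith
        calc _ ≤ (‖p.1 x‖ * ‖q.1 x‖) * N := by gcongr
          _ = _ := by ring
    _ = N * ∫ x in Ω, ‖p.1 x‖ * ‖q.1 x‖ := integral_const_mul _ _
    _ ≤ _ := mul_le_mul_of_nonneg_left h2 hN

theorem jac_bound (E : Ex c ν T S v q f) (G : Geo Ω b r S) {T1 : ℝ} (hT : T1 < T) (a : K) :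
    ∃ N : ℝ, 0 ≤ N ∧ ∀ s ∈ Icc 0 T1, ∀ x, ‖jac (Vf b (v a) s) x‖ ≤ N := by
  -- the columns are vector fields
  have h0 : ∀ j : Fin 3, ∃ C : ℝ, 0 ≤ C ∧ ∀ s ∈ Icc 0 T1, ∀ x,
      ‖Vf b (fun i => PD j (v a i)) s x‖ ≤ C := fun j =>
    Vf_bound G (fun i => Sm.PD (E.sv a i) j) (PD_zero_off G.closed (fun i s _ y hy =>
      E.v0 a i (s, y) hy) j) hT 0
  choose C hC0 hC using h0
  refine ⟨∑ j, C j, Finset.sum_nonneg fun j _ => hC0 j, fun s hs x => ?_⟩
  have hs1 : s < T := hs.2.trans_lt hT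
  have hsq : ‖jac (Vf b (v a) s) x‖ ^ 2 = ∑ j, ‖Vf b (fun i => PD j (v a i)) s x‖ ^ 2 := by
    rw [norm_sq_M3, Finset.sum_comm]
    refine Finset.sum_congr rfl fun j _ => ?_
    rw [norm_sq_E3]
    refine Finset.sum_congr rfl fun i _ => ?_
    rw [jac_Vf (E.sv a) hs1]
    rfl
  have h3 : ‖jac (Vf b (v a) s) x‖ ^ 2 ≤ (∑ j, C j) ^ 2 := by
    rw [hsq]
    calc ∑ j, ‖Vf b (fun i => PD j (v a i)) s x‖ ^ 2 ≤ ∑ j, C j ^ 2 :=
          Finset.sum_le_sum fun j _ => pow_le_pow_left₀ (norm_nonneg _) (hC j s hs x) 2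
      _ ≤ (∑ j, C j) ^ 2 := Finset.sum_sq_le_sq_sum_of_nonneg fun j _ => hC0 j
  exact (pow_le_pow_iff_left₀ (norm_nonneg _) (Finset.sum_nonneg fun j _ => hC0 j)
    (by norm_num)).1 h3

/-- the path of the explicit solution satisfies the system -/
theorem Ex.eqn (E : Ex c ν T S v q f) {C : ℝ} (Fr : Frame (graphW Ω) (tensL (Ω := Ω)) C)
    (hc : Sym c) (G : Geo Ω b r S) {T1 : ℝ} (hT : T1 < T) :
    Eqn c ν T1 (fun a t => cl Ω (Vf b (v a) t)) (fun a t => cl Ω (Vf b (fun i => PT (v a i)) t))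
      (fun a t => cl Ω (Vf b (f a) t)) (fun a t => clj Ω (Vf b (v a) t)) := by
  unfold Eqn
  filter_upwards [ae_restrict_mem measurableSet_Ioc] with t ht a p hp
  exact E.weak Fr hc G (ht.2.trans_lt hT) a hp

/-- Any solution of the system with `∂ₜu ∈ L¹(0,T; L²)` is equal to the explicit one. -/
theorem Ex.unique (E : Ex c ν T S v q f) {C : ℝ} (Fr : Frame (graphW Ω) (tensL (Ω := Ω)) C)
    (hc : Sym c) (hν : 0 ≤ ν) (G : Geo Ω b r S) {T1 : ℝ} (hT : T1 < T) {U g : K → ℝ → L2V Ω}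
    {z : K → ℝ → L2M Ω} (iU : ∀ a, Integrable (g a) (volume.restrict (Ioc 0 T1)))
    (hU : ∀ a, ∀ t ∈ Icc 0 T1, U a t = cl Ω (Vf b (v a) 0) + ∫ s in (0 : ℝ)..t, g a s)
    (mU : ∀ᵐ t ∂(volume.restrict (Ioc 0 T1)), ∀ a, (U a t, z a t) ∈ graphW Ω)
    (eU : Eqn c ν T1 U g (fun a t => cl Ω (Vf b (f a) t)) z) :
    ∀ a, ∀ t ∈ Icc 0 T1, U a t = cl Ω (Vf b (v a) t) := by
  have off1 : ∀ a i, ∀ s < T, ∀ y ∉ S, v a i (s, y) = 0 := fun a i s _ y hy =>
    E.v0 a i (s, y) hy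
  choose N hN0 hN using fun a => jac_bound E G hT a
  refine uniq G.meas hc hν (N := ∑ a, N a) (Finset.sum_nonneg fun a _ => hN0 a) iU
    (fun a => cl_integrable G (fun i => Sm.PT (E.sv a i)) (PT_zero_off G.closed (off1 a)) hT) hU
    (fun a t ht => cl_prim G (E.sv a) (off1 a) hT t ht) mU ?_ eU (E.eqn Fr hc G hT) ?_
  · filter_upwards [ae_restrict_mem measurableSet_Ioc] with t ht a
    exact E.mem G (ht.2.trans_lt hT) a
  · filter_upwards [ae_restrict_mem measurableSet_Ioc] with t ht a p hp q hq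
    refine sy_bound G.meas hp hq (Finset.sum_nonneg fun a _ => hN0 a) ?_
    filter_upwards [clj_coe (E.test G (ht.2.trans_lt hT) a)] with x hx
    rw [hx]
    exact (hN a t ⟨ht.1.le, ht.2⟩ x).trans
      (Finset.single_le_sum (f := N) (fun a _ => hN0 a) (Finset.mem_univ a))

end Pool.Agent.N327.MD
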