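import Pool.Agent.N327.MD.Contra
import Pool.Agent.H772R2.NSG.Rel

/-!
The explicit solution is a regular weak solution before the blow-up time.
-/

set_option autoImplicit false
set_option linter.unusedSectionVars false

open MeasureTheory Set Filter Topology
open scoped InnerProductSpace ENNReal ContDiff NNReal

namespace Pool.Agent.N327.MD

open H772R2.NS
open H772R2.NSR (Frame exists_pair)
open H772R2.NSG (mem_cont)
open Pool.Agent.Y303.LV (Adm cl clj cl_coe cl_sub clj_coe norm_cl_sq sq_integrable)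
open Pool.Agent.N983.NC (PD PT Res Sym diffAt contDiffOn_PD contDiffOn_PT)
open Pool.Agent.N327.LE (mv)

theorem PD_PT_comm {O : Set (ℝ × (Fin 3 → ℝ))} {F : ℝ × (Fin 3 → ℝ) → ℝ} (hO : IsOpen O)
    (hF : ContDiffOn ℝ ∞ F O) {z : ℝ × (Fin 3 → ℝ)} (hz : z ∈ O) (i : Fin 3) :
    PD i (PT F) z = PT (PD i F) z := by
  have h2 : ContDiffAt ℝ 2 F z := ((hF.of_le (by norm_cast)).contDiffAt (hO.mem_nhds hz))
  have hs : IsSymmSndFDerivAt ℝ F z := h2.isSymmSndFDerivAt (by simp)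
  have hd : DifferentiableAt ℝ (fderiv ℝ F) z :=
    (h2.fderiv_right (m := 1) (by norm_num)).differentiableAt one_ne_zero
  have k1 : PD i (PT F) z = fderiv ℝ (fderiv ℝ F) z (0, Pi.single i 1) (1, 0) := by
    have a1 : HasFDerivAt (fun z => fderiv ℝ F z (1, 0)) _ z :=
      hd.hasFDerivAt.clm_apply (hasFDerivAt_const ((1, 0) : ℝ × (Fin 3 → ℝ)) z)
    unfold PD PT
    rw [a1.fderiv]
    simp
  have k2 : PT (PD i F) z = fderiv ℝ (fderiv ℝ F) z (1, 0) (0, Pi.single i 1) := by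
    have a1 : HasFDerivAt (fun z => fderiv ℝ F z (0, Pi.single i 1)) _ z :=
      hd.hasFDerivAt.clm_apply (hasFDerivAt_const ((0, Pi.single i (1 : ℝ)) : ℝ × (Fin 3 → ℝ)) z)
    unfold PD PT
    rw [a1.fderiv]
    simp
  rw [k1, k2]
  exact hs _ _

section fld

variable {F : Fin 3 → ℝ × (Fin 3 → ℝ) → ℝ} {b : E3} {T t r : ℝ} {Ω : Set E3}
  {S : Set (Fin 3 → ℝ)}

theorem PT_div (hF : ∀ i, Sm T (F i)) (hd : ∀ z : ℝ × (Fin 3 → ℝ), z.1 < T →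
    ∑ i, PD i (F i) z = 0) (z : ℝ × (Fin 3 → ℝ)) (hz : z.1 < T) :
    ∑ i, PD i (PT (F i)) z = 0 := by
  have hz' : z ∈ Iio T ×ˢ (univ : Set (Fin 3 → ℝ)) := ⟨hz, mem_univ _⟩
  have h1 : ∀ i, PD i (PT (F i)) z = PT (PD i (F i)) z := fun i =>
    PD_PT_comm (op1 T) (hF i) hz' i
  have h2 : (fun z => ∑ i, PD i (F i) z) =ᶠ[𝓝 z] fun _ => 0 := by
    filter_upwards [(op1 T).mem_nhds hz'] with y hy
    exact hd y hy.1
  have h3 : PT (fun z => ∑ i, PD i (F i) z) z = ∑ i, PT (PD i (F i)) z := by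
    have d : ∀ i ∈ Finset.univ, DifferentiableAt ℝ (PD i (F i)) z := fun i _ =>
      diffAt (op1 T) ((hF i).PD i) hz'
    unfold PT
    rw [fderiv_fun_sum d]
    simp
  rw [Finset.sum_congr rfl fun i _ => h1 i, ← h3, N983.NC.PT_congr h2, N983.NC.PT_zero]

theorem clj_sub_le (G : Geo Ω b r S) (hF : ∀ i, Sm T (F i))
    (h0 : ∀ i, ∀ s < T, ∀ y ∉ S, F i (s, y) = 0)
    (hd : ∀ z : ℝ × (Fin 3 → ℝ), z.1 < T → ∑ i, PD i (F i) z = 0) {s : ℝ} (hs : s < T)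
    (ht : t < T) :
    ‖clj Ω (Vf b F s) - clj Ω (Vf b F t)‖ ≤ ∑ j : Fin 3,
      ‖cl Ω (Vf b (fun i => PD j (F i)) s) - cl Ω (Vf b (fun i => PD j (F i)) t)‖ := by
  have hT : ∀ {s : ℝ}, s < T → IsTest Ω (Vf b F s) := fun {s} hs =>
    Vf_test G hF hs (fun i y hy => h0 i s hs y hy) fun y => hd (s, y) hs
  have hA : ∀ {s : ℝ}, s < T → ∀ j, Adm b (3 * r) (Vf b (fun i => PD j (F i)) s) :=
    fun {s} hs j => Vf_adm G (slice_cont (fun i => (hF i).PD j) hs)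
      fun i y hy => PD_zero_off G.closed h0 j i s hs y hy
  have e1 : ‖clj Ω (Vf b F s) - clj Ω (Vf b F t)‖ ^ 2
      = ∫ x in Ω, ‖jac (Vf b F s) x - jac (Vf b F t) x‖ ^ 2 := by
    rw [← real_inner_self_eq_norm_sq, L2.inner_def]
    refine integral_congr_ae ?_
    filter_upwards [clj_coe (hT hs), clj_coe (hT ht),
      Lp.coeFn_sub (clj Ω (Vf b F s)) (clj Ω (Vf b F t))] with x a1 a2 a3
    rw [a3, Pi.sub_apply, a1, a2, real_inner_self_eq_norm_sq]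
  have e2 : ∀ x, ‖jac (Vf b F s) x - jac (Vf b F t) x‖ ^ 2
      = ∑ j : Fin 3, ‖Vf b (fun i => PD j (F i)) s x - Vf b (fun i => PD j (F i)) t x‖ ^ 2 := by
    intro x
    rw [norm_sq_M3, Finset.sum_comm]
    refine Finset.sum_congr rfl fun j _ => ?_
    rw [norm_sq_E3]
    refine Finset.sum_congr rfl fun i _ => ?_
    rw [PiLp.sub_apply, PiLp.sub_apply, jac_Vf hF hs, jac_Vf hF ht]
    rfl
  have e3 : ‖clj Ω (Vf b F s) - clj Ω (Vf b F t)‖ ^ 2 = ∑ j : Fin 3,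
      ‖cl Ω (Vf b (fun i => PD j (F i)) s) - cl Ω (Vf b (fun i => PD j (F i)) t)‖ ^ 2 := by
    rw [e1]
    simp only [e2]
    rw [integral_finsetSum _ fun j _ => sq_integrable ((hA hs j).sub (hA ht j)) G.pos3]
    refine Finset.sum_congr rfl fun j _ => ?_
    rw [← cl_sub (hA hs j) (hA ht j) G.pos3, norm_cl_sq ((hA hs j).sub (hA ht j)) G.pos3]
  have e4 : ‖clj Ω (Vf b F s) - clj Ω (Vf b F t)‖ ^ 2 ≤ (∑ j : Fin 3,
      ‖cl Ω (Vf b (fun i => PD j (F i)) s) - cl Ω (Vf b (fun i => PD j (F i)) t)‖) ^ 2 := by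
    rw [e3]
    exact Finset.sum_sq_le_sq_sum_of_nonneg fun j _ => norm_nonneg _
  exact (pow_le_pow_iff_left₀ (norm_nonneg _) (Finset.sum_nonneg fun j _ => norm_nonneg _)
    (by norm_num)).1 e4

theorem clj_contAt (G : Geo Ω b r S) (hF : ∀ i, Sm T (F i))
    (h0 : ∀ i, ∀ s < T, ∀ y ∉ S, F i (s, y) = 0)
    (hd : ∀ z : ℝ × (Fin 3 → ℝ), z.1 < T → ∑ i, PD i (F i) z = 0) (ht : t < T) :
    ContinuousAt (fun s => clj Ω (Vf b F s)) t := by
  rw [ContinuousAt, tendsto_iff_norm_sub_tendsto_zero]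
  have h1 : Tendsto (fun s => ∑ j : Fin 3,
      ‖cl Ω (Vf b (fun i => PD j (F i)) s) - cl Ω (Vf b (fun i => PD j (F i)) t)‖) (𝓝 t)
      (𝓝 (∑ _j : Fin 3, 0)) := by
    refine tendsto_finsetSum _ fun j _ => ?_
    exact tendsto_iff_norm_sub_tendsto_zero.1 (cl_contAt G (fun i => (hF i).PD j)
      (PD_zero_off G.closed h0 j) ht)
  rw [Finset.sum_const_zero] at h1
  refine squeeze_zero' (Eventually.of_forall fun _ => norm_nonneg _) ?_ h1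
  filter_upwards [Iio_mem_nhds ht] with s hs
  exact clj_sub_le G hF h0 hd hs ht

theorem cl_contOn (G : Geo Ω b r S) (hF : ∀ i, Sm T (F i))
    (h0 : ∀ i, ∀ s < T, ∀ y ∉ S, F i (s, y) = 0) {T1 : ℝ} (hT : T1 < T) :
    ContinuousOn (fun s => cl Ω (Vf b F s)) (Icc 0 T1) := fun s hs =>
  (cl_contAt G hF h0 (hs.2.trans_lt hT)).continuousWithinAt

theorem clj_contOn (G : Geo Ω b r S) (hF : ∀ i, Sm T (F i))
    (h0 : ∀ i, ∀ s < T, ∀ y ∉ S, F i (s, y) = 0)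
    (hd : ∀ z : ℝ × (Fin 3 → ℝ), z.1 < T → ∑ i, PD i (F i) z = 0) {T1 : ℝ} (hT : T1 < T) :
    ContinuousOn (fun s => clj Ω (Vf b F s)) (Icc 0 T1) := fun s hs =>
  (clj_contAt G hF h0 hd (hs.2.trans_lt hT)).continuousWithinAt

end fld

variable {K : Type} [Fintype K] {c : K → K → K → ℝ} {ν r T : ℝ} {Ω : Set E3} {b : E3}
  {S : Set (Fin 3 → ℝ)}
  {v : K → Fin 3 → ℝ × (Fin 3 → ℝ) → ℝ} {q : K → ℝ × (Fin 3 → ℝ) → ℝ}
  {f : K → Fin 3 → ℝ × (Fin 3 → ℝ) → ℝ}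

theorem Ex.off (E : Ex c ν T S v q f) (a : K) : ∀ i, ∀ s < T, ∀ y ∉ S, v a i (s, y) = 0 :=
  fun i s _ y hy => E.v0 a i (s, y) hy

theorem Ex.mem1 (E : Ex c ν T S v q f) (G : Geo Ω b r S) {t : ℝ} (ht : t < T) (a : K) :
    (cl Ω (Vf b (fun i => PT (v a i)) t), clj Ω (Vf b (fun i => PT (v a i)) t)) ∈ graphW Ω := by
  have h1 := PT_zero_off G.closed (E.off a)
  have h2 : IsTest Ω (Vf b (fun i => PT (v a i)) t) :=
    Vf_test G (fun i => Sm.PT (E.sv a i)) ht (fun i y hy => h1 i t ht y hy)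
      fun y => PT_div (E.sv a) (E.dv a) (t, y) ht
  exact Submodule.le_topologicalClosure _ ⟨Vf b (fun i => PT (v a i)) t, h2,
    cl_coe (Vf_adm G (slice_cont (fun i => Sm.PT (E.sv a i)) ht) fun i y hy => h1 i t ht y hy)
      G.pos3, clj_coe h2⟩

/-- the weak formulation of the explicit solution -/
theorem Ex.dist (E : Ex c ν T S v q f) {C : ℝ} (Fr : Frame (graphW Ω) (tensL (Ω := Ω)) C)
    (hc : Sym c) (G : Geo Ω b r S) {T1 : ℝ} (hT0 : 0 < T1) (hT : T1 < T) (a : K) {φ : E3 → E3}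
    (hφ : IsTest Ω φ) {θ : ℝ → ℝ} (h1 : ContDiff ℝ ∞ θ)
    (h3 : tsupport θ ⊆ Ioo 0 T1) :
    ∫ t in Ioo 0 T1, (-(deriv θ t) * (∫ x in Ω, ⟪cl Ω (Vf b (v a) t) x, φ x⟫_ℝ)
        + θ t * ((∑ d, ∑ e, c a d e * ∫ x in Ω, ⟪mv (clj Ω (Vf b (v e) t) x)
            (cl Ω (Vf b (v d) t) x), φ x⟫_ℝ)
          + ν * (∫ x in Ω, ⟪clj Ω (Vf b (v a) t) x, jac φ x⟫_ℝ)
          - ∫ x in Ω, ⟪cl Ω (Vf b (f a) t) x, φ x⟫_ℝ)) = 0 := by
  obtain ⟨p, hp, k2, k3⟩ := exists_pair (Ω := Ω) hφ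
  have e1 : ∀ w : L2V Ω, ⟪w, p.1⟫_ℝ = ∫ x in Ω, ⟪w x, φ x⟫_ℝ := by
    intro w
    rw [L2.inner_def]
    refine integral_congr_ae ?_
    filter_upwards [k2] with x hx
    rw [hx]
  have e2 : ∀ w : L2M Ω, ⟪w, p.2⟫_ℝ = ∫ x in Ω, ⟪w x, jac φ x⟫_ℝ := by
    intro w
    rw [L2.inner_def]
    refine integral_congr_ae ?_
    filter_upwards [k3] with x hx
    rw [hx]
  have hd : ∀ t ∈ Icc 0 T1, HasDerivAt (fun t => θ t * ⟪cl Ω (Vf b (v a) t), p.1⟫_ℝ)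
      (deriv θ t * ⟪cl Ω (Vf b (v a) t), p.1⟫_ℝ
        + θ t * ⟪cl Ω (Vf b (fun i => PT (v a i)) t), p.1⟫_ℝ) t := by
    intro t ht
    have d1 : HasDerivAt θ (deriv θ t) t := (h1.differentiable (by simp) t).hasDerivAt
    have d2 : HasDerivAt (fun s => ⟪cl Ω (Vf b (v a) s), p.1⟫_ℝ)
        ⟪cl Ω (Vf b (fun i => PT (v a i)) t), p.1⟫_ℝ t := by
      have := (cl_deriv G (E.sv a) (E.off a) (ht.2.trans_lt hT)).inner (𝕜 := ℝ)
        (hasDerivAt_const t p.1)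
      simpa using this
    exact d1.mul d2
  have hθc := h1.continuous
  have hθd : Continuous (deriv θ) := h1.continuous_deriv (by simp)
  have c1 : ContinuousOn (fun t => ⟪cl Ω (Vf b (v a) t), p.1⟫_ℝ) (Icc 0 T1) :=
    (cl_contOn G (E.sv a) (E.off a) hT).inner continuousOn_const
  have c2 : ContinuousOn (fun t => ⟪cl Ω (Vf b (fun i => PT (v a i)) t), p.1⟫_ℝ) (Icc 0 T1) :=
    (cl_contOn G (fun i => Sm.PT (E.sv a i)) (PT_zero_off G.closed (E.off a)) hT).inner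
      continuousOn_const
  have key := intervalIntegral.integral_eq_sub_of_hasDerivAt (a := 0) (b := T1)
    (f := fun t => θ t * ⟪cl Ω (Vf b (v a) t), p.1⟫_ℝ)
    (f' := fun t => deriv θ t * ⟪cl Ω (Vf b (v a) t), p.1⟫_ℝ
        + θ t * ⟪cl Ω (Vf b (fun i => PT (v a i)) t), p.1⟫_ℝ)
    (fun t ht => by
      rw [uIcc_of_le hT0.le] at ht
      exact hd t ht)
    (by
      refine ContinuousOn.intervalIntegrable ?_
      rw [uIcc_of_le hT0.le]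
      exact (hθd.continuousOn.mul c1).add (hθc.continuousOn.mul c2))
  have hT1 : θ T1 = 0 := image_eq_zero_of_notMem_tsupport fun hc => (h3 hc).2.false
  have hT2 : θ 0 = 0 := image_eq_zero_of_notMem_tsupport fun hc => (h3 hc).1.false
  rw [hT1, hT2, zero_mul, zero_mul, sub_zero] at key
  have e5 : ∫ t in Ioo 0 T1, (-(deriv θ t) * (∫ x in Ω, ⟪cl Ω (Vf b (v a) t) x, φ x⟫_ℝ)
        + θ t * ((∑ d, ∑ e, c a d e * ∫ x in Ω, ⟪mv (clj Ω (Vf b (v e) t) x)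
            (cl Ω (Vf b (v d) t) x), φ x⟫_ℝ)
          + ν * (∫ x in Ω, ⟪clj Ω (Vf b (v a) t) x, jac φ x⟫_ℝ)
          - ∫ x in Ω, ⟪cl Ω (Vf b (f a) t) x, φ x⟫_ℝ))
      = -∫ t in (0 : ℝ)..T1, (deriv θ t * ⟪cl Ω (Vf b (v a) t), p.1⟫_ℝ
        + θ t * ⟪cl Ω (Vf b (fun i => PT (v a i)) t), p.1⟫_ℝ) := by
    rw [intervalIntegral.integral_of_le hT0.le, restr_eq, ← integral_neg]
    refine setIntegral_congr_fun measurableSet_Ioc fun t ht => ?_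
    have htT : t < T := ht.2.trans_lt hT
    have w1 := E.weak Fr hc G htT a hp
    have w2 := nonlin_eq Fr G.meas hc
      (P := fun d => (cl Ω (Vf b (v d) t), clj Ω (Vf b (v d) t))) (fun d => E.mem G htT d) a
      hφ k2 k3
    simp only at w2
    rw [w2, ← e1, ← e1, ← e2]
    linear_combination (θ t) * w1
  rw [e5, key, neg_zero]

end Pool.Agent.N327.MD
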