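import Pool.Agent.N327.MD.Dat
import Pool.Agent.N983.NC.Final

/-!
The statement for the system with 33 components.
-/

set_option autoImplicit false

open MeasureTheory Set Filter Topology
open scoped InnerProductSpace ENNReal ContDiff NNReal

namespace Pool.Agent.N327.MD

open H772R2.NS
open Pool.Agent.N983.NC (Sym Core core_exists enum enum_zero)
open Pool.Agent.N327.LE (mv)

theorem mid : ∃ c : Fin 33 → Fin 33 → Fin 33 → ℝ,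
    (∀ a b d, c a b d = c b a d ∧ c a b d = c a d b) ∧
    (∀ a b, c 0 a b = if a = b then 1 else 0) ∧
    ∀ ν : ℝ, 0 < ν → ∀ Ω : Set E3, IsOpen Ω → Bornology.IsBounded Ω → Ω.Nonempty →
    ∀ T : ℝ, 0 < T → ∀ w : Fin 33 → E3 → E3, (∀ a, IsTest Ω (w a)) →
    ∃ f : Fin 33 → ℝ → E3 → E3, (∀ a, ContDiff ℝ ∞ fun z : ℝ × E3 => f a z.1 z.2) ∧
      (∀ a, HasCompactSupport fun z : ℝ × E3 => f a z.1 z.2) ∧
      (∀ a, tsupport (fun z : ℝ × E3 => f a z.1 z.2) ⊆ univ ×ˢ Ω) ∧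
      ((∀ a, w a = 0) → ∀ a t, t < 3 / 4 * T → f a t = 0) ∧
      ∀ U0 : Fin 33 → L2V Ω, (∀ a, U0 a =ᵐ[volume.restrict Ω] w a) →
      (∃ (u u' : Fin 33 → ℝ → L2V Ω) (z z' : Fin 33 → ℝ → L2M Ω), ∀ T1, 0 < T1 → T1 < T →
        (∀ a, ContinuousOn (u a) (Icc 0 T1)) ∧ (∀ a, ContinuousOn (u' a) (Icc 0 T1)) ∧
        (∀ a, ContinuousOn (z a) (Icc 0 T1)) ∧ (∀ a, ContinuousOn (z' a) (Icc 0 T1)) ∧
        (∀ a, ∀ t ∈ Icc 0 T1, (u a t, z a t) ∈ graphW Ω) ∧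
        (∀ a, ∀ t ∈ Icc 0 T1, (u' a t, z' a t) ∈ graphW Ω) ∧
        (∀ a, ∀ t ∈ Icc 0 T1, u a t = U0 a + ∫ s in (0 : ℝ)..t, u' a s) ∧
        ∀ a, ∀ φ : E3 → E3, IsTest Ω φ → ∀ θ : ℝ → ℝ, ContDiff ℝ ∞ θ → HasCompactSupport θ →
          tsupport θ ⊆ Ioo 0 T1 →
          ∫ t in Ioo 0 T1, (-(deriv θ t) * (∫ x in Ω, ⟪u a t x, φ x⟫_ℝ)
            + θ t * ((∑ d, ∑ e, c a d e * ∫ x in Ω, ⟪mv (z e t x) (u d t x), φ x⟫_ℝ)
              + ν * (∫ x in Ω, ⟪z a t x, jac φ x⟫_ℝ) - ∫ x in Ω, ⟪f a t x, φ x⟫_ℝ)) = 0) ∧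
      (∀ (u g : Fin 33 → ℝ → L2V Ω) (z : Fin 33 → ℝ → L2M Ω),
        (∀ a, MemLp (g a) (4 / 3) (volume.restrict (Ioc 0 T))) →
        (∀ a, ∀ᵐ t ∂(volume.restrict (Ioc 0 T)), u a t = U0 a + ∫ s in (0 : ℝ)..t, g a s) →
        (∀ a, ∀ᵐ t ∂(volume.restrict (Ioc 0 T)), (u a t, z a t) ∈ graphW Ω) →
        (∀ a, MemLp (z a) 2 (volume.restrict (Ioc 0 T))) →
        (∀ a, ∀ φ : E3 → E3, IsTest Ω φ → ∀ θ : ℝ → ℝ, ContDiff ℝ ∞ θ → HasCompactSupport θ →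
          tsupport θ ⊆ Ioo 0 T →
          ∫ t in Ioo 0 T, (-(deriv θ t) * (∫ x in Ω, ⟪u a t x, φ x⟫_ℝ)
            + θ t * ((∑ d, ∑ e, c a d e * ∫ x in Ω, ⟪mv (z e t x) (u d t x), φ x⟫_ℝ)
              + ν * (∫ x in Ω, ⟪z a t x, jac φ x⟫_ℝ) - ∫ x in Ω, ⟪f a t x, φ x⟫_ℝ)) = 0) →
        False) := by
  obtain ⟨c, hc, hc0, h⟩ := core_exists
  obtain ⟨en, hen⟩ : ∃ en : Fin 33 ≃ Option Pool.Agent.N983.NC.I0, en 0 = none :=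
    ⟨enum, enum_zero⟩
  obtain ⟨c', hc'⟩ : ∃ c' : Fin 33 → Fin 33 → Fin 33 → ℝ,
      c' = fun a b d => c (en a) (en b) (en d) := ⟨_, rfl⟩
  have hs : Sym c' := by
    rw [hc']
    exact fun a b d => hc _ _ _
  refine ⟨c', hs, fun a b => ?_, fun ν hν Ω hΩ hb hne T hT w hw => ?_⟩
  · rw [hc']
    show c (en 0) (en a) (en b) = if a = b then 1 else 0
    rw [hen, hc0]
    simp
  · have hκ : 0 < 1 / (40 * ν) := by positivity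
    obtain ⟨A, p, hcore, hsA, -⟩ := h (1 / (40 * ν)) hκ
    have e : 1 / (40 * (1 / (40 * ν))) = ν := by field_simp
    rw [e] at hcore
    have hcore' := hcore.reindex en
    rw [← hc'] at hcore'
    exact core_blow hs hν hκ hcore' (fun a => hsA (en a)) hΩ hb hne hT hw

end Pool.Agent.N327.MD
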