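import Pool.Agent.N327.MD.Weak
import Pool.Agent.N327.MD.Cut

/-!
The explicit solution as a path in `L²(Ω)³`.
-/

set_option autoImplicit false
set_option linter.unusedSectionVars false

open MeasureTheory Set Filter Topology
open scoped InnerProductSpace ENNReal ContDiff NNReal

namespace Pool.Agent.N327.MD

open H772R2.NS
open H772R2.NSR (Frame)
open Pool.Agent.Y303.LV (Adm cl clj cl_coe cl_sub clj_coe hasDerivAt_cl continuousAt_cl
  ibp_grad ibp_lap lap R2 R2_eq integral_restrict_of_off test_off jac_off)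
open Pool.Agent.N983.NC (PD PT Res Sym diffAt contDiffOn_PD contDiffOn_PT)
open Pool.Agent.N327.LE (mv)

/-- coordinates relative to `b` -/
def sh (b x : E3) : Fin 3 → ℝ := fun i => x i - b i

/-- the coordinate map -/
noncomputable def co : E3 →L[ℝ] (Fin 3 → ℝ) :=
  ((EuclideanSpace.equiv (Fin 3) ℝ) : E3 →L[ℝ] (Fin 3 → ℝ))

theorem sh_eq (b x : E3) : sh b x = co x - co b := rfl

theorem sh_hasFDerivAt (b x : E3) : HasFDerivAt (sh b) co x := by
  have h : HasFDerivAt (fun x => co x - co b) co x := co.hasFDerivAt.sub_const (co b)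
  exact h

theorem sh_contDiff (b : E3) : ContDiff ℝ ∞ (sh b) := by
  have : ContDiff ℝ ∞ (fun x => co x - co b) := co.contDiff.sub contDiff_const
  exact this

theorem co_ev (j : Fin 3) : co (ev j) = Pi.single j 1 := by
  funext i
  show (EuclideanSpace.single j (1 : ℝ) : E3) i = _
  simp [Pi.single_apply]

theorem fderiv_sh {F : ℝ × (Fin 3 → ℝ) → ℝ} {t : ℝ} (b x : E3)
    (hF : DifferentiableAt ℝ F (t, sh b x)) (j : Fin 3) :
    fderiv ℝ (fun y : E3 => F (t, sh b y)) x (ev j) = PD j F (t, sh b x) := by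
  have h1 : HasFDerivAt (fun y : E3 => ((t, sh b y) : ℝ × (Fin 3 → ℝ)))
      ((0 : E3 →L[ℝ] ℝ).prod co) x := (hasFDerivAt_const t x).prodMk (sh_hasFDerivAt b x)
  have h2 := hF.hasFDerivAt.comp x h1
  have h3 : fderiv ℝ (fun y : E3 => F (t, sh b y)) x
      = (fderiv ℝ F (t, sh b x)).comp ((0 : E3 →L[ℝ] ℝ).prod co) := h2.fderiv
  rw [h3]
  show fderiv ℝ F (t, sh b x) (0, co (ev j)) = _
  rw [co_ev]
  rfl

/-- the vector field on `E3` -/
noncomputable def Vf (b : E3) (F : Fin 3 → ℝ × (Fin 3 → ℝ) → ℝ) (t : ℝ) (x : E3) : E3 :=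
  WithLp.toLp 2 fun i => F i (t, sh b x)

theorem Vf_apply (b : E3) (F : Fin 3 → ℝ × (Fin 3 → ℝ) → ℝ) (t : ℝ) (x : E3) (i : Fin 3) :
    Vf b F t x i = F i (t, sh b x) := rfl

/-- smooth before the time `T` -/
abbrev Sm (T : ℝ) (F : ℝ × (Fin 3 → ℝ) → ℝ) : Prop := ContDiffOn ℝ ∞ F (Iio T ×ˢ univ)

theorem op1 (T : ℝ) : IsOpen (Iio T ×ˢ (univ : Set (Fin 3 → ℝ))) := isOpen_Iio.prod isOpen_univ

section

variable {T : ℝ}

theorem Sm.slice {F : ℝ × (Fin 3 → ℝ) → ℝ} (hF : Sm T F) (b : E3) {t : ℝ} (ht : t < T) :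
    ContDiff ℝ ∞ (fun x : E3 => F (t, sh b x)) := by
  rw [← contDiffOn_univ]
  exact hF.comp (contDiff_const.prodMk (sh_contDiff b)).contDiffOn fun y _ => ⟨ht, mem_univ _⟩

theorem Sm.at {F : ℝ × (Fin 3 → ℝ) → ℝ} (hF : Sm T F) {t : ℝ} (ht : t < T) (y : Fin 3 → ℝ) :
    DifferentiableAt ℝ F (t, y) := diffAt (op1 T) hF ⟨ht, mem_univ _⟩

theorem Sm.PD {F : ℝ × (Fin 3 → ℝ) → ℝ} (hF : Sm T F) (j : Fin 3) : Sm T (N983.NC.PD j F) :=
  contDiffOn_PD (op1 T) hF j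

theorem Sm.PT {F : ℝ × (Fin 3 → ℝ) → ℝ} (hF : Sm T F) : Sm T (N983.NC.PT F) :=
  contDiffOn_PT (op1 T) hF

end

theorem toLp_contDiff {X : Type*} [NormedAddCommGroup X] [NormedSpace ℝ X] {g : X → Fin 3 → ℝ}
    (hg : ContDiff ℝ ∞ g) : ContDiff ℝ ∞ (fun x => (WithLp.toLp 2 (g x) : E3)) := by
  have h : ContDiff ℝ ∞ (fun x => (EuclideanSpace.equiv (Fin 3) ℝ).symm (g x)) :=
    (EuclideanSpace.equiv (Fin 3) ℝ).symm.contDiff.comp hg
  exact h

/-- The set `S` of coordinates relative to `b` is closed, bounded by `r`, and lies in `Ω`. -/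
structure Geo (Ω : Set E3) (b : E3) (r : ℝ) (S : Set (Fin 3 → ℝ)) : Prop where
  pos : 0 < r
  bd : ∀ y ∈ S, ‖y‖ ≤ r
  closed : IsClosed S
  sub : ∀ x, sh b x ∈ S → x ∈ Ω
  meas : MeasurableSet Ω

theorem norm_sub_le_sh (b x : E3) : ‖x - b‖ ^ 2 ≤ 3 * ‖sh b x‖ ^ 2 := by
  rw [norm_sq_E3]
  have h : ∀ i, (x - b) i ^ 2 ≤ ‖sh b x‖ ^ 2 := by
    intro i
    have h1 : |(x - b) i| ≤ ‖sh b x‖ := norm_le_pi_norm (sh b x) i
    calc (x - b) i ^ 2 = |(x - b) i| ^ 2 := (sq_abs _).symm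
      _ ≤ ‖sh b x‖ ^ 2 := pow_le_pow_left₀ (abs_nonneg _) h1 2
  calc ∑ i, (x - b) i ^ 2 ≤ ∑ _i : Fin 3, ‖sh b x‖ ^ 2 := Finset.sum_le_sum fun i _ => h i
    _ = 3 * ‖sh b x‖ ^ 2 := by simp

theorem sh_norm_le (b x : E3) : ‖sh b x‖ ≤ ‖x - b‖ := by
  refine (pi_norm_le_iff_of_nonneg (norm_nonneg _)).2 fun i => ?_
  have h1 : (x - b) i ^ 2 ≤ ‖x - b‖ ^ 2 := by
    rw [norm_sq_E3]
    exact Finset.single_le_sum (f := fun i => (x - b) i ^ 2) (fun _ _ => sq_nonneg _)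
      (Finset.mem_univ i)
  exact abs_le_of_sq_le_sq h1 (norm_nonneg _)

section fld

variable {F : Fin 3 → ℝ × (Fin 3 → ℝ) → ℝ} {b : E3} {T t r : ℝ} {Ω : Set E3}
  {S : Set (Fin 3 → ℝ)}

theorem Vf_contDiff (hF : ∀ i, Sm T (F i)) (ht : t < T) : ContDiff ℝ ∞ (Vf b F t) :=
  toLp_contDiff (contDiff_pi.2 fun i => (hF i).slice b ht)

theorem jac_Vf (hF : ∀ i, Sm T (F i)) (ht : t < T) (x : E3) (i j : Fin 3) :
    jac (Vf b F t) x (i, j) = PD j (F i) (t, sh b x) := by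
  rw [jac_apply, ← fderiv_coord (Vf_contDiff hF ht)]
  exact fderiv_sh b x ((hF i).at ht _) j

theorem lap_Vf (hF : ∀ i, Sm T (F i)) (ht : t < T) (x : E3) (i : Fin 3) :
    lap (Vf b F t) x i = ∑ j, PD j (PD j (F i)) (t, sh b x) := by
  unfold lap
  refine Finset.sum_congr rfl fun j _ => ?_
  have e : (fun y => jac (Vf b F t) y (i, j)) = fun y => PD j (F i) (t, sh b y) := by
    funext y
    exact jac_Vf hF ht y i j
  rw [e]
  exact fderiv_sh b x (((hF i).PD j).at ht _) j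

theorem Geo.off (G : Geo Ω b r S) {x : E3} (hx : (3 * r) ^ 2 / 2 < R2 b x) : sh b x ∉ S := by
  intro hS
  rw [R2_eq] at hx
  have h1 := norm_sub_le_sh b x
  have h2 : ‖sh b x‖ ^ 2 ≤ r ^ 2 := pow_le_pow_left₀ (norm_nonneg _) (G.bd _ hS) 2
  nlinarith [sq_nonneg r]

theorem Geo.pos3 (G : Geo Ω b r S) : 0 < 3 * r := by linarith [G.pos]

theorem Vf_adm (G : Geo Ω b r S) (hc : Continuous (fun x : E3 => Vf b F t x))
    (h0 : ∀ i y, y ∉ S → F i (t, y) = 0) : Adm b (3 * r) (Vf b F t) := by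
  refine ⟨hc, fun x hx => ?_⟩
  ext i
  rw [Vf_apply, h0 i _ (G.off hx)]
  rfl

theorem supp_sub (G : Geo Ω b r S) {Y : Type*} [Zero Y] {g : E3 → Y}
    (h0 : ∀ x, sh b x ∉ S → g x = 0) : tsupport g ⊆ {x : E3 | sh b x ∈ S} := by
  refine closure_minimal ?_ (G.closed.preimage (sh_contDiff b).continuous)
  intro x hx
  by_contra hcon
  exact hx (h0 x hcon)

theorem Geo.near (G : Geo Ω b r S) {x : E3} (hx : sh b x ∈ S) :
    x ∈ Metric.closedBall b (2 * r) := by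
  rw [Metric.mem_closedBall, dist_eq_norm]
  have h1 := norm_sub_le_sh b x
  have h3 : ‖sh b x‖ ^ 2 ≤ r ^ 2 := pow_le_pow_left₀ (norm_nonneg _) (G.bd _ hx) 2
  have hr0 := G.pos
  have h4 : ‖x - b‖ ^ 2 ≤ (2 * r) ^ 2 := by nlinarith [sq_pos_of_pos hr0]
  exact (pow_le_pow_iff_left₀ (norm_nonneg _) (by positivity) (by norm_num)).1 h4

theorem comp_supp (G : Geo Ω b r S) {Y : Type*} [Zero Y] {g : E3 → Y}
    (h0 : ∀ x, sh b x ∉ S → g x = 0) : HasCompactSupport g := by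
  refine HasCompactSupport.of_support_subset_isCompact (isCompact_closedBall b (2 * r)) ?_
  intro x hx
  refine G.near ?_
  by_contra hcon
  exact hx (h0 x hcon)

theorem Vf_zero (h0 : ∀ i y, y ∉ S → F i (t, y) = 0) {x : E3} (hx : sh b x ∉ S) :
    Vf b F t x = 0 := by
  ext i
  rw [Vf_apply, h0 i _ hx]
  rfl

theorem Vf_test (G : Geo Ω b r S) (hF : ∀ i, Sm T (F i)) (ht : t < T)
    (h0 : ∀ i y, y ∉ S → F i (t, y) = 0)
    (hd : ∀ y, ∑ i, PD i (F i) (t, y) = 0) : IsTest Ω (Vf b F t) := by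
  have hz : ∀ x, sh b x ∉ S → Vf b F t x = 0 := fun x hx => Vf_zero h0 hx
  refine ⟨Vf_contDiff hF ht, comp_supp G hz, (supp_sub G hz).trans fun x hx => G.sub x hx,
    fun x => ?_⟩
  simp only [jac_Vf hF ht]
  exact hd _

/-- time derivative at a point -/
theorem Vf_deriv (hF : ∀ i, Sm T (F i)) (ht : t < T) (x : E3) :
    HasDerivAt (fun s => Vf b F s x) (Vf b (fun i => PT (F i)) t x) t := by
  have h1 : ∀ i, HasDerivAt (fun s => F i (s, sh b x)) (PT (F i) (t, sh b x)) t := by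
    intro i
    have h2 : HasDerivAt (fun s : ℝ => ((s, sh b x) : ℝ × (Fin 3 → ℝ))) (1, 0) t :=
      (hasDerivAt_id t).prodMk (hasDerivAt_const t _)
    exact ((hF i).at ht _).hasFDerivAt.comp_hasDerivAt t h2
  have h3 : HasDerivAt (fun s => fun i => F i (s, sh b x)) (fun i => PT (F i) (t, sh b x)) t :=
    hasDerivAt_pi.2 h1
  exact ((EuclideanSpace.equiv (Fin 3) ℝ).symm : (Fin 3 → ℝ) →L[ℝ] E3).hasFDerivAt.comp_hasDerivAt
    t h3

theorem Vf_joint (hF : ∀ i, Sm T (F i)) :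
    ContinuousOn (fun z : ℝ × E3 => Vf b F z.1 z.2) (Iio T ×ˢ univ) := by
  have h1 : ContinuousOn (fun z : ℝ × E3 => fun i => F i (z.1, sh b z.2)) (Iio T ×ˢ univ) := by
    rw [continuousOn_pi]
    intro i
    refine (hF i).continuousOn.comp (Continuous.continuousOn ?_) fun z hz => ⟨hz.1, mem_univ _⟩
    exact continuous_fst.prodMk ((sh_contDiff b).continuous.comp continuous_snd)
  exact (PiLp.continuous_toLp 2 _).comp_continuousOn h1

theorem Vf_bound (G : Geo Ω b r S) (hF : ∀ i, Sm T (F i))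
    (h0 : ∀ i, ∀ s < T, ∀ y ∉ S, F i (s, y) = 0) {T1 : ℝ} (hT : T1 < T) (T0 : ℝ) :
    ∃ C : ℝ, 0 ≤ C ∧ ∀ s ∈ Icc T0 T1, ∀ x, ‖Vf b F s x‖ ≤ C := by
  have hK : IsCompact (Icc T0 T1 ×ˢ Metric.closedBall b (2 * r)) :=
    isCompact_Icc.prod (isCompact_closedBall b (2 * r))
  obtain ⟨C, hC⟩ := hK.exists_bound_of_continuousOn ((Vf_joint (b := b) hF).mono fun z hz =>
    ⟨(show z.1 < T from lt_of_le_of_lt hz.1.2 hT), mem_univ _⟩)
  refine ⟨max C 0, le_max_right _ _, fun s hs x => ?_⟩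
  by_cases hx : x ∈ Metric.closedBall b (2 * r)
  · exact (hC (s, x) ⟨hs, hx⟩).trans (le_max_left _ _)
  · have : Vf b F s x = 0 :=
      Vf_zero (fun i y hy => h0 i s (hs.2.trans_lt hT) y hy) fun h => hx (G.near h)
    rw [this, norm_zero]
    exact le_max_right _ _

theorem slice_cont (hF : ∀ i, Sm T (F i)) (ht : t < T) : Continuous (fun x : E3 => Vf b F t x) :=
  (Vf_contDiff hF ht).continuous

theorem cl_contAt (G : Geo Ω b r S) (hF : ∀ i, Sm T (F i))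
    (h0 : ∀ i, ∀ s < T, ∀ y ∉ S, F i (s, y) = 0) (ht : t < T) :
    ContinuousAt (fun s => cl Ω (Vf b F s)) t := by
  obtain ⟨C, -, hC⟩ := Vf_bound G hF h0 (T1 := (t + T) / 2) (by linarith) (t - 1)
  have hnb : Icc (t - 1) ((t + T) / 2) ∈ 𝓝 t := Icc_mem_nhds (by linarith) (by linarith)
  refine continuousAt_cl (b := b) G.pos3 ?_ (C := C)
    (by filter_upwards [hnb] with s hs using hC s hs) ?_
  · filter_upwards [Iio_mem_nhds ht] with s hs
    exact Vf_adm G (slice_cont hF hs) fun i y hy => h0 i s hs y hy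
  · intro x
    have h2 : ContinuousAt (fun z : ℝ × E3 => Vf b F z.1 z.2) (t, x) :=
      (Vf_joint hF).continuousAt ((isOpen_Iio.prod isOpen_univ).mem_nhds ⟨ht, mem_univ _⟩)
    exact h2.comp (f := fun t => (t, x)) (by fun_prop)

theorem PT_zero_off (hS : IsClosed S) (h0 : ∀ i, ∀ s < T, ∀ y ∉ S, F i (s, y) = 0) :
    ∀ i, ∀ s < T, ∀ y ∉ S, PT (F i) (s, y) = 0 := by
  intro i s hs y hy
  have h1 : F i =ᶠ[𝓝 (s, y)] fun _ => 0 := by
    have a1 : {z : ℝ × (Fin 3 → ℝ) | z.1 < T} ∈ 𝓝 (s, y) :=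
      (isOpen_lt continuous_fst continuous_const).mem_nhds hs
    have a2 : {z : ℝ × (Fin 3 → ℝ) | z.2 ∈ Sᶜ} ∈ 𝓝 (s, y) :=
      (hS.isOpen_compl.preimage continuous_snd).mem_nhds hy
    filter_upwards [a1, a2] with z b1 b2
    exact h0 i z.1 b1 z.2 b2
  rw [N983.NC.PT_congr h1, N983.NC.PT_zero]

theorem PD_zero_off (hS : IsClosed S) (h0 : ∀ i, ∀ s < T, ∀ y ∉ S, F i (s, y) = 0) (j : Fin 3) :
    ∀ i, ∀ s < T, ∀ y ∉ S, PD j (F i) (s, y) = 0 := by
  intro i s hs y hy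
  have h1 : F i =ᶠ[𝓝 (s, y)] fun _ => 0 := by
    have a1 : {z : ℝ × (Fin 3 → ℝ) | z.1 < T} ∈ 𝓝 (s, y) :=
      (isOpen_lt continuous_fst continuous_const).mem_nhds hs
    have a2 : {z : ℝ × (Fin 3 → ℝ) | z.2 ∈ Sᶜ} ∈ 𝓝 (s, y) :=
      (hS.isOpen_compl.preimage continuous_snd).mem_nhds hy
    filter_upwards [a1, a2] with z b1 b2
    exact h0 i z.1 b1 z.2 b2
  rw [N983.NC.PD_congr h1, N983.NC.PD_zero]

theorem cl_deriv (G : Geo Ω b r S) (hF : ∀ i, Sm T (F i))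
    (h0 : ∀ i, ∀ s < T, ∀ y ∉ S, F i (s, y) = 0) (ht : t < T) :
    HasDerivAt (fun s => cl Ω (Vf b F s)) (cl Ω (Vf b (fun i => PT (F i)) t)) t := by
  have h0' := PT_zero_off G.closed h0
  obtain ⟨C, -, hC⟩ := Vf_bound G (fun i => (hF i).PT) h0' (T1 := (t + T) / 2) (by linarith)
    (t - 1)
  have hδ : 0 < min 1 ((T - t) / 2) := lt_min one_pos (by linarith)
  have hb : ∀ s ∈ Metric.ball t (min 1 ((T - t) / 2)), s ∈ Icc (t - 1) ((t + T) / 2) := by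
    intro s hs
    rw [Metric.mem_ball, Real.dist_eq, abs_lt] at hs
    have m1 := min_le_left 1 ((T - t) / 2)
    have m2 := min_le_right 1 ((T - t) / 2)
    constructor <;> linarith [hs.1, hs.2]
  have hb1 : ∀ s ∈ Metric.ball t (min 1 ((T - t) / 2)), s < T := fun s hs =>
    lt_of_le_of_lt (hb s hs).2 (by linarith)
  exact hasDerivAt_cl G.pos3 hδ (fun s hs => Vf_adm G (slice_cont hF (hb1 s hs))
      fun i y hy => h0 i s (hb1 s hs) y hy)
    (Vf_adm G (slice_cont (fun i => (hF i).PT) ht) fun i y hy => h0' i t ht y hy)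
    (C := C) (fun s hs x => hC s (hb s hs) x) (fun s hs x => Vf_deriv hF (hb1 s hs) x)

theorem cl_prim (G : Geo Ω b r S) (hF : ∀ i, Sm T (F i))
    (h0 : ∀ i, ∀ s < T, ∀ y ∉ S, F i (s, y) = 0) {T1 : ℝ} (hT : T1 < T) (t : ℝ)
    (ht : t ∈ Icc 0 T1) :
    cl Ω (Vf b F t) = cl Ω (Vf b F 0) + ∫ s in (0 : ℝ)..t, cl Ω (Vf b (fun i => PT (F i)) s) := by
  have h0' := PT_zero_off G.closed h0
  have h1 := intervalIntegral.integral_eq_sub_of_hasDerivAt (a := 0) (b := t)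
    (f := fun s => cl Ω (Vf b F s)) (f' := fun s => cl Ω (Vf b (fun i => PT (F i)) s))
    (fun s hs => by
      rw [uIcc_of_le ht.1] at hs
      exact cl_deriv G hF h0 (hs.2.trans_lt (ht.2.trans_lt hT)))
    (by
      refine ContinuousOn.intervalIntegrable fun s hs => ?_
      rw [uIcc_of_le ht.1] at hs
      exact (cl_contAt G (fun i => (hF i).PT) h0'
        (hs.2.trans_lt (ht.2.trans_lt hT))).continuousWithinAt)
  rw [h1]
  abel

theorem cl_integrable (G : Geo Ω b r S) (hF : ∀ i, Sm T (F i))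
    (h0 : ∀ i, ∀ s < T, ∀ y ∉ S, F i (s, y) = 0) {T1 : ℝ} (hT : T1 < T) :
    Integrable (fun s => cl Ω (Vf b F s)) (volume.restrict (Ioc 0 T1)) := by
  have h1 : ContinuousOn (fun s => cl Ω (Vf b F s)) (Icc 0 T1) := fun s hs =>
    (cl_contAt G hF h0 (hs.2.trans_lt hT)).continuousWithinAt
  have h2 : IntegrableOn (fun s => cl Ω (Vf b F s)) (Ioc 0 T1) volume :=
    h1.integrableOn_Icc.mono_set Ioc_subset_Icc_self
  exact h2

/-- inner product with a test field -/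
theorem cl_inner (G : Geo Ω b r S) {ψ : E3 → E3} {p : L2V Ω}
    (hc : Continuous (fun x : E3 => Vf b F t x)) (h0 : ∀ i y, y ∉ S → F i (t, y) = 0)
    (hp : p =ᵐ[volume.restrict Ω] ψ) :
    ⟪cl Ω (Vf b F t), p⟫_ℝ = ∫ x, ∑ i, F i (t, sh b x) * ψ x i := by
  rw [L2.inner_def, ← integral_restrict_of_off G.meas (fun x hx => by
    refine Finset.sum_eq_zero fun i _ => ?_
    rw [h0 i _ fun h => hx (G.sub x h), zero_mul])]
  refine integral_congr_ae ?_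
  filter_upwards [cl_coe (Ω := Ω) (Vf_adm G hc h0) G.pos3, hp] with x h1 h2
  rw [h1, h2, inner_E3]
  rfl

end fld

end Pool.Agent.N327.MD
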