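import Pool.Agent.N327.MD.Alg

/-!
Uniqueness for systems of Navier-Stokes type with several components.
-/

set_option autoImplicit false
set_option linter.unusedSectionVars false

open MeasureTheory Set Filter Topology
open scoped InnerProductSpace ENNReal ContDiff NNReal

namespace Pool.Agent.N327.MD

open H772R2.NS
open H772R2.NSG (by_parts ii_of_int gron_int)
open Pool.Agent.N983.NC (Sym)

section prim

variable {Y : Type} [NormedAddCommGroup Y] [InnerProductSpace ℝ Y] [CompleteSpace Y]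

theorem prim_add {T : ℝ} {w h : ℝ → Y} (hh : Integrable h (volume.restrict (Ioc 0 T)))
    (hw : ∀ t ∈ Icc 0 T, w t = ∫ s in (0 : ℝ)..t, h s) {a b : ℝ} (ha : 0 ≤ a) (hab : a ≤ b)
    (hb : b ≤ T) : w b - w a = ∫ s in a..b, h s := by
  rw [hw b ⟨ha.trans hab, hb⟩, hw a ⟨ha, hab.trans hb⟩]
  have s1 := intervalIntegral.integral_add_adjacent_intervals
    (ii_of_int hh le_rfl ha (hab.trans hb)) (ii_of_int hh ha hab hb)
  rw [← s1]
  abel

theorem prim_cont1 {T : ℝ} {w h : ℝ → Y} (hh : Integrable h (volume.restrict (Ioc 0 T)))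
    (hw : ∀ t ∈ Icc 0 T, w t = ∫ s in (0 : ℝ)..t, h s) : ContinuousOn w (Icc 0 T) := by
  rcases lt_or_ge T 0 with hT | hT
  · rw [Icc_eq_empty (not_le.mpr hT)]; exact continuousOn_empty _
  have hi : IntegrableOn h (uIcc 0 T) volume := by
    rw [uIcc_of_le hT, integrableOn_Icc_iff_integrableOn_Ioc]
    exact hh
  have h2 := intervalIntegral.continuousOn_primitive_interval (f := h) (μ := volume) (a := 0)
    (b := T) hi
  rw [uIcc_of_le hT] at h2
  exact h2.congr hw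

theorem prim_cont {T : ℝ} {w h : ℝ → Y} {w0 : Y}
    (hh : Integrable h (volume.restrict (Ioc 0 T)))
    (hw : ∀ t ∈ Icc 0 T, w t = w0 + ∫ s in (0 : ℝ)..t, h s) : ContinuousOn w (Icc 0 T) := by
  have h1 := (continuousOn_const (c := w0) (s := Icc 0 T)).add
    (prim_cont1 (w := fun t => ∫ s in (0 : ℝ)..t, h s) hh fun t _ => rfl)
  exact h1.congr hw

/-- the energy of a primitive -/
theorem normsq {T : ℝ} {w h : ℝ → Y} (hh : Integrable h (volume.restrict (Ioc 0 T)))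
    (hw : ∀ t ∈ Icc 0 T, w t = ∫ s in (0 : ℝ)..t, h s) {t : ℝ} (ht : t ∈ Icc 0 T) :
    ‖w t‖ ^ 2 = 2 * ∫ s in (0 : ℝ)..t, ⟪h s, w s⟫_ℝ := by
  have h1 := by_parts hh hh (fun a b ha hab hb => prim_add hh hw ha hab hb) (prim_cont1 hh hw) ht
  have h2 : ∫ s in (0 : ℝ)..t, ⟪h s, w t⟫_ℝ = ‖w t‖ ^ 2 := by
    rw [← real_inner_self_eq_norm_sq]
    conv_rhs => rw [hw t ht]
    rw [intervalIntegral.integral_of_le ht.1, intervalIntegral.integral_of_le ht.1]
    have hi : IntegrableOn h (Ioc 0 t) volume :=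
      hh.mono_measure (Measure.restrict_mono (Ioc_subset_Ioc_right ht.2) le_rfl)
    have hwt : w t = ∫ s in Ioc 0 t, h s := by
      rw [hw t ht, intervalIntegral.integral_of_le ht.1]
    rw [← hwt]
    have := integral_inner (𝕜 := ℝ) hi (w t)
    rw [← hwt] at this
    rw [← this]
    exact integral_congr_ae (Eventually.of_forall fun s => real_inner_comm _ _)
  have h3 : ∫ r in (0 : ℝ)..t, ⟪∫ s in (0 : ℝ)..r, h s, h r⟫_ℝ
      = ∫ r in (0 : ℝ)..t, ⟪h r, w r⟫_ℝ := by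
    refine intervalIntegral.integral_congr fun r hr => ?_
    rw [uIcc_of_le ht.1] at hr
    show ⟪∫ s in (0 : ℝ)..r, h s, h r⟫_ℝ = ⟪h r, w r⟫_ℝ
    rw [← hw r ⟨hr.1, hr.2.trans ht.2⟩]
    exact real_inner_comm _ _
  rw [h2, h3] at h1
  rw [h1]
  ring

theorem inner_int {T : ℝ} {w h : ℝ → Y} (hh : Integrable h (volume.restrict (Ioc 0 T)))
    (hw : ContinuousOn w (Icc 0 T)) :
    Integrable (fun s => ⟪h s, w s⟫_ℝ) (volume.restrict (Ioc 0 T)) := by
  obtain ⟨B, hB⟩ := (isCompact_Icc.image_of_continuousOn hw).isBounded.exists_norm_le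
  have hzm : AEStronglyMeasurable w (volume.restrict (Ioc 0 T)) :=
    (hw.mono Ioc_subset_Icc_self).aestronglyMeasurable measurableSet_Ioc
  refine (hh.norm.mul_const B).mono' (hh.aestronglyMeasurable.inner hzm) ?_
  filter_upwards [ae_restrict_mem measurableSet_Ioc] with s hs
  refine (norm_inner_le_norm _ _).trans ?_
  gcongr
  exact hB _ ⟨s, ⟨hs.1.le, hs.2⟩, rfl⟩

end prim

variable {Ω : Set E3} {K : Type} [Fintype K] {c : K → K → K → ℝ}

/-- The equation of the `a`-th component, for almost every time. -/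
def Eqn (c : K → K → K → ℝ) (ν T : ℝ) (u g f : K → ℝ → L2V Ω) (z : K → ℝ → L2M Ω) : Prop :=
  ∀ᵐ t ∂(volume.restrict (Ioc 0 T)), ∀ a, ∀ p ∈ graphW Ω,
    ⟪g a t, p.1⟫_ℝ + ν * ⟪z a t, p.2⟫_ℝ - ⟪mc c (fun b => u b t) a, p.2⟫_ℝ = ⟪f a t, p.1⟫_ℝ

theorem uniq (hΩ : MeasurableSet Ω) (hc : Sym c) {ν T N : ℝ} (hν : 0 ≤ ν) (hN0 : 0 ≤ N)
    {U V gU gV f : K → ℝ → L2V Ω} {zU zV : K → ℝ → L2M Ω} {U0 : K → L2V Ω}
    (iU : ∀ a, Integrable (gU a) (volume.restrict (Ioc 0 T)))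
    (iV : ∀ a, Integrable (gV a) (volume.restrict (Ioc 0 T)))
    (hU : ∀ a, ∀ t ∈ Icc 0 T, U a t = U0 a + ∫ s in (0 : ℝ)..t, gU a s)
    (hV : ∀ a, ∀ t ∈ Icc 0 T, V a t = U0 a + ∫ s in (0 : ℝ)..t, gV a s)
    (mU : ∀ᵐ t ∂(volume.restrict (Ioc 0 T)), ∀ a, (U a t, zU a t) ∈ graphW Ω)
    (mV : ∀ᵐ t ∂(volume.restrict (Ioc 0 T)), ∀ a, (V a t, zV a t) ∈ graphW Ω)
    (eU : Eqn c ν T U gU f zU) (eV : Eqn c ν T V gV f zV)
    (hN : ∀ᵐ t ∂(volume.restrict (Ioc 0 T)), ∀ a, ∀ p ∈ graphW Ω, ∀ q ∈ graphW Ω,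
      |⟪sy p.1 q.1, zV a t⟫_ℝ| ≤ N * (‖p.1‖ * ‖q.1‖)) :
    ∀ a, ∀ t ∈ Icc 0 T, U a t = V a t := by
  rcases lt_or_ge T 0 with hT | hT
  · intro a t ht
    exact absurd (ht.1.trans ht.2) (not_le.2 hT)
  set w : K → ℝ → L2V Ω := fun a t => U a t - V a t with hw
  set h : K → ℝ → L2V Ω := fun a t => gU a t - gV a t with hh
  have ih : ∀ a, Integrable (h a) (volume.restrict (Ioc 0 T)) := fun a => (iU a).sub (iV a)
  have pw : ∀ a, ∀ t ∈ Icc 0 T, w a t = ∫ s in (0 : ℝ)..t, h a s := by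
    intro a t ht
    show U a t - V a t = ∫ s in (0 : ℝ)..t, (gU a s - gV a s)
    rw [intervalIntegral.integral_sub (ii_of_int (iU a) le_rfl ht.1 ht.2)
      (ii_of_int (iV a) le_rfl ht.1 ht.2), hU a t ht, hV a t ht, add_sub_add_left_eq_sub]
  have cw : ∀ a, ContinuousOn (w a) (Icc 0 T) := fun a => prim_cont1 (ih a) (pw a)
  set E : ℝ → ℝ := fun t => ∑ a, ‖w a t‖ ^ 2 with hE
  have cE : ContinuousOn E (Icc 0 T) := continuousOn_finsetSum _ fun a _ => ((cw a).norm).pow 2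
  have E0 : ∀ t, 0 ≤ E t := fun t => Finset.sum_nonneg fun a _ => sq_nonneg _
  set C : ℝ := ∑ a, ∑ b, ∑ d, |c a b d| with hC
  have C0 : 0 ≤ C := Finset.sum_nonneg fun a _ => Finset.sum_nonneg fun b _ =>
    Finset.sum_nonneg fun d _ => abs_nonneg _
  -- the differential inequality
  have key : ∀ᵐ t ∂(volume.restrict (Ioc 0 T)), ∑ a, ⟪h a t, w a t⟫_ℝ ≤ C * N * E t := by
    filter_upwards [mU, mV, eU, eV, hN] with t m1 m2 e1 e2 n
    have mW : ∀ a, (w a t, zU a t - zV a t) ∈ graphW Ω := fun a =>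
      (graphW Ω).sub_mem (m1 a) (m2 a)
    have hd := mc_diff hΩ hc (W := fun a => (w a t, zU a t - zV a t)) (Z := fun a => (V a t, zV a t))
      mW m2
    have e0 : (fun b => ((w b t, zU b t - zV b t) + (V b t, zV b t) : L2V Ω × L2M Ω).1)
        = fun b => U b t := by
      funext b
      simp [hw]
    simp only [e0] at hd
    have e3 : ∀ a, ⟪h a t, w a t⟫_ℝ = -(ν * ‖zU a t - zV a t‖ ^ 2)
        + ⟪mc c (fun b => U b t) a - mc c (fun b => V b t) a, zU a t - zV a t⟫_ℝ := by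
      intro a
      have f1 := e1 a _ (mW a)
      have f2 := e2 a _ (mW a)
      simp only at f1 f2
      have f3 : ⟪h a t, w a t⟫_ℝ = ⟪gU a t, w a t⟫_ℝ - ⟪gV a t, w a t⟫_ℝ := inner_sub_left _ _ _
      have f4 : ν * ‖zU a t - zV a t‖ ^ 2 = ν * ⟪zU a t, zU a t - zV a t⟫_ℝ
          - ν * ⟪zV a t, zU a t - zV a t⟫_ℝ := by
        rw [← real_inner_self_eq_norm_sq, ← mul_sub, ← inner_sub_left]
      rw [f3, f4, inner_sub_left]
      linarith
    rw [Finset.sum_congr rfl fun a _ => e3 a, Finset.sum_add_distrib, hd]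
    have n1 : ∑ a, -(ν * ‖zU a t - zV a t‖ ^ 2) ≤ 0 :=
      Finset.sum_nonpos fun a _ => by
        have : 0 ≤ ν * ‖zU a t - zV a t‖ ^ 2 := by positivity
        linarith
    have n2 : -∑ a, ⟪mc c (fun b => w b t) a, zV a t⟫_ℝ ≤ C * N * E t := by
      refine (neg_le_abs _).trans ((Finset.abs_sum_le_sum_abs _ _).trans ?_)
      rw [hC, Finset.sum_mul, Finset.sum_mul]
      refine Finset.sum_le_sum fun a _ => ?_
      have g1 := mc_inner c (fun a => ((w a t, zU a t - zV a t) : L2V Ω × L2M Ω)) a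
        ((0 : L2V Ω), zV a t)
      simp only at g1
      rw [g1]
      refine (Finset.abs_sum_le_sum_abs _ _).trans ?_
      rw [Finset.sum_mul, Finset.sum_mul]
      refine Finset.sum_le_sum fun b _ => ?_
      refine (Finset.abs_sum_le_sum_abs _ _).trans ?_
      rw [Finset.sum_mul, Finset.sum_mul]
      refine Finset.sum_le_sum fun d _ => ?_
      rw [abs_mul, mul_assoc]
      refine mul_le_mul_of_nonneg_left ?_ (abs_nonneg _)
      have g2 := n a _ (mW b) _ (mW d)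
      simp only at g2
      refine g2.trans (mul_le_mul_of_nonneg_left ?_ hN0)
      have g3 : ‖w b t‖ ^ 2 ≤ E t :=
        Finset.single_le_sum (f := fun a => ‖w a t‖ ^ 2) (fun _ _ => sq_nonneg _)
          (Finset.mem_univ b)
      have g4 : ‖w d t‖ ^ 2 ≤ E t :=
        Finset.single_le_sum (f := fun a => ‖w a t‖ ^ 2) (fun _ _ => sq_nonneg _)
          (Finset.mem_univ d)
      nlinarith [sq_nonneg (‖w b t‖ - ‖w d t‖)]
    linarith
  have iE : Integrable (fun s => C * N * E s) (volume.restrict (Ioc 0 T)) := by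
    have h1 : IntegrableOn E (Ioc 0 T) volume := cE.integrableOn_Icc.mono_set Ioc_subset_Icc_self
    exact Integrable.const_mul h1 _
  have ii : ∀ a, Integrable (fun s => ⟪h a s, w a s⟫_ℝ) (volume.restrict (Ioc 0 T)) := fun a =>
    inner_int (ih a) (cw a)
  have hle : ∀ t ∈ Icc 0 T, E t ≤ 0 + ∫ s in (0 : ℝ)..t, (2 * (C * N)) * E s := by
    intro t ht
    have e1 : E t = 2 * ∫ s in (0 : ℝ)..t, ∑ a, ⟪h a s, w a s⟫_ℝ := by
      rw [intervalIntegral.integral_finsetSum fun a _ => ii_of_int (ii a) le_rfl ht.1 ht.2,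
        Finset.mul_sum]
      exact Finset.sum_congr rfl fun a _ => normsq (ih a) (pw a) ht
    have e2 : ∫ s in (0 : ℝ)..t, ∑ a, ⟪h a s, w a s⟫_ℝ ≤ ∫ s in (0 : ℝ)..t, C * N * E s := by
      rw [intervalIntegral.integral_of_le ht.1, intervalIntegral.integral_of_le ht.1]
      have hsub : (volume.restrict (Ioc 0 t) : Measure ℝ) ≤ volume.restrict (Ioc 0 T) :=
        Measure.restrict_mono (Ioc_subset_Ioc_right ht.2) le_rfl
      refine integral_mono_ae ((integrable_finsetSum _ fun a _ => ii a).mono_measure hsub)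
        (iE.mono_measure hsub) (ae_mono hsub key)
    rw [zero_add, e1]
    have e3 : ∫ s in (0 : ℝ)..t, (2 * (C * N)) * E s = 2 * ∫ s in (0 : ℝ)..t, C * N * E s := by
      rw [← intervalIntegral.integral_const_mul]
      refine intervalIntegral.integral_congr fun s _ => ?_
      show 2 * (C * N) * E s = 2 * (C * N * E s)
      ring
    rw [e3]
    linarith
  have hfin : ∀ t ∈ Icc 0 T, E t ≤ 0 := by
    intro t ht
    have := gron_int hT (ℓ := E) (w := fun _ => 2 * (C * N)) (a := 0) cE (fun t _ => E0 t)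
      continuousOn_const (fun _ _ => by positivity) hle ht
    rwa [mul_zero] at this
  intro a t ht
  have h1 : ‖w a t‖ ^ 2 ≤ 0 :=
    (Finset.single_le_sum (f := fun a => ‖w a t‖ ^ 2) (fun _ _ => sq_nonneg _)
      (Finset.mem_univ a)).trans (hfin t ht)
  have h2 : ‖w a t‖ = 0 := by nlinarith [norm_nonneg (w a t)]
  exact sub_eq_zero.1 (norm_eq_zero.1 h2)

end Pool.Agent.N327.MD
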