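import Pool.Agent.N327.MD.Uniq
import Pool.Agent.N327.LE.Conv

/-!
From the weak formulation to the equation at almost every time.
-/

set_option autoImplicit false
set_option linter.unusedSectionVars false

open MeasureTheory Set Filter Topology
open scoped InnerProductSpace ENNReal ContDiff NNReal

namespace Pool.Agent.N327.MD

open H772R2.NS
open H772R2.NSR (Frame)
open H772R2.NSG (by_parts ii_of_int norm_m_le)
open Pool.Agent.N983.NC (Sym)
open Pool.Agent.N327.LE (mv tri_conv)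

variable {Ω : Set E3}

theorem restr_eq (T : ℝ) : (volume.restrict (Ioo 0 T) : Measure ℝ) = volume.restrict (Ioc 0 T) :=
  Measure.restrict_congr_set Ioo_ae_eq_Ioc

/-- one test field -/
theorem ae_one {T : ℝ} (hT : 0 < T) {G R : ℝ → ℝ} (k0 : ℝ)
    (hG : Integrable G (volume.restrict (Ioc 0 T))) (hR : Integrable R (volume.restrict (Ioc 0 T)))
    (h : ∀ θ : ℝ → ℝ, ContDiff ℝ ∞ θ → HasCompactSupport θ → tsupport θ ⊆ Ioo 0 T →
      ∫ t in Ioo 0 T, (-(deriv θ t) * (k0 + ∫ s in (0 : ℝ)..t, G s) + θ t * R t) = 0) :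
    ∀ᵐ t ∂(volume.restrict (Ioc 0 T)), G t + R t = 0 := by
  rw [← restr_eq]
  have hi : Integrable (fun t => G t + R t) (volume.restrict (Ioo 0 T)) := by
    rw [restr_eq]; exact hG.add hR
  have key := isOpen_Ioo.ae_eq_zero_of_integral_contDiff_smul_eq_zero (μ := (volume : Measure ℝ))
    (U := Ioo 0 T) (f := fun t => G t + R t) (IntegrableOn.locallyIntegrableOn hi) (by
      intro θ h1 h2 h3
      have hθd : Continuous (deriv θ) := h1.continuous_deriv (by simp)
      have hθc : Continuous θ := h1.continuous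
      have hT0 : θ T = 0 := image_eq_zero_of_notMem_tsupport fun hc => (h3 hc).2.false
      have hbp := by_parts (Y := ℝ) (G := G) (z1 := deriv θ) (zb := θ) hG
        (by
          have : IntegrableOn (deriv θ) (Ioc 0 T) volume :=
            hθd.continuousOn.integrableOn_Icc.mono_set Ioc_subset_Icc_self
          exact this)
        (fun a b _ _ _ => by
          rw [intervalIntegral.integral_deriv_eq_sub (fun x _ => (h1.differentiable (by simp)) x)
            (hθd.intervalIntegrable _ _)])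
        hθc.continuousOn (t := T) ⟨hT.le, le_rfl⟩
      simp only [hT0, inner_zero_right, intervalIntegral.integral_zero] at hbp
      have e1 : ∫ t, θ t • (G t + R t) = ∫ t in Ioo 0 T, θ t * (G t + R t) := by
        symm
        apply setIntegral_eq_integral_of_forall_compl_eq_zero
        intro x hx
        have : θ x = 0 := image_eq_zero_of_notMem_tsupport (fun hc => hx (h3 hc))
        rw [this, zero_mul]
      obtain ⟨B1, hB1⟩ := h2.exists_bound_of_continuous hθc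
      have iR : Integrable (fun t => θ t * R t) (volume.restrict (Ioc 0 T)) :=
        hR.bdd_mul (c := B1) hθc.aestronglyMeasurable (Eventually.of_forall hB1)
      have iG : Integrable (fun t => θ t * G t) (volume.restrict (Ioc 0 T)) :=
        hG.bdd_mul (c := B1) hθc.aestronglyMeasurable (Eventually.of_forall hB1)
      have cP : ContinuousOn (fun t => ∫ s in (0 : ℝ)..t, G s) (Icc 0 T) :=
        prim_cont1 hG (fun t _ => rfl)
      have iD : Integrable (fun t => -(deriv θ t) * ∫ s in (0 : ℝ)..t, G s)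
          (volume.restrict (Ioc 0 T)) := by
        have : IntegrableOn (fun t => -(deriv θ t) * ∫ s in (0 : ℝ)..t, G s) (Ioc 0 T) volume :=
          (hθd.neg.continuousOn.mul cP).integrableOn_Icc.mono_set Ioc_subset_Icc_self
        exact this
      have iD0 : Integrable (fun t => -(deriv θ t) * k0) (volume.restrict (Ioc 0 T)) := by
        have : IntegrableOn (fun t => -(deriv θ t) * k0) (Ioc 0 T) volume :=
          (hθd.neg.continuousOn.mul continuousOn_const).integrableOn_Icc.mono_set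
            Ioc_subset_Icc_self
        exact this
      have h00 : θ 0 = 0 := image_eq_zero_of_notMem_tsupport fun hc => (h3 hc).1.false
      have z0 : ∫ t in Ioc 0 T, -(deriv θ t) * k0 = 0 := by
        rw [← intervalIntegral.integral_of_le hT.le, intervalIntegral.integral_mul_const,
          intervalIntegral.integral_neg,
          intervalIntegral.integral_deriv_eq_sub (fun x _ => (h1.differentiable (by simp)) x)
            (hθd.intervalIntegrable _ _), hT0, h00]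
        ring
      have h4 := h θ h1 h2 h3
      have h4' : ∫ t in Ioo 0 T, (-(deriv θ t) * (k0 + ∫ s in (0 : ℝ)..t, G s) + θ t * R t)
          = (∫ t in Ioc 0 T, -(deriv θ t) * k0)
            + ((∫ t in Ioc 0 T, -(deriv θ t) * ∫ s in (0 : ℝ)..t, G s)
              + ∫ t in Ioc 0 T, θ t * R t) := by
        have a1 := integral_add iD iR
        have a2 := integral_add iD0 (iD.add iR)
        simp only [Pi.add_apply] at a2
        rw [restr_eq, ← a1, ← a2]
        refine integral_congr_ae (Eventually.of_forall fun t => ?_)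
        show -(deriv θ t) * (k0 + ∫ s in (0 : ℝ)..t, G s) + θ t * R t
          = -(deriv θ t) * k0 + (-(deriv θ t) * (∫ s in (0 : ℝ)..t, G s) + θ t * R t)
        ring
      rw [h4', z0, zero_add] at h4
      rw [e1, restr_eq]
      have e2 : ∫ t in Ioc 0 T, θ t * (G t + R t)
          = (∫ t in Ioc 0 T, θ t * G t) + ∫ t in Ioc 0 T, θ t * R t := by
        rw [← integral_add iG iR]
        refine integral_congr_ae (Eventually.of_forall fun t => ?_)
        show θ t * (G t + R t) = θ t * G t + θ t * R t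
        ring
      rw [e2]
      have e3 : ∫ t in Ioc 0 T, θ t * G t = ∫ s in (0 : ℝ)..T, ⟪G s, θ s⟫_ℝ := by
        rw [intervalIntegral.integral_of_le hT.le]
        refine integral_congr_ae (Eventually.of_forall fun t => ?_)
        show θ t * G t = ⟪G t, θ t⟫_ℝ
        simp
      have e4 : ∫ t in Ioc 0 T, -(deriv θ t) * ∫ s in (0 : ℝ)..t, G s
          = -∫ r in (0 : ℝ)..T, ⟪∫ s in (0 : ℝ)..r, G s, deriv θ r⟫_ℝ := by
        rw [intervalIntegral.integral_of_le hT.le, ← integral_neg]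
        refine integral_congr_ae (Eventually.of_forall fun t => ?_)
        show -(deriv θ t) * (∫ s in (0 : ℝ)..t, G s) = -⟪∫ s in (0 : ℝ)..t, G s, deriv θ t⟫_ℝ
        simp
      rw [e4] at h4
      rw [e3]
      linarith)
  exact (ae_restrict_iff' measurableSet_Ioo).2 key

/-- all test fields -/
theorem ae_of_dist {T : ℝ} (hT : 0 < T) {u g F : ℝ → L2V Ω} {M : ℝ → L2M Ω} {u0 : L2V Ω}
    (hg : Integrable g (volume.restrict (Ioc 0 T)))
    (hu : ∀ t ∈ Icc 0 T, u t = u0 + ∫ s in (0 : ℝ)..t, g s)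
    (hM : Integrable M (volume.restrict (Ioc 0 T)))
    (hF : Integrable F (volume.restrict (Ioc 0 T)))
    (h : ∀ p ∈ preW Ω, ∀ θ : ℝ → ℝ, ContDiff ℝ ∞ θ → HasCompactSupport θ → tsupport θ ⊆ Ioo 0 T →
      ∫ t in Ioo 0 T, (-(deriv θ t) * ⟪u t, p.1⟫_ℝ + θ t * (⟪M t, p.2⟫_ℝ - ⟪F t, p.1⟫_ℝ)) = 0) :
    ∀ᵐ t ∂(volume.restrict (Ioc 0 T)), ∀ p ∈ graphW Ω,
      ⟪g t, p.1⟫_ℝ + (⟪M t, p.2⟫_ℝ - ⟪F t, p.1⟫_ℝ) = 0 := by
  have s1 := secondCountable_L2V Ω
  have s2 := secondCountable_L2M Ω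
  obtain ⟨D, hD1, hD2, hD3⟩ := (TopologicalSpace.IsSeparable.of_separableSpace
    (preW Ω : Set (L2V Ω × L2M Ω))).exists_countable_dense_subset
  have h1 : ∀ᵐ t ∂(volume.restrict (Ioc 0 T)), ∀ p ∈ D,
      ⟪g t, p.1⟫_ℝ + (⟪M t, p.2⟫_ℝ - ⟪F t, p.1⟫_ℝ) = 0 := by
    rw [ae_ball_iff hD2]
    intro p hp
    refine ae_one hT ⟪u0, p.1⟫_ℝ (hg.inner_const _) ((hM.inner_const _).sub (hF.inner_const _)) ?_
    intro θ k1 k2 k3
    refine Eq.trans ?_ (h p (hD1 hp) θ k1 k2 k3)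
    refine setIntegral_congr_fun (measurableSet_Ioo : MeasurableSet (Ioo (0 : ℝ) T)) fun t ht => ?_
    have e : ⟪u t, p.1⟫_ℝ = ⟪u0, p.1⟫_ℝ + ∫ s in (0 : ℝ)..t, ⟪g s, p.1⟫_ℝ := by
      rw [hu t ⟨ht.1.le, ht.2.le⟩, inner_add_left, intervalIntegral.integral_of_le ht.1.le,
        intervalIntegral.integral_of_le ht.1.le]
      congr 1
      have hi : IntegrableOn g (Ioc 0 t) volume :=
        hg.mono_measure (Measure.restrict_mono (Ioc_subset_Ioc_right ht.2.le) le_rfl)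
      have := integral_inner (𝕜 := ℝ) hi p.1
      rw [real_inner_comm, ← this]
      exact integral_congr_ae (Eventually.of_forall fun s => real_inner_comm _ _)
    show _ = -(deriv θ t) * ⟪u t, p.1⟫_ℝ + θ t * (⟪M t, p.2⟫_ℝ - ⟪F t, p.1⟫_ℝ)
    rw [e]
  filter_upwards [h1] with t ht p hp
  have hc : IsClosed {p : L2V Ω × L2M Ω | ⟪g t, p.1⟫_ℝ + (⟪M t, p.2⟫_ℝ - ⟪F t, p.1⟫_ℝ) = 0} :=
    isClosed_eq (by fun_prop) continuous_const
  have hp' : p ∈ closure (preW Ω : Set (L2V Ω × L2M Ω)) := by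
    have := hp
    unfold graphW at this
    rwa [← SetLike.mem_coe, Submodule.topologicalClosure_coe] at this
  have hp2 : p ∈ closure D := by
    have := closure_mono hD3 hp'
    rwa [closure_closure] at this
  exact closure_minimal (fun q hq => ht q hq) hc hp2

/-- the convective form -/
theorem conv_sum {C : ℝ} (Fr : Frame (graphW Ω) (tensL (Ω := Ω)) C) (hΩ : MeasurableSet Ω)
    {p q r : L2V Ω × L2M Ω} (hp : p ∈ graphW Ω) (hq : q ∈ graphW Ω) {φ : E3 → E3}
    (hφ : IsTest Ω φ) (h1 : r.1 =ᵐ[volume.restrict Ω] φ)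
    (h2 : r.2 =ᵐ[volume.restrict Ω] jac φ) :
    (∫ x in Ω, ⟪mv (q.2 x) (p.1 x), φ x⟫_ℝ) + (∫ x in Ω, ⟪mv (p.2 x) (q.1 x), φ x⟫_ℝ)
      = -(2 * tr p q r) := by
  have hr : r ∈ graphW Ω := Submodule.le_topologicalClosure _ ⟨φ, hφ, h1, h2⟩
  have hpq := (graphW Ω).add_mem hp hq
  obtain ⟨B, hB⟩ := hφ.compact.exists_bound_of_continuous hφ.smooth.continuous
  have hmvm : ∀ (z : L2M Ω) (v : L2V Ω), AEStronglyMeasurable (fun x => mv (z x) (v x))
      (volume.restrict Ω) := by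
    intro z v
    unfold mv
    have c1 : Continuous (fun y : M3 × E3 => (WithLp.toLp 2 fun i => ∑ j, y.1 (i, j) * y.2 j : E3)) := by
      refine (PiLp.continuous_toLp 2 _).comp (continuous_pi fun i => ?_)
      fun_prop
    exact c1.comp_aestronglyMeasurable ((Lp.aestronglyMeasurable z).prodMk
      (Lp.aestronglyMeasurable v))
  have hmvn : ∀ (A : M3) (a : E3), ‖mv A a‖ ≤ ‖A‖ * ‖a‖ := by
    intro A a
    have h : ‖mv A a‖ ^ 2 ≤ (‖A‖ * ‖a‖) ^ 2 := by
      rw [norm_sq_E3, mul_pow, norm_sq_M3, norm_sq_E3, Finset.sum_mul]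
      refine Finset.sum_le_sum (fun i _ => ?_)
      show (∑ j, A (i, j) * a j) ^ 2 ≤ (∑ j, A (i, j) ^ 2) * ∑ j, a j ^ 2
      exact Finset.sum_mul_sq_le_sq_mul_sq _ _ _
    exact (pow_le_pow_iff_left₀ (norm_nonneg _) (by positivity) (by norm_num)).mp h
  have hint : ∀ (z : L2M Ω) (v : L2V Ω), Integrable (fun x => ⟪mv (z x) (v x), φ x⟫_ℝ)
      (volume.restrict Ω) := by
    intro z v
    have i1 : Integrable (fun x => ‖z x‖ * ‖v x‖ * B) (volume.restrict Ω) :=
      ((Lp.memLp z).norm.integrable_mul (Lp.memLp v).norm).mul_const B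
    refine i1.mono' ((hmvm z v).inner hφ.smooth.continuous.aestronglyMeasurable) ?_
    refine Eventually.of_forall fun x => (norm_inner_le_norm _ _).trans ?_
    have b1 := hmvn (z x) (v x)
    have b2 := hB x
    gcongr
  have t1 := (tri_conv Fr hΩ hpq hr).2
  have t2 := (tri_conv Fr hΩ hp hr).2
  have t3 := (tri_conv Fr hΩ hq hr).2
  have e0 : ∀ s : L2V Ω × L2M Ω, ∫ x in Ω, ⟪r.1 x, mv (s.2 x) (s.1 x)⟫_ℝ
      = ∫ x in Ω, ⟪mv (s.2 x) (s.1 x), φ x⟫_ℝ := by
    intro s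
    refine integral_congr_ae ?_
    filter_upwards [h1] with x hx
    rw [hx, real_inner_comm]
  rw [e0] at t1 t2 t3
  have e1 : ∫ x in Ω, ⟪mv ((p + q).2 x) ((p + q).1 x), φ x⟫_ℝ
      = ((∫ x in Ω, ⟪mv (p.2 x) (p.1 x), φ x⟫_ℝ) + ∫ x in Ω, ⟪mv (q.2 x) (p.1 x), φ x⟫_ℝ)
        + ((∫ x in Ω, ⟪mv (p.2 x) (q.1 x), φ x⟫_ℝ) + ∫ x in Ω, ⟪mv (q.2 x) (q.1 x), φ x⟫_ℝ) := by
    have a := integral_add (μ := volume.restrict Ω) ((hint p.2 p.1).add (hint q.2 p.1))
      ((hint p.2 q.1).add (hint q.2 q.1))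
    simp only [Pi.add_apply] at a
    rw [← integral_add (hint _ _) (hint _ _), ← integral_add (hint _ _) (hint _ _), ← a]
    refine integral_congr_ae ?_
    filter_upwards [Lp.coeFn_add p.1 q.1, Lp.coeFn_add p.2 q.2] with x a1 a2
    have a1' : (p + q).1 x = p.1 x + q.1 x := a1
    have a2' : (p + q).2 x = p.2 x + q.2 x := a2
    rw [a1', a2', inner_E3, inner_E3, inner_E3, inner_E3, inner_E3]
    simp only [Fin.sum_univ_three, mv, PiLp.add_apply]
    ring
  have e2 : ⟪tensL (p + q).1, r.2⟫_ℝ = 2 * tr p q r + ⟪tensL p.1, r.2⟫_ℝ + ⟪tensL q.1, r.2⟫_ℝ := by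
    rw [Prod.fst_add, tensL_add, inner_add_left, inner_add_left, real_inner_smul_left]
    rfl
  rw [e1, e2] at t1
  linarith

variable {K : Type} [Fintype K] {c : K → K → K → ℝ}

theorem nonlin_eq {C : ℝ} (Fr : Frame (graphW Ω) (tensL (Ω := Ω)) C) (hΩ : MeasurableSet Ω)
    (hc : Sym c) {P : K → L2V Ω × L2M Ω} (hP : ∀ a, P a ∈ graphW Ω) (a : K) {φ : E3 → E3}
    (hφ : IsTest Ω φ) {r : L2V Ω × L2M Ω} (h1 : r.1 =ᵐ[volume.restrict Ω] φ)
    (h2 : r.2 =ᵐ[volume.restrict Ω] jac φ) :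
    ∑ b, ∑ d, c a b d * ∫ x in Ω, ⟪mv ((P d).2 x) ((P b).1 x), φ x⟫_ℝ
      = -⟪mc c (fun b => (P b).1) a, r.2⟫_ℝ := by
  rw [mc_inner]
  set N : K → K → ℝ := fun b d => ∫ x in Ω, ⟪mv ((P d).2 x) ((P b).1 x), φ x⟫_ℝ with hN
  have e1 : ∀ b d, N b d + N d b = -(2 * tr (P b) (P d) r) := fun b d =>
    conv_sum Fr hΩ (hP b) (hP d) hφ h1 h2
  have e2 : ∑ b, ∑ d, c a b d * N b d = ∑ b, ∑ d, c a b d * N d b := by
    rw [Finset.sum_comm]
    refine Finset.sum_congr rfl fun d _ => Finset.sum_congr rfl fun b _ => ?_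
    rw [(hc a b d).2]
  have e3 : (∑ b, ∑ d, c a b d * N b d) + ∑ b, ∑ d, c a b d * N b d
      = -(2 * ∑ b, ∑ d, c a b d * tr (P b) (P d) r) := by
    conv_lhs => rw [e2]
    conv_lhs => enter [1]; rw [← e2]
    rw [← Finset.sum_add_distrib, Finset.mul_sum, ← Finset.sum_neg_distrib]
    refine Finset.sum_congr rfl fun b _ => ?_
    rw [← Finset.sum_add_distrib, Finset.mul_sum, ← Finset.sum_neg_distrib]
    refine Finset.sum_congr rfl fun d _ => ?_
    rw [← mul_add, e1]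
    ring
  show ∑ b, ∑ d, c a b d * N b d = _
  linarith

theorem sy_integrable {C : ℝ} (Fr : Frame (graphW Ω) (tensL (Ω := Ω)) C) (hΩ : MeasurableSet Ω)
    {T : ℝ} {u v : ℝ → L2V Ω} {y z : ℝ → L2M Ω}
    (hu : AEStronglyMeasurable u (volume.restrict (Ioc 0 T)))
    (hv : AEStronglyMeasurable v (volume.restrict (Ioc 0 T)))
    (hy : MemLp y 2 (volume.restrict (Ioc 0 T))) (hz : MemLp z 2 (volume.restrict (Ioc 0 T)))
    (mu : ∀ᵐ t ∂(volume.restrict (Ioc 0 T)), (u t, y t) ∈ graphW Ω)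
    (mv : ∀ᵐ t ∂(volume.restrict (Ioc 0 T)), (v t, z t) ∈ graphW Ω) :
    Integrable (fun t => sy (u t) (v t)) (volume.restrict (Ioc 0 T)) := by
  have key : ∀ {u : ℝ → L2V Ω} {y : ℝ → L2M Ω},
      AEStronglyMeasurable u (volume.restrict (Ioc 0 T)) →
      MemLp y 2 (volume.restrict (Ioc 0 T)) →
      (∀ᵐ t ∂(volume.restrict (Ioc 0 T)), (u t, y t) ∈ graphW Ω) →
      Integrable (fun t => tensL (u t)) (volume.restrict (Ioc 0 T)) := by
    intro u y hu hy mu
    have hmm : AEStronglyMeasurable (fun s => tensL (u s)) (volume.restrict (Ioc 0 T)) :=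
      aestronglyMeasurable_tensL hΩ hu hy.aestronglyMeasurable mu
    have hzn : Integrable (fun s => ‖y s‖ ^ 2) (volume.restrict (Ioc 0 T)) :=
      (memLp_two_iff_integrable_sq_norm hy.aestronglyMeasurable).mp hy
    refine (hzn.const_mul C).mono' hmm ?_
    filter_upwards [mu] with s hs
    exact norm_m_le Fr (p := (u s, y s)) hs
  have h1 := key (u := fun t => u t + v t) (y := fun t => y t + z t) (hu.add hv) (hy.add hz) (by
    filter_upwards [mu, mv] with t a b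
    exact (graphW Ω).add_mem a b)
  exact ((h1.sub (key hu hy mu)).sub (key hv hz mv)).smul (1 / 2 : ℝ)

/-- The weak formulation implies the equation at almost every time. -/
theorem weak_eqn {C : ℝ} (Fr : Frame (graphW Ω) (tensL (Ω := Ω)) C) (hΩ : MeasurableSet Ω)
    (hc : Sym c) {ν T : ℝ} (hT : 0 < T) {u g f : K → ℝ → L2V Ω} {z : K → ℝ → L2M Ω}
    {u0 : K → L2V Ω} (ig : ∀ a, Integrable (g a) (volume.restrict (Ioc 0 T)))
    (pu : ∀ a, ∀ t ∈ Icc 0 T, u a t = u0 a + ∫ s in (0 : ℝ)..t, g a s)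
    (mu : ∀ᵐ t ∂(volume.restrict (Ioc 0 T)), ∀ a, (u a t, z a t) ∈ graphW Ω)
    (z2 : ∀ a, MemLp (z a) 2 (volume.restrict (Ioc 0 T)))
    (fi : ∀ a, Integrable (f a) (volume.restrict (Ioc 0 T)))
    (hw : ∀ a, ∀ φ : E3 → E3, IsTest Ω φ → ∀ θ : ℝ → ℝ, ContDiff ℝ ∞ θ → HasCompactSupport θ →
      tsupport θ ⊆ Ioo 0 T → ∫ t in Ioo 0 T, (-(deriv θ t) * (∫ x in Ω, ⟪u a t x, φ x⟫_ℝ)
        + θ t * ((∑ b, ∑ d, c a b d * ∫ x in Ω, ⟪mv (z d t x) (u b t x), φ x⟫_ℝ)
          + ν * (∫ x in Ω, ⟪z a t x, jac φ x⟫_ℝ) - ∫ x in Ω, ⟪f a t x, φ x⟫_ℝ)) = 0) :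
    Eqn c ν T u g f z := by
  have mall : ∀ b, ∀ᵐ t ∂(volume.restrict (Ioc 0 T)), (u b t, z b t) ∈ graphW Ω := by
    intro b
    filter_upwards [mu] with t ht using ht b
  have um : ∀ b, AEStronglyMeasurable (u b) (volume.restrict (Ioc 0 T)) := fun b =>
    ((prim_cont (ig b) (pu b)).mono Ioc_subset_Icc_self).aestronglyMeasurable measurableSet_Ioc
  have hmci : ∀ a, Integrable (fun t => mc c (fun b => u b t) a) (volume.restrict (Ioc 0 T)) := by
    intro a
    refine integrable_finsetSum _ fun b _ => integrable_finsetSum _ fun d _ => ?_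
    exact (sy_integrable Fr hΩ (um b) (um d) (z2 b) (z2 d) (mall b) (mall d)).smul (c a b d)
  have hfin : IsFiniteMeasure (volume.restrict (Ioc 0 T) : Measure ℝ) := by
    rw [isFiniteMeasure_restrict]; simp
  have hzi : ∀ a, Integrable (z a) (volume.restrict (Ioc 0 T)) := fun a =>
    (z2 a).integrable (by norm_num)
  have h1 : ∀ a, ∀ᵐ t ∂(volume.restrict (Ioc 0 T)), ∀ p ∈ graphW Ω,
      ⟪g a t, p.1⟫_ℝ + (⟪ν • z a t - mc c (fun b => u b t) a, p.2⟫_ℝ - ⟪f a t, p.1⟫_ℝ) = 0 := by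
    intro a
    refine ae_of_dist hT (ig a) (pu a) (M := fun t => ν • z a t - mc c (fun b => u b t) a)
      (((hzi a).smul ν).sub (hmci a)) (fi a) ?_
    rintro p ⟨φ, k1, k2, k3⟩ θ j1 j2 j3
    refine Eq.trans ?_ (hw a φ k1 θ j1 j2 j3)
    refine integral_congr_ae ?_
    have mu' : ∀ᵐ t ∂(volume.restrict (Ioo 0 T)), ∀ a, (u a t, z a t) ∈ graphW Ω := by
      rw [restr_eq]; exact mu
    filter_upwards [mu'] with t ht
    have e1 : ∀ v : L2V Ω, ⟪v, p.1⟫_ℝ = ∫ x in Ω, ⟪v x, φ x⟫_ℝ := by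
      intro v
      rw [L2.inner_def]
      refine integral_congr_ae ?_
      filter_upwards [k2] with x hx
      rw [hx]
    have e2 : ∀ v : L2M Ω, ⟪v, p.2⟫_ℝ = ∫ x in Ω, ⟪v x, jac φ x⟫_ℝ := by
      intro v
      rw [L2.inner_def]
      refine integral_congr_ae ?_
      filter_upwards [k3] with x hx
      rw [hx]
    have e3 := nonlin_eq Fr hΩ hc (P := fun b => (u b t, z b t)) ht a k1 k2 k3
    simp only at e3
    rw [e3, inner_sub_left, real_inner_smul_left, ← e1, ← e1, ← e2]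
    ring
  have h2 : ∀ᵐ t ∂(volume.restrict (Ioc 0 T)), ∀ a, ∀ p ∈ graphW Ω,
      ⟪g a t, p.1⟫_ℝ + (⟪ν • z a t - mc c (fun b => u b t) a, p.2⟫_ℝ - ⟪f a t, p.1⟫_ℝ) = 0 := by
    rw [ae_all_iff]
    exact h1
  unfold Eqn
  filter_upwards [h2] with t ht a p hp
  have := ht a p hp
  rw [inner_sub_left, real_inner_smul_left] at this
  linarith

end Pool.Agent.N327.MD
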